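import Pool.Agent.H633.W.Base

/-!
# Amalgamation of valid conditions
-/

set_option autoImplicit false
set_option linter.unusedSectionVars false
set_option linter.unusedVariables false

namespace Pool.Agent.H633.W

open Cardinal Set Pool.Agent.Helper669.Forcing Pool.Agent.H915

variable {K : Type} [LinearOrder K] [WellFoundedLT K] [Cod K] {c : Ctx K}

/-! ### Restriction and lifting -/

theorem OKat.mono {P : Set (Pr K)} {nm : Finset Om1 → Set (Pr K)} {ζ : K} {p q : Pr K}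
    (h : OKat c P nm ζ p) (hle : q ≤ p) (hf : fib q ζ = fib p ζ)
    (hn : ∀ Q ∈ q.base.Nd, ζ ∈ Q → ∃ Q' ∈ p.base.Nd, ζ ∈ Q' ∧
      Q' ∩ Iio (nx ζ) = Q ∩ Iio (nx ζ)) : OKat c P nm ζ q := by
  refine ⟨(Pr_le.1 hle).1 h.1, ?_, ?_⟩
  · rw [hf]
    exact h.2.1.mono (cut_mono hle ζ)
  · intro Q hQ hζ hr
    obtain ⟨Q', h1, h2, h3⟩ := hn Q hQ hζ
    rw [hf, ← h3]
    rw [← h3] at hr
    exact (h.2.2 Q' h1 h2 hr).mono (cut_mono hle ζ) (Finset.Subset.refl _)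

theorem cut_mem_PT {p : Pr K} (hp : p ∈ PT c) (γ : K) : cut γ p ∈ PT c := by
  intro ζ hζ
  have hlt : ζ < γ := by
    obtain ⟨x, hx⟩ := hζ
    exact (mem_cut_top.1 (mem_fib.1 hx)).2
  rw [fib_cut p hlt] at hζ
  obtain ⟨h1, h2, h3⟩ := hp ζ hζ
  refine ⟨⟨h1, hlt⟩, ?_, ?_⟩
  · rw [fib_cut p hlt, cut_cut p hlt.le]
    exact h2
  · intro Q hQ
    rw [fib_cut p hlt, cut_cut p hlt.le]
    exact h3 Q hQ.1

theorem cut_mem {p : Pr K} (hp : p ∈ PT c) (γ : K) : cut γ p ∈ PS c γ :=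
  mem_PS.2 ⟨below_cut γ p, cut_mem_PT hp γ⟩

/-- Lifting: if `q ≤ p ∩ γ` is a condition below `γ`, then `p` and `q` are compatible. -/
theorem lift (hT : TrUnb K) {p q : Pr K} {γ : K} (hp : p ∈ PT c) (hγ : γ ∈ p.base.A)
    (hq : q ∈ PS c γ) (hle : q ≤ cut γ p) :
    ∃ r ∈ PT c, r ≤ p ∧ r ≤ q ∧ r.base.A = p.base.A ∪ q.base.A ∧
      r.base.Nd = p.base.Nd ∪ q.base.Nd ∧ ∀ a, a ∈ r.top ↔ a ∈ p.top ∨ a ∈ q.top := by
  classical
  obtain ⟨hqB, hqT⟩ := mem_PS.1 hq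
  have hTr : Tr γ := p.base.tr γ hγ
  obtain ⟨l1, l2, l3⟩ := Pr_le.1 hle
  obtain ⟨r0, hA, hN⟩ := b_amalgT p.base q.base γ hγ (fun τ h => hqB.1 h) hqB.2.1 ⟨l1, l2⟩
  let r : Pr K := ⟨r0, p.top ∪ q.top⟩
  have htop : ∀ a, a ∈ r.top ↔ a ∈ p.top ∨ a ∈ q.top := fun a => Finset.mem_union
  have hrp : r ≤ p := Pr_le.2 ⟨by change p.base.A ⊆ r0.A; rw [hA]; exact subset_union_left,
    by change p.base.Nd ⊆ r0.Nd; rw [hN]; exact subset_union_left, Finset.subset_union_left⟩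
  have hrq : r ≤ q := Pr_le.2 ⟨by change q.base.A ⊆ r0.A; rw [hA]; exact subset_union_right,
    by change q.base.Nd ⊆ r0.Nd; rw [hN]; exact subset_union_right, Finset.subset_union_right⟩
  refine ⟨r, ?_, hrp, hrq, hA, hN, htop⟩
  intro ζ hζ
  rcases lt_or_ge ζ γ with hlt | hge
  · have hf : fib r ζ = fib q ζ := by
      ext x
      rw [mem_fib, mem_fib, htop]
      constructor
      · rintro (h | h)
        · exact l3 (mem_cut_top.2 ⟨h, hlt⟩)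
        · exact h
      · exact Or.inr
    rw [hf] at hζ
    refine (hqT ζ hζ).mono hrq hf ?_
    intro Q hQ hζQ
    have hQ' : Q ∈ p.base.Nd ∪ q.base.Nd := by rw [← hN]; exact hQ
    rcases hQ' with h | h
    · refine ⟨Q ∩ Iio γ, l2 ⟨p.base.cl Q h γ hγ, inter_subset_right⟩, ⟨hζQ, hlt⟩, ?_⟩
      exact inter_nx hT hlt hTr Q
    · exact ⟨Q, h, hζQ, rfl⟩
  · have hf : fib r ζ = fib p ζ := by
      ext x
      rw [mem_fib, mem_fib, htop]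
      constructor
      · rintro (h | h)
        · exact h
        · exact absurd (hqB.2.2 _ h) (not_lt.2 hge)
      · exact Or.inl
    rw [hf] at hζ
    refine (hp ζ hζ).mono hrp hf ?_
    intro Q hQ hζQ
    have hQ' : Q ∈ p.base.Nd ∪ q.base.Nd := by rw [← hN]; exact hQ
    rcases hQ' with h | h
    · exact ⟨Q, h, hζQ, rfl⟩
    · exact absurd (hqB.2.1 Q h hζQ) (not_lt.2 hge)

/-! ### Adding a transitive node -/

/-- Lemma A of the base conditions, with a description of the new small nodes -/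
theorem addTr' (p : C0 K) (α : K) (hα : Tr α) : ∃ r ≤ p, α ∈ r.A ∧
    ∀ R ∈ r.Nd, R ∈ p.Nd ∨ ∃ Q ∈ p.Nd, ∃ ξ, Tr ξ ∧ R = Q ∩ Iio ξ := by
  have h1 := P0a.nodeRestr K
  have h2 := P0a.relRestr K
  have hBtr : ∀ ξ ∈ P0c.BB p α, Tr ξ := by
    rintro ξ (rfl | ⟨Q, hQ, h⟩)
    · exact hα
    · exact (p.nd Q hQ).gap α hα ξ h.1 h.2.1 h.2.2
  have hform : ∀ X : Set K, X ∈ p.Nd ∪ {X | ∃ Q ∈ p.Nd, ∃ ξ ∈ P0c.BB p α, X = Q ∩ Iio ξ} →
      X ∈ p.Nd ∨ ∃ Q ∈ p.Nd, ∃ ξ ∈ P0c.BB p α, X = Q ∩ Iio ξ := fun X h => h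
  have hgap : ∀ Q ∈ p.Nd, ∀ τ ∈ p.A ∪ P0c.BB p α, ∀ ζ, P0c.IsM Q τ ζ → ζ ∈ p.A ∪ P0c.BB p α := by
    rintro Q hQ τ (hτ | hτ) ζ hζ
    · exact Or.inl (p.gap Q hQ τ hτ ζ hζ.1 hζ.2.1 hζ.2.2)
    · exact P0c.gap_aux p α Q hQ τ hτ ζ hζ
  have hcmp1 : ∀ X Y : Set K, (∃ Q ∈ p.Nd, ∃ ξ ∈ P0c.BB p α, X = Q ∩ Iio ξ) →
      (Y ∈ p.Nd ∨ ∃ Q ∈ p.Nd, ∃ ξ ∈ P0c.BB p α, Y = Q ∩ Iio ξ) →
      (∀ τ ∈ p.A ∪ P0c.BB p α, X ⊆ Iio τ ↔ Y ⊆ Iio τ) → X = Y ∨ cd X ∈ Y ∨ cd Y ∈ X := by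
    rintro X Y ⟨Q, hQ, ξ, hξ, rfl⟩ hY hs
    have hYξ : Y ⊆ Iio ξ := (hs ξ (Or.inr hξ)).1 inter_subset_right
    rcases hY with hY | ⟨R, hR, ξ', hξ', rfl⟩
    · have e : Y = Y ∩ Iio ξ := (inter_eq_left.2 hYξ).symm
      rw [e] at hs ⊢
      exact P0c.cmp_aux h2 p α Q hQ Y hY ξ hξ (hBtr ξ hξ) fun τ hτ => hs τ (Or.inl hτ)
    · have hXξ' : Q ∩ Iio ξ ⊆ Iio ξ' := (hs ξ' (Or.inr hξ')).2 inter_subset_right
      rcases le_total ξ ξ' with h | h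
      · have e : R ∩ Iio ξ' = R ∩ Iio ξ := by
          apply Subset.antisymm
          · exact fun x hx => ⟨hx.1, hYξ hx⟩
          · exact fun x hx => ⟨hx.1, lt_of_lt_of_le hx.2 h⟩
        rw [e] at hs ⊢
        exact P0c.cmp_aux h2 p α Q hQ R hR ξ hξ (hBtr ξ hξ) fun τ hτ => hs τ (Or.inl hτ)
      · have e : Q ∩ Iio ξ = Q ∩ Iio ξ' := by
          apply Subset.antisymm
          · exact fun x hx => ⟨hx.1, hXξ' hx⟩
          · exact fun x hx => ⟨hx.1, lt_of_lt_of_le hx.2 h⟩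
        rw [e] at hs ⊢
        exact P0c.cmp_aux h2 p α Q hQ R hR ξ' hξ' (hBtr ξ' hξ') fun τ hτ => hs τ (Or.inl hτ)
  refine ⟨{ A := p.A ∪ P0c.BB p α
            Nd := p.Nd ∪ {X | ∃ Q ∈ p.Nd, ∃ ξ ∈ P0c.BB p α, X = Q ∩ Iio ξ}
            finA := p.finA.union (P0c.BB_finite p α)
            finN := ?_
            tr := ?_
            nd := ?_
            cl := ?_
            gap := ?_
            cmp := ?_ }, ⟨subset_union_left, subset_union_left⟩, Or.inr (Or.inl rfl), ?_⟩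
  · refine p.finN.union ((Set.Finite.image2 (fun Q ξ => Q ∩ Iio ξ) p.finN
      (P0c.BB_finite p α)).subset ?_)
    rintro X ⟨Q, hQ, ξ, hξ, rfl⟩
    exact ⟨Q, hQ, ξ, hξ, rfl⟩
  · rintro τ (hτ | hτ)
    · exact p.tr τ hτ
    · exact hBtr τ hτ
  · rintro X (hX | ⟨Q, hQ, ξ, hξ, rfl⟩)
    · exact p.nd X hX
    · exact h1 Q (p.nd Q hQ) ξ (hBtr ξ hξ)
  · rintro X (hX | ⟨Q, hQ, ξ, hξ, rfl⟩) τ (hτ | hτ)
    · exact Or.inl (p.cl X hX τ hτ)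
    · exact Or.inr ⟨X, hX, τ, hτ, rfl⟩
    · refine Or.inr ⟨Q ∩ Iio τ, p.cl Q hQ τ hτ, ξ, hξ, ?_⟩
      rw [inter_assoc, inter_assoc, inter_comm (Iio ξ)]
    · refine Or.inr ⟨Q, hQ, min ξ τ, ?_, ?_⟩
      · rcases min_choice ξ τ with h | h <;> rw [h] <;> assumption
      · rw [inter_assoc, Iio_inter_Iio]
  · rintro X hX τ hτ ζ hζ h3 h4
    rcases hX with hX | ⟨Q, hQ, ξ, hξ, rfl⟩
    · exact hgap X hX τ hτ ζ ⟨hζ, h3, h4⟩
    · refine hgap Q hQ τ hτ ζ ⟨hζ.1, h3, fun η hη hη' => ?_⟩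
      rcases lt_or_ge η ξ with h | h
      · exact h4 η ⟨hη, h⟩ hη'
      · exact (lt_of_lt_of_le hζ.2 h).le
  · intro X hX Y hY hs
    rcases hform X hX with hX' | hX'
    · rcases hform Y hY with hY' | hY'
      · exact p.cmp X hX' Y hY' fun τ hτ => hs τ (Or.inl hτ)
      · rcases hcmp1 Y X hY' (hform X hX) (fun τ hτ => (hs τ hτ).symm) with h | h | h
        · exact Or.inl h.symm
        · exact Or.inr (Or.inr h)
        · exact Or.inr (Or.inl h)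
    · exact hcmp1 X Y hX' (hform Y hY) hs
  · rintro R (hR | ⟨Q, hQ, ξ, hξ, rfl⟩)
    · exact Or.inl hR
    · exact Or.inr ⟨Q, hQ, ξ, hBtr ξ hξ, rfl⟩

/-- adding a transitive node to a valid condition -/
theorem addTr (hT : TrUnb K) {p : Pr K} (hp : p ∈ PT c) {α : K} (hα : Tr α) :
    ∃ q ∈ PT c, q ≤ p ∧ α ∈ q.base.A ∧ q.top = p.top := by
  obtain ⟨r, hr, h1, h2⟩ := addTr' p.base α hα
  have hle : (⟨r, p.top⟩ : Pr K) ≤ p := ⟨hr, Finset.Subset.refl _⟩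
  refine ⟨⟨r, p.top⟩, ?_, hle, h1, rfl⟩
  intro ζ hζ
  refine (hp ζ hζ).mono hle rfl ?_
  intro Q hQ hζQ
  rcases h2 Q hQ with h | ⟨Q', h3, ξ, h4, rfl⟩
  · exact ⟨Q, h, hζQ, rfl⟩
  · exact ⟨Q', h3, hζQ.1, (inter_nx hT hζQ.2 h4 Q').symm⟩

/-! ### Generic extensions at a coordinate -/

/-- Simultaneous generic extensions for a chain of relevant nodes. -/
theorem extAll {P : Set (Pr K)} {nm : Finset Om1 → Set (Pr K)} {γ : K} :
    ∀ (n : ℕ) (S : Set (Set K)) (_ : S.Finite) (u : Pr K) (F : Finset Om1), u ∈ P → Fo nm u F →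
      (∀ X ∈ S, Node X ∧ Rel c P nm γ X ∧ X ∩ Iio γ ∈ u.base.Nd ∧
        (Gnr c γ P nm X u F ∨ FIn X F)) →
      (∀ X ∈ S, ∀ Y ∈ S, X = Y ∨ cd X ∈ Y ∨ cd Y ∈ X) →
      {X | X ∈ S ∧ ¬ Gnr c γ P nm X u F}.ncard ≤ n →
      ∃ u' ∈ P, u' ≤ u ∧ ∃ F', F ⊆ F' ∧ Fo nm u' F' ∧ ∀ X ∈ S, Gnr c γ P nm X u' F' := by
  intro n
  induction n with
  | zero =>
    intro S hS u F hu hF h1 h2 hn
    refine ⟨u, hu, le_refl _, F, Finset.Subset.refl _, hF, fun X hX => ?_⟩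
    have hfin : {X | X ∈ S ∧ ¬ Gnr c γ P nm X u F}.Finite := hS.subset fun _ h => h.1
    have := (Set.ncard_eq_zero hfin).1 (Nat.le_zero.1 hn)
    by_contra hc
    have h3 : X ∈ {X | X ∈ S ∧ ¬ Gnr c γ P nm X u F} := ⟨hX, hc⟩
    rw [this] at h3
    exact h3
  | succ n ih =>
    intro S hS u F hu hF h1 h2 hn
    have hfin : {X | X ∈ S ∧ ¬ Gnr c γ P nm X u F}.Finite := hS.subset fun _ h => h.1
    by_cases hemp : {X | X ∈ S ∧ ¬ Gnr c γ P nm X u F} = ∅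
    · refine ⟨u, hu, le_refl _, F, Finset.Subset.refl _, hF, fun X hX => ?_⟩
      by_contra hc
      have h3 : X ∈ {X | X ∈ S ∧ ¬ Gnr c γ P nm X u F} := ⟨hX, hc⟩
      rw [hemp] at h3
      exact h3
    -- the least nongeneric node
    obtain ⟨X, hX, hXmin⟩ := Set.exists_min_image _ (fun X : Set K => dl X) hfin
      (Set.nonempty_iff_ne_empty.2 hemp)
    have hXn := h1 X hX.1
    have hrel : ∀ Y ∈ S, ¬ Gnr c γ P nm Y u F → Y = X ∨ cd X ∈ Y := by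
      intro Y hY hg
      rcases h2 X hX.1 Y hY with h | h | h
      · exact Or.inl h.symm
      · exact Or.inr h
      · exact absurd (hXmin Y ⟨hY, hg⟩) (not_le.2 (b_dl_lt (h1 Y hY).1 hXn.1 h))
    have hcount : ∀ (u' : Pr K) (F' : Finset Om1), u' ≤ u → F ⊆ F' → Gnr c γ P nm X u' F' →
        {Y | Y ∈ S ∧ ¬ Gnr c γ P nm Y u' F'}.ncard ≤ n := by
      intro u' F' hle hFF hg
      have hsub : {Y | Y ∈ S ∧ ¬ Gnr c γ P nm Y u' F'} ⊂ {Y | Y ∈ S ∧ ¬ Gnr c γ P nm Y u F} := by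
        refine ⟨fun Y hY => ⟨hY.1, fun h => hY.2 (h.mono hle hFF)⟩, fun h => ?_⟩
        exact (h hX).2 hg
      have := Set.ncard_lt_ncard hsub hfin
      omega
    by_cases hother : ∃ Y, (Y ∈ S ∧ ¬ Gnr c γ P nm Y u F) ∧ Y ≠ X
    · obtain ⟨Z, hZ, hZmin⟩ := Set.exists_min_image
        {Y | (Y ∈ S ∧ ¬ Gnr c γ P nm Y u F) ∧ Y ≠ X} (fun X : Set K => dl X)
        (hfin.subset fun _ h => h.1) hother
      have hXZ : cd X ∈ Z := (hrel Z hZ.1.1 hZ.1.2).resolve_left hZ.2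
      have hZn := h1 Z hZ.1.1
      obtain ⟨u', hu', hle, F', hFF, hFZ, hFo, hg⟩ := hZn.2.1.2 X hXn.1.ctbl hXZ hXn.2.1.1 u hu
        hZn.2.2.1 hXn.2.2.1 F (hXn.2.2.2.resolve_left hX.2) hF
      have hchain : ∀ Y ∈ S, ¬ Gnr c γ P nm Y u F → Y ≠ X → Z ⊆ Y := by
        intro Y hY hg' hne
        rcases h2 Z hZ.1.1 Y hY with h | h | h
        · rw [h]
        · exact b_sub hZn.1 (h1 Y hY).1 h
        · exact absurd (hZmin Y ⟨⟨hY, hg'⟩, hne⟩) (not_le.2 (b_dl_lt (h1 Y hY).1 hZn.1 h))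
      obtain ⟨u'', hu'', hle', F'', hFF', hFo', hall⟩ := ih S hS u' F' hu' hFo (by
        intro Y hY
        obtain ⟨a1, a2, a3, a4⟩ := h1 Y hY
        refine ⟨a1, a2, (Pr_le.1 hle).2.1 a3, ?_⟩
        by_cases hg' : Gnr c γ P nm Y u F
        · exact Or.inl (hg'.mono hle hFF)
        · by_cases hne : Y = X
          · rw [hne]; exact Or.inl hg
          · exact Or.inr fun x hx => hchain Y hY hg' hne (hFZ x hx)) h2
        (hcount u' F' hle hFF hg)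
      exact ⟨u'', hu'', hle'.trans hle, F'', hFF.trans hFF', hFo', hall⟩
    · obtain ⟨u', hu', hle, F', hFF, hFo, hg⟩ := hXn.2.1.1 u hu hXn.2.2.1 F
        (hXn.2.2.2.resolve_left hX.2) hF
      refine ⟨u', hu', hle, F', hFF, hFo, fun Y hY => ?_⟩
      by_cases hg' : Gnr c γ P nm Y u F
      · exact hg'.mono hle hFF
      · by_cases hne : Y = X
        · rw [hne]; exact hg
        · exact absurd ⟨Y, ⟨hY, hg'⟩, hne⟩ hother

/-- The step at the coordinate `γ`: `F` can be attached to `γ` if each relevant node either is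
treated or contains `F`. -/
theorem step (hT : TrUnb K) {q : Pr K} {γ : K} {F : Finset Om1} (hq : q ∈ PT c)
    (hγ : γ ∈ q.base.A) (hfF : fib q γ ⊆ F) (hFo : Fo (NM c γ) (cut γ q) F)
    (h : ∀ Q ∈ q.base.Nd, γ ∈ Q → Rel c (PS c γ) (NM c γ) γ (Q ∩ Iio (nx γ)) →
      Gnr c γ (PS c γ) (NM c γ) (Q ∩ Iio (nx γ)) (cut γ q) F ∨ FIn Q F) :
    ∃ q' ∈ PT c, q' ≤ q ∧ F ⊆ fib q' γ ∧ Fo (NM c γ) (cut γ q') (fib q' γ) ∧
      (∀ Q ∈ q'.base.Nd, γ ∈ Q → Rel c (PS c γ) (NM c γ) γ (Q ∩ Iio (nx γ)) →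
        Gnr c γ (PS c γ) (NM c γ) (Q ∩ Iio (nx γ)) (cut γ q') (fib q' γ)) ∧
      (∀ Q ∈ q'.base.Nd, Q ∈ q.base.Nd ∨ Q ⊆ Iio γ) ∧ ∀ a ∈ q'.top, a ∈ q.top ∨ a.1 ≤ γ := by
  classical
  have hTrγ : Tr γ := q.base.tr γ hγ
  obtain ⟨hn1, hn2⟩ := nx_spec hT γ
  let S : Set (Set K) := {X | ∃ Q ∈ q.base.Nd, γ ∈ Q ∧
    Rel c (PS c γ) (NM c γ) γ (Q ∩ Iio (nx γ)) ∧ X = Q ∩ Iio (nx γ)}
  have hSfin : S.Finite := by
    refine (q.base.finN.image fun Q => Q ∩ Iio (nx γ)).subset ?_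
    rintro X ⟨Q, h1, _, _, rfl⟩
    exact ⟨Q, h1, rfl⟩
  obtain ⟨u, hu, hle, F', hFF, hFo', hall⟩ := extAll (γ := γ) _ S hSfin (cut γ q) F
    (cut_mem hq γ) hFo (by
      rintro X ⟨Q, h1, h2, h3, rfl⟩
      refine ⟨b_nodeRestr (q.base.nd Q h1) hn2, h3, ?_, ?_⟩
      · rw [inter_inter_of_le hn1.le]
        exact ⟨q.base.cl Q h1 γ hγ, inter_subset_right⟩
      · rcases h Q h1 h2 h3 with h4 | h4
        · exact Or.inl h4
        · exact Or.inr fun x hx => ⟨h4 x hx, hn2.1 x⟩)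
    (by
      rintro X ⟨Q, h1, h2, _, rfl⟩ Y ⟨R, h3, h4, _, rfl⟩
      exact chainX q.base hn2 hn1 (fun τ hτ hlt => nx_le hT hlt (q.base.tr τ hτ)) h1 h3 h2 h4)
    (le_refl _)
  obtain ⟨r, hr, hrq, hru, hrA, hrN, hrt⟩ := lift hT hq hγ hu hle
  obtain ⟨huB, huT⟩ := mem_PS.1 hu
  let r' : Pr K := ⟨r.base, r.top ∪ F'.image fun x => (γ, x)⟩
  have hmem : ∀ a, a ∈ r'.top ↔ a ∈ r.top ∨ (a.1 = γ ∧ a.2 ∈ F') := by
    intro a
    change a ∈ r.top ∪ F'.image (fun x => (γ, x)) ↔ _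
    rw [Finset.mem_union, Finset.mem_image]
    constructor
    · rintro (h1 | ⟨x, h1, rfl⟩)
      · exact Or.inl h1
      · exact Or.inr ⟨rfl, h1⟩
    · rintro (h1 | ⟨h1, h2⟩)
      · exact Or.inl h1
      · exact Or.inr ⟨a.2, h2, by rw [← h1]⟩
  have hr'r : r' ≤ r := Pr_le.2 ⟨Subset.refl _, Subset.refl _, Finset.subset_union_left⟩
  have hfγ : fib r' γ = F' := by
    ext x
    rw [mem_fib, hmem]
    constructor
    · rintro (h1 | h1)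
      · rcases (hrt _).1 h1 with h2 | h2
        · exact hFF (hfF (mem_fib.2 h2))
        · exact absurd (huB.2.2 _ h2) (lt_irrefl _)
      · exact h1.2
    · intro h1
      exact Or.inr ⟨rfl, h1⟩
  have hcut : cut γ r' ≤ u := by
    refine Pr_le.2 ⟨?_, ?_, ?_⟩
    · intro τ hτ
      exact ⟨(Pr_le.1 hru).1 hτ, huB.1 hτ⟩
    · intro Q hQ
      exact ⟨(Pr_le.1 hru).2.1 hQ, huB.2.1 Q hQ⟩
    · intro a ha
      exact mem_cut_top.2 ⟨(hmem a).2 (Or.inl ((Pr_le.1 hru).2.2 ha)), huB.2.2 a ha⟩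
  have hgen : ∀ Q ∈ r'.base.Nd, γ ∈ Q → Rel c (PS c γ) (NM c γ) γ (Q ∩ Iio (nx γ)) →
      Gnr c γ (PS c γ) (NM c γ) (Q ∩ Iio (nx γ)) (cut γ r') (fib r' γ) := by
    intro Q hQ hγQ hR
    have hQ' : Q ∈ q.base.Nd ∪ u.base.Nd := by rw [← hrN]; exact hQ
    rcases hQ' with h1 | h1
    · rw [hfγ]
      exact (hall _ ⟨Q, h1, hγQ, hR, rfl⟩).mono hcut (Finset.Subset.refl _)
    · exact absurd (huB.2.1 Q h1 hγQ) (lt_irrefl _)
  have hγr : γ ∈ r'.base.A := by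
    change γ ∈ r.base.A
    rw [hrA]
    exact Or.inl hγ
  refine ⟨r', ?_, hr'r.trans hrq, ?_, ?_, hgen, ?_, ?_⟩
  · intro ζ hζ
    by_cases hζγ : ζ = γ
    · subst hζγ
      refine ⟨hγr, ?_, hgen⟩
      rw [hfγ]
      exact hFo'.mono hcut
    · have hf : fib r' ζ = fib r ζ := by
        ext x
        rw [mem_fib, mem_fib, hmem]
        constructor
        · rintro (h1 | h1)
          · exact h1
          · exact absurd h1.1 hζγ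
        · exact Or.inl
      rw [hf] at hζ
      exact (hr ζ hζ).mono hr'r hf fun Q hQ hζQ => ⟨Q, hQ, hζQ, rfl⟩
  · rw [hfγ]; exact hFF
  · rw [hfγ]
    exact hFo'.mono hcut
  · intro Q hQ
    have hQ' : Q ∈ q.base.Nd ∪ u.base.Nd := by rw [← hrN]; exact hQ
    rcases hQ' with h1 | h1
    · exact Or.inl h1
    · exact Or.inr (huB.2.1 Q h1)
  · intro a ha
    rcases (hmem a).1 ha with h1 | h1
    · rcases (hrt a).1 h1 with h2 | h2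
      · exact Or.inl h2
      · exact Or.inr (huB.2.2 a h2).le
    · exact Or.inr h1.1.le

end Pool.Agent.H633.W
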