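import Pool.Agent.H633.W.Amalg

/-!
# Amalgamation over a countable node
-/

set_option autoImplicit false
set_option linter.unusedSectionVars false
set_option linter.unusedVariables false

namespace Pool.Agent.H633.W

open Cardinal Set Pool.Agent.Helper669.Forcing Pool.Agent.H915

variable {K : Type} [LinearOrder K] [WellFoundedLT K] [Cod K] {c : Ctx K}

/-- Coordinates are treated in increasing order. -/
theorem loop (hT : TrUnb K) {q0 : Pr K} (hq0 : q0 ∈ PT c) (D : Finset K) (Φ : K → Finset Om1)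
    (hA : ∀ ζ ∈ D, ζ ∈ q0.base.A) (hf : ∀ ζ ∈ D, fib q0 ζ ⊆ Φ ζ)
    (h : ∀ ζ ∈ D, ∀ q ∈ PT c, q ≤ q0 → (∀ ξ ∈ D, ξ < ζ → Φ ξ ⊆ fib q ξ) →
      Fo (NM c ζ) (cut ζ q) (Φ ζ) ∧ ∀ Q ∈ q0.base.Nd, ζ ∈ Q →
        Rel c (PS c ζ) (NM c ζ) ζ (Q ∩ Iio (nx ζ)) →
          Gnr c ζ (PS c ζ) (NM c ζ) (Q ∩ Iio (nx ζ)) (cut ζ q) (Φ ζ) ∨ FIn Q (Φ ζ)) :
    ∃ q ∈ PT c, q ≤ q0 ∧ ∀ ζ ∈ D, Φ ζ ⊆ fib q ζ := by
  classical
  have key : ∀ s : Finset K, s ⊆ D → (∀ ζ ∈ D, ∀ ξ ∈ s, ζ ≤ ξ → ζ ∈ s) →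
      ∃ q ∈ PT c, q ≤ q0 ∧ (∀ ζ ∈ s, Φ ζ ⊆ fib q ζ) ∧
        (∀ Q ∈ q.base.Nd, Q ∈ q0.base.Nd ∨ ∃ ζ ∈ s, Q ⊆ Iio ζ) ∧
          ∀ a ∈ q.top, a ∈ q0.top ∨ ∃ ζ ∈ s, a.1 ≤ ζ := by
    intro s
    induction s using Finset.induction_on_max with
    | empty =>
      intro _ _
      exact ⟨q0, hq0, le_refl _, by simp, fun Q hQ => Or.inl hQ, fun a ha => Or.inl ha⟩
    | insert γ s hmax ih =>
      intro hsD hini
      obtain ⟨q, hq, hle, h1, h2, h3⟩ := ih (fun x hx => hsD (Finset.mem_insert_of_mem hx)) (by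
        intro ζ hζ ξ hξ hle
        rcases Finset.mem_insert.1 (hini ζ hζ ξ (Finset.mem_insert_of_mem hξ) hle) with h4 | h4
        · rw [h4] at hle
          exact absurd hle (not_le.2 (hmax ξ hξ))
        · exact h4)
      have hγD : γ ∈ D := hsD (Finset.mem_insert_self _ _)
      have hlow : ∀ ξ ∈ D, ξ < γ → Φ ξ ⊆ fib q ξ := by
        intro ξ hξ hlt
        rcases Finset.mem_insert.1 (hini ξ hξ γ (Finset.mem_insert_self _ _) hlt.le) with h4 | h4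
        · exact absurd hlt (by rw [h4]; exact lt_irrefl _)
        · exact h1 ξ h4
      obtain ⟨h5, h6⟩ := h γ hγD q hq hle hlow
      obtain ⟨q', hq', hle', g1, _, _, g2, g3⟩ := step hT hq ((Pr_le.1 hle).1 (hA γ hγD)) (by
        intro x hx
        rcases h3 _ (mem_fib.1 hx) with h7 | ⟨ζ, hζ, h7⟩
        · exact hf γ hγD (mem_fib.2 h7)
        · exact absurd h7 (not_le.2 (hmax ζ hζ))) h5 (by
        intro Q hQ hγQ hR
        rcases h2 Q hQ with h7 | ⟨ζ, hζ, h7⟩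
        · exact h6 Q h7 hγQ hR
        · exact absurd (h7 hγQ) (not_lt.2 (hmax ζ hζ).le))
      refine ⟨q', hq', hle'.trans hle, ?_, ?_, ?_⟩
      · intro ζ hζ
        rcases Finset.mem_insert.1 hζ with h7 | h7
        · rw [h7]; exact g1
        · exact (h1 ζ h7).trans (fib_mono hle' ζ)
      · intro Q hQ
        rcases g2 Q hQ with h7 | h7
        · rcases h2 Q h7 with h8 | ⟨ζ, hζ, h8⟩
          · exact Or.inl h8
          · exact Or.inr ⟨ζ, Finset.mem_insert_of_mem hζ, h8⟩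
        · exact Or.inr ⟨γ, Finset.mem_insert_self _ _, h7⟩
      · intro a ha
        rcases g3 a ha with h7 | h7
        · rcases h3 a h7 with h8 | ⟨ζ, hζ, h8⟩
          · exact Or.inl h8
          · exact Or.inr ⟨ζ, Finset.mem_insert_of_mem hζ, h8⟩
        · exact Or.inr ⟨γ, Finset.mem_insert_self _ _, h7⟩
  obtain ⟨q, hq, hle, h1, _, _⟩ := key D (Finset.Subset.refl _) fun ζ hζ _ _ _ => hζ
  exact ⟨q, hq, hle, h1⟩

theorem fib_empty {p : Pr K} {ζ : K} (h : ¬ (fib p ζ).Nonempty) : fib p ζ = ∅ :=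
  Finset.not_nonempty_iff_eq_empty.1 h

open Classical in
/-- the coordinates of a condition -/
noncomputable def dom (p : Pr K) : Finset K := p.top.image Prod.fst

theorem mem_dom {p : Pr K} {ζ : K} : ζ ∈ dom p ↔ (fib p ζ).Nonempty := by
  classical
  unfold dom
  rw [Finset.mem_image]
  constructor
  · rintro ⟨a, h1, h2⟩
    exact ⟨a.2, mem_fib.2 (by rw [← h2]; exact h1)⟩
  · rintro ⟨x, hx⟩
    exact ⟨(ζ, x), mem_fib.1 hx, rfl⟩

theorem mem_dom_of {p : Pr K} {a : K × Om1} (h : a ∈ p.top) : a.1 ∈ dom p :=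
  mem_dom.2 ⟨a.2, mem_fib.2 h⟩

/-- Amalgamation of a condition `p` which contains the node `N` with a condition `e` in `N`. -/
theorem amalgN (hT : TrUnb K) {p e : Pr K} (hp : p ∈ PT c) (he : e ∈ PT c) {N : Set K}
    (hN : N ∈ p.base.Nd) (hin : InX N e) (h1 : p.base.A ∩ N ⊆ e.base.A)
    (h2 : ∀ Q ∈ p.base.Nd, cd Q ∈ N → Q ∈ e.base.Nd) (o : Option (K × Pr K × Finset Om1))
    (h3 : (o = none ∧ ∀ ζ ∈ N, fib p ζ = ∅) ∨ ∃ ζ0 ∈ N, ∃ u G, o = some (ζ0, u, G) ∧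
      (fib p ζ0).Nonempty ∧ (fib e ζ0).Nonempty ∧
      (∀ ζ ∈ N, ζ0 < ζ → fib p ζ = ∅) ∧ u ∈ PS c ζ0 ∧ u ≤ cut ζ0 p ∧ u ≤ cut ζ0 e ∧
        fib p ζ0 ⊆ G ∧ fib e ζ0 ⊆ G ∧ Fo (NM c ζ0) u G) :
    ∃ q ∈ PT c, q ≤ p ∧ q ≤ e ∧ ∀ ζ0 u G, o = some (ζ0, u, G) → q ≤ u ∧ G ⊆ fib q ζ0 := by
  classical
  have hNN : Node N := p.base.nd N hN
  obtain ⟨r, hrA, hrN⟩ := b_amalgS p.base e.base N hN ⟨hin.1, hin.2.1⟩ h1 h2
  have hrp : r ≤ p.base := by
    refine ⟨?_, ?_⟩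
    · rw [hrA]; exact subset_union_left
    · rw [hrN]; exact subset_union_left.trans subset_union_left
  have hre : r ≤ e.base := by
    refine ⟨?_, ?_⟩
    · rw [hrA]; exact subset_union_right
    · rw [hrN]; exact subset_union_right.trans subset_union_left
  -- nodes of `r`
  have hnode : ∀ ζ, (fib p ζ).Nonempty ∨ (fib e ζ).Nonempty →
      (ζ ∈ N → (fib p ζ).Nonempty → (fib e ζ).Nonempty) →
      ∀ q : Pr K, cut ζ q ≤ cut ζ p → cut ζ q ≤ cut ζ e → ∀ Q ∈ r.Nd, ζ ∈ Q →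
        Rel c (PS c ζ) (NM c ζ) ζ (Q ∩ Iio (nx ζ)) →
          Gnr c ζ (PS c ζ) (NM c ζ) (Q ∩ Iio (nx ζ)) (cut ζ q) (fib p ζ ∪ fib e ζ) ∨
            (FIn Q (fib p ζ ∪ fib e ζ) ∧ ¬ ((fib p ζ).Nonempty ∧ (fib e ζ).Nonempty)) := by
    intro ζ hne hNe q hqp hqe
    obtain ⟨hn1, hn2⟩ := nx_spec hT ζ
    have kp : ∀ Q ∈ p.base.Nd, ζ ∈ Q → Rel c (PS c ζ) (NM c ζ) ζ (Q ∩ Iio (nx ζ)) →
          Gnr c ζ (PS c ζ) (NM c ζ) (Q ∩ Iio (nx ζ)) (cut ζ q) (fib p ζ ∪ fib e ζ) ∨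
            (FIn Q (fib p ζ ∪ fib e ζ) ∧ ¬ ((fib p ζ).Nonempty ∧ (fib e ζ).Nonempty)) := by
      intro Q hQ hζQ hR
      by_cases hpe : (fib p ζ).Nonempty
      · exact Or.inl (((hp ζ hpe).2.2 Q hQ hζQ hR).mono hqp Finset.subset_union_left)
      · have hee := hne.resolve_left hpe
        have hζN : ζ ∈ N := by
          obtain ⟨x, hx⟩ := hee
          exact (hin.2.2 _ (mem_fib.1 hx)).1
        rw [fib_empty hpe, Finset.empty_union]
        rcases dichot p.base hn2 hn1 (fun τ hτ hlt => nx_le hT hlt (p.base.tr τ hτ)) hQ hN hζQ hζN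
          with h4 | ⟨Q', h4, h5, h6, h7⟩
        · right
          refine ⟨fun x hx => (h4 ⟨(hin.2.2 _ (mem_fib.1 hx)).2, hn2.1 x⟩).1, fun h => ?_⟩
          exact absurd h.1 Finset.not_nonempty_empty
        · left
          rw [← h7] at hR ⊢
          exact ((he ζ hee).2.2 Q' (h2 Q' h4 h5) h6 hR).mono hqe (Finset.Subset.refl _)
    intro Q hQ hζQ hR
    rw [hrN] at hQ
    rcases hQ with (hQ | hQ) | ⟨Q', hQ', τ, hτ, rfl⟩
    · exact kp Q hQ hζQ hR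
    · by_cases hee : (fib e ζ).Nonempty
      · exact Or.inl (((he ζ hee).2.2 Q hQ hζQ hR).mono hqe Finset.subset_union_right)
      · have hpe := hne.resolve_right hee
        have hζN : ζ ∈ N := hNN.sub Q (e.base.nd Q hQ).ctbl (hin.2.1 Q hQ) hζQ
        exact absurd (hNe hζN hpe) hee
    · have hTτ : Tr τ := e.base.tr τ hτ
      rw [inter_nx hT hζQ.2 hTτ] at hR ⊢
      rcases kp Q' hQ' hζQ.1 hR with h4 | h4
      · exact Or.inl h4
      · exact Or.inr ⟨fun x hx => ⟨h4.1 x hx, hTτ.1 x⟩, h4.2⟩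
  -- the loop, from a suitable start
  have main : ∀ (q0 : Pr K) (D : Finset K) (Φ : K → Finset Om1), q0 ∈ PT c → q0.base ≤ r →
      D ⊆ dom p ∪ dom e →
      (∀ Q ∈ q0.base.Nd, Q ∈ r.Nd ∨ ∀ ζ ∈ D, Q ⊆ Iio ζ) → (∀ a ∈ q0.top, ∀ ζ ∈ D, a.1 < ζ) →
      (∀ a, a ∈ p.top ∨ a ∈ e.top → a.1 ∉ D → a ∈ q0.top) →
      (∀ ζ ∈ D, fib p ζ ∪ fib e ζ ⊆ Φ ζ) →
      (∀ ζ ∈ D, ¬ ((fib p ζ).Nonempty ∧ (fib e ζ).Nonempty) → Φ ζ = fib p ζ ∪ fib e ζ) →
      (∀ ζ ∈ D, (fib p ζ).Nonempty → (fib e ζ).Nonempty → ∀ v ∈ PT c, v ≤ q0 →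
        Fo (NM c ζ) (cut ζ v) (Φ ζ)) →
      (∀ ζ ∈ D, ζ ∈ N → (fib p ζ).Nonempty → (fib e ζ).Nonempty) →
      ∃ q ∈ PT c, q ≤ p ∧ q ≤ e ∧ q ≤ q0 ∧ ∀ ζ ∈ D, Φ ζ ⊆ fib q ζ := by
    intro q0 D Φ hq0 hb hD hNd htop hrest hΦ1 hΦ2 hboth hNe
    have hpart : ∀ q : Pr K, q ≤ q0 → ∀ ζ, (∀ ξ ∈ D, ξ < ζ → Φ ξ ⊆ fib q ξ) →
        cut ζ q ≤ cut ζ p ∧ cut ζ q ≤ cut ζ e := by
      intro q hle ζ hlow
      have ht : ∀ a, a ∈ p.top ∨ a ∈ e.top → a.1 < ζ → a ∈ q.top := by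
        intro a ha hlt
        by_cases haD : a.1 ∈ D
        · refine mem_fib.1 (hlow a.1 haD hlt (hΦ1 a.1 haD (Finset.mem_union.2 ?_)))
          rcases ha with ha | ha
          · exact Or.inl (mem_fib.2 ha)
          · exact Or.inr (mem_fib.2 ha)
        · exact (Pr_le.1 hle).2.2 (hrest a ha haD)
      have hbase := hle.1.trans hb
      constructor
      · refine Pr_le.2 ⟨fun τ hτ => ⟨(hbase.trans hrp).1 hτ.1, hτ.2⟩,
          fun Q hQ => ⟨(hbase.trans hrp).2 hQ.1, hQ.2⟩, fun a ha => ?_⟩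
        obtain ⟨g1, g2⟩ := mem_cut_top.1 ha
        exact mem_cut_top.2 ⟨ht a (Or.inl g1) g2, g2⟩
      · refine Pr_le.2 ⟨fun τ hτ => ⟨(hbase.trans hre).1 hτ.1, hτ.2⟩,
          fun Q hQ => ⟨(hbase.trans hre).2 hQ.1, hQ.2⟩, fun a ha => ?_⟩
        obtain ⟨g1, g2⟩ := mem_cut_top.1 ha
        exact mem_cut_top.2 ⟨ht a (Or.inr g1) g2, g2⟩
    have hDne : ∀ ζ ∈ D, (fib p ζ).Nonempty ∨ (fib e ζ).Nonempty := by
      intro ζ hζ
      rcases Finset.mem_union.1 (hD hζ) with h4 | h4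
      · exact Or.inl (mem_dom.1 h4)
      · exact Or.inr (mem_dom.1 h4)
    obtain ⟨q, hq, hle, hall⟩ := loop hT hq0 D Φ (by
        intro ζ hζ
        apply hb.1
        rw [hrA]
        rcases hDne ζ hζ with h4 | h4
        · exact Or.inl (hp ζ h4).1
        · exact Or.inr (he ζ h4).1) (by
        intro ζ hζ x hx
        exact absurd (htop _ (mem_fib.1 hx) ζ hζ) (lt_irrefl _)) (by
        intro ζ hζ q hq hle hlow
        obtain ⟨hqp, hqe⟩ := hpart q hle ζ hlow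
        constructor
        · by_cases g1 : (fib p ζ).Nonempty
          · by_cases g2 : (fib e ζ).Nonempty
            · exact hboth ζ hζ g1 g2 q hq hle
            · rw [hΦ2 ζ hζ (fun h => g2 h.2), fib_empty g2, Finset.union_empty]
              exact (hp ζ g1).2.1.mono hqp
          · rw [hΦ2 ζ hζ (fun h => g1 h.1), fib_empty g1, Finset.empty_union]
            exact (he ζ ((hDne ζ hζ).resolve_left g1)).2.1.mono hqe
        · intro Q hQ hζQ hR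
          rcases hNd Q hQ with h4 | h4
          · rcases hnode ζ (hDne ζ hζ) (hNe ζ hζ) q hqp hqe Q h4 hζQ hR with h5 | h5
            · exact Or.inl (h5.mono (le_refl _) (hΦ1 ζ hζ))
            · rw [hΦ2 ζ hζ h5.2]
              exact Or.inr h5.1
          · exact absurd (h4 ζ hζ hζQ) (lt_irrefl _))
    have ht : ∀ a, a ∈ p.top ∨ a ∈ e.top → a ∈ q.top := by
      intro a ha
      by_cases haD : a.1 ∈ D
      · refine mem_fib.1 (hall a.1 haD (hΦ1 a.1 haD (Finset.mem_union.2 ?_)))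
        rcases ha with ha | ha
        · exact Or.inl (mem_fib.2 ha)
        · exact Or.inr (mem_fib.2 ha)
      · exact (Pr_le.1 hle).2.2 (hrest a ha haD)
    exact ⟨q, hq, ⟨(hle.1.trans hb).trans hrp, fun a ha => ht a (Or.inl ha)⟩,
      ⟨(hle.1.trans hb).trans hre, fun a ha => ht a (Or.inr ha)⟩, hle, hall⟩
  have hr0 : (⟨r, ∅⟩ : Pr K) ∈ PT c := by
    intro ζ hζ
    obtain ⟨x, hx⟩ := hζ
    have := mem_fib.1 hx
    exact absurd this (Finset.notMem_empty _)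
  rcases h3 with ⟨ho, h3⟩ | ⟨ζ0, hζN, u, G, ho, hne1, hne2, hmax, hu, hup, hue, hG1, hG2, huF⟩
  · obtain ⟨q, g1, g2, g3, _⟩ := main ⟨r, ∅⟩ (dom p ∪ dom e) (fun ζ => fib p ζ ∪ fib e ζ) hr0
      (le_refl _) (Finset.Subset.refl _)
      (fun Q hQ => Or.inl hQ) (fun a ha => absurd ha (Finset.notMem_empty _)) (by
        intro a ha hna
        exfalso
        apply hna
        rcases ha with ha | ha
        · exact Finset.mem_union_left _ (mem_dom_of ha)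
        · exact Finset.mem_union_right _ (mem_dom_of ha)) (fun ζ _ => Finset.Subset.refl _)
      (fun ζ _ _ => rfl) (by
        intro ζ _ g1 g2
        have : ζ ∈ N := by
          obtain ⟨x, hx⟩ := g2
          exact (hin.2.2 _ (mem_fib.1 hx)).1
        rw [h3 ζ this] at g1
        exact absurd g1 Finset.not_nonempty_empty) (by
        intro ζ _ hζ g1
        rw [h3 ζ hζ] at g1
        exact absurd g1 Finset.not_nonempty_empty)
    refine ⟨q, g1, g2, g3, fun ζ0 u G h => ?_⟩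
    rw [ho] at h
    exact absurd h (by simp)
  · obtain ⟨huB, huT⟩ := mem_PS.1 hu
    have hζA : ζ0 ∈ r.A := by rw [hrA]; exact Or.inl (hp ζ0 hne1).1
    have hTζ : Tr ζ0 := r.tr ζ0 hζA
    have hucut : u ≤ cut ζ0 (⟨r, ∅⟩ : Pr K) := by
      refine Pr_le.2 ⟨?_, ?_, ?_⟩
      · rintro τ ⟨hτ, hlt⟩
        have hτ' : τ ∈ p.base.A ∪ e.base.A := by rw [← hrA]; exact hτ
        rcases hτ' with h4 | h4
        · exact (Pr_le.1 hup).1 ⟨h4, hlt⟩
        · exact (Pr_le.1 hue).1 ⟨h4, hlt⟩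
      · rintro Q ⟨hQ, hQs⟩
        have hQ' : Q ∈ p.base.Nd ∪ e.base.Nd ∪
            {X | ∃ Q ∈ p.base.Nd, ∃ τ ∈ e.base.A, X = Q ∩ Iio τ} := by rw [← hrN]; exact hQ
        rcases hQ' with (h4 | h4) | ⟨Q', h4, τ, h5, rfl⟩
        · exact (Pr_le.1 hup).2.1 ⟨h4, hQs⟩
        · exact (Pr_le.1 hue).2.1 ⟨h4, hQs⟩
        · have h6 : Q' ∩ Iio ζ0 ∈ u.base.Nd :=
            (Pr_le.1 hup).2.1 ⟨p.base.cl Q' h4 ζ0 (hp ζ0 hne1).1, inter_subset_right⟩
          rcases lt_or_ge τ ζ0 with h7 | h7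
          · have h8 : τ ∈ u.base.A := (Pr_le.1 hue).1 ⟨h5, h7⟩
            have h9 := u.base.cl _ h6 τ h8
            rwa [inter_inter_of_le h7.le] at h9
          · have h8 : Q' ∩ Iio τ = Q' ∩ Iio ζ0 := by
              apply Subset.antisymm
              · exact fun x hx => ⟨hx.1, hQs hx⟩
              · exact fun x hx => ⟨hx.1, lt_of_lt_of_le hx.2 h7⟩
            rw [h8]; exact h6
      · intro a ha
        exact absurd (mem_cut_top.1 ha).1 (Finset.notMem_empty _)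
    obtain ⟨q0, hq0, g1, g2, g3, g4, g5⟩ := lift hT hr0 hζA hu hucut
    let D : Finset K := (dom p ∪ dom e).filter fun ζ => ζ0 ≤ ζ
    let Φ : K → Finset Om1 := fun ζ => if ζ = ζ0 then G else fib p ζ ∪ fib e ζ
    have hζ0D : ζ0 ∈ D := Finset.mem_filter.2 ⟨Finset.mem_union_left _ (mem_dom.2 hne1), le_refl _⟩
    have hΦ0 : Φ ζ0 = G := if_pos rfl
    have hΦn : ∀ ζ, ζ ≠ ζ0 → Φ ζ = fib p ζ ∪ fib e ζ := fun ζ h => if_neg h
    have hbothD : ∀ ζ ∈ D, ζ ∈ N → (fib p ζ).Nonempty → ζ = ζ0 := by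
      intro ζ hζ hζ1 k1
      rcases lt_or_eq_of_le (Finset.mem_filter.1 hζ).2 with h4 | h4
      · rw [hmax ζ hζ1 h4] at k1
        exact absurd k1 Finset.not_nonempty_empty
      · exact h4.symm
    obtain ⟨q, k1, k2, k3, k4, k5⟩ := main q0 D Φ hq0 g1.1 (Finset.filter_subset _ _) (by
        intro Q hQ
        rw [g4] at hQ
        rcases hQ with h4 | h4
        · exact Or.inl h4
        · exact Or.inr fun ζ hζ => (huB.2.1 Q h4).trans
            (Iio_subset_Iio (Finset.mem_filter.1 hζ).2)) (by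
        intro a ha ζ hζ
        rcases (g5 a).1 ha with h4 | h4
        · exact absurd h4 (Finset.notMem_empty _)
        · exact lt_of_lt_of_le (huB.2.2 a h4) (Finset.mem_filter.1 hζ).2) (by
        intro a ha hna
        have hlt : a.1 < ζ0 := by
          by_contra hc
          apply hna
          refine Finset.mem_filter.2 ⟨?_, not_lt.1 hc⟩
          rcases ha with ha | ha
          · exact Finset.mem_union_left _ (mem_dom_of ha)
          · exact Finset.mem_union_right _ (mem_dom_of ha)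
        refine (g5 a).2 (Or.inr ?_)
        rcases ha with ha | ha
        · exact (Pr_le.1 hup).2.2 (mem_cut_top.2 ⟨ha, hlt⟩)
        · exact (Pr_le.1 hue).2.2 (mem_cut_top.2 ⟨ha, hlt⟩)) (by
        intro ζ hζ
        by_cases h4 : ζ = ζ0
        · rw [h4, hΦ0]
          exact Finset.union_subset hG1 hG2
        · rw [hΦn ζ h4]) (by
        intro ζ hζ h4
        refine hΦn ζ fun h5 => h4 ?_
        rw [h5]
        exact ⟨hne1, hne2⟩) (by
        intro ζ hζ k1 k2 v hv hvle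
        have hζ1 : ζ ∈ N := by
          obtain ⟨x, hx⟩ := k2
          exact (hin.2.2 _ (mem_fib.1 hx)).1
        rw [hbothD ζ hζ hζ1 k1, hΦ0]
        exact huF.mono (cut_le_of_below huB (hvle.trans g2))) (by
        intro ζ hζ hζ1 k1
        rw [hbothD ζ hζ hζ1 k1]; exact hne2)
    refine ⟨q, k1, k2, k3, fun ζ1 u1 G1 h => ?_⟩
    rw [ho] at h
    simp only [Option.some.injEq, Prod.mk.injEq] at h
    obtain ⟨rfl, rfl, rfl⟩ := h
    refine ⟨k4.trans g2, ?_⟩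
    have := k5 ζ0 hζ0D
    rwa [hΦ0] at this

end Pool.Agent.H633.W
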