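import Pool.Graph.R_pool_sql_team_seeded_620a6dc7.H915.P0a
import Pool.Graph.R_pool_sql_team_seeded_620a6dc7.H915.P0b
import Pool.Graph.R_pool_sql_team_seeded_620a6dc7.H915.P0c
import Pool.Graph.R_pool_sql_team_seeded_620a6dc7.H915.CC
import Pool.Graph.R_pool_sql_team_seeded_620a6dc7.H915.CC2

/-!
# An iteration with two types of side conditions and finite working parts: definitions

The base conditions are the finite systems of transitive and small nodes of `Pool.Agent.H915`.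
-/

set_option autoImplicit false
set_option linter.unusedSectionVars false
set_option linter.unusedVariables false

namespace Pool.Agent.H633.W

open Cardinal Set Pool.Agent.Helper669.Forcing Pool.Agent.H915

section Defs

/-- conditions before validity is imposed: a base condition, and a finite set of pairs
(coordinate, countable ordinal) -/
@[ext] structure Pr (K : Type) [LinearOrder K] [Cod K] where
  base : C0 K
  top : Finset (K × Om1)

variable {K : Type} [LinearOrder K] [Cod K]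

instance : Preorder (Pr K) where
  le p q := p.base ≤ q.base ∧ q.top ⊆ p.top
  le_refl p := ⟨le_refl _, Finset.Subset.refl _⟩
  le_trans _ _ _ h h' := ⟨h.1.trans h'.1, Finset.Subset.trans h'.2 h.2⟩

theorem Pr.le_def {p q : Pr K} : p ≤ q ↔ p.base ≤ q.base ∧ q.top ⊆ p.top := Iff.rfl

open Classical in
/-- the finite set attached by `p` to the coordinate `ζ` -/
noncomputable def fib (p : Pr K) (ζ : K) : Finset Om1 :=
  (p.top.filter fun a => a.1 = ζ).image Prod.snd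

theorem mem_fib {p : Pr K} {ζ : K} {x : Om1} : x ∈ fib p ζ ↔ (ζ, x) ∈ p.top := by
  classical
  unfold fib
  simp only [Finset.mem_image, Finset.mem_filter, Prod.exists, exists_eq_right]

open Classical in
/-- the part of `p` below `ζ` -/
noncomputable def cut (ζ : K) (p : Pr K) : Pr K :=
  ⟨p.base.below ζ, p.top.filter fun a => a.1 < ζ⟩

/-- everything in `p` is below `ζ` -/
def Below (ζ : K) (p : Pr K) : Prop :=
  p.base.A ⊆ Iio ζ ∧ (∀ Q ∈ p.base.Nd, Q ⊆ Iio ζ) ∧ ∀ a ∈ p.top, a.1 < ζ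

/-- `F` is in the family named by `nm`, as witnessed by a condition weaker than `p` -/
def Fo (nm : Finset Om1 → Set (Pr K)) (p : Pr K) (F : Finset Om1) : Prop := ∃ s ∈ nm F, p ≤ s

/-- all entries of `a` are outside `X` -/
def Out (X : Set K) (a : List Om1) : Prop := ∀ x ∈ a, (om x : K) ∉ X

/-- all entries of `a` are in `X` -/
def Ins (X : Set K) (a : List Om1) : Prop := ∀ x ∈ a, (om x : K) ∈ X

/-- the objects of which `p` is made are in `X` -/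
def InX (X : Set K) (p : Pr K) : Prop :=
  p.base.A ⊆ X ∧ (∀ Q ∈ p.base.Nd, cd Q ∈ X) ∧ ∀ a ∈ p.top, a.1 ∈ X ∧ (om a.2 : K) ∈ X

/-- the elements of `F` are in `X` -/
def FIn (X : Set K) (F : Finset Om1) : Prop := ∀ x ∈ F, (om x : K) ∈ X

/-- The data of the construction: an enumeration of families of pairs, a bookkeeping function and
the first coordinate. -/
structure Ctx (K : Type) [LinearOrder K] [Cod K] where
  en : K → List Om1 → Set (Pr K × Finset Om1)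
  bk : K → Finset Om1 → Set (Pr K)
  z0 : K

theorem exists_qc : Nonempty (Om1 ≃ Om1 × ℚ × ℚ) := by
  rw [← Cardinal.eq]
  have h : #Om1 = ℵ₁ := Cardinal.mk_ord_toType _
  have h2 : #ℚ = ℵ₀ := Cardinal.mk_eq_aleph0 _
  simp only [Cardinal.mk_prod, Cardinal.lift_id, h, h2, Cardinal.aleph0_mul_aleph0]
  exact (Cardinal.mul_aleph0_eq (Cardinal.aleph0_le_aleph 1)).symm

/-- a code of an element of `ω₁` and a rational interval -/
noncomputable def qc : Om1 ≃ Om1 × ℚ × ℚ := Classical.choice exists_qc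

/-- By the finite set `G` of coded intervals, the real number with index `x` is below `q`. -/
def Ub (G : Finset Om1) (x : Om1) (q : ℚ) : Prop := ∃ s ∈ G, (qc s).1 = x ∧ (qc s).2.2 ≤ q

/-- By `G`, the real number with index `x` is above `q`. -/
def Lb (G : Finset Om1) (x : Om1) (q : ℚ) : Prop := ∃ s ∈ G, (qc s).1 = x ∧ q ≤ (qc s).2.1

/-- By `G`, the real number with index `x` is below the one with index `y`. -/
def Dl (G : Finset Om1) (x y : Om1) : Prop := ∃ q, Ub G x q ∧ Lb G y q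

/-- the rationals `f x` are in the intervals of `G` -/
def Wit (G : Finset Om1) (f : Om1 → ℚ) : Prop :=
  ∀ s ∈ G, (qc s).2.1 < f (qc s).1 ∧ f (qc s).1 < (qc s).2.2

/-- The family of the finite consistent sets of coded intervals (adding `ω₁` Cohen reals). -/
def coh (F : Finset Om1) : Set (Pr K) := {_s | ∃ f, Wit F f}

open Classical in
/-- the information about the reals at the coordinate `γ` -/
noncomputable def info (c : Ctx K) (γ : K) (u : Pr K) (G : Finset Om1) : Finset Om1 :=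
  if γ = c.z0 then G else fib u c.z0

/-- `(p, F)` is generic over `X` in the two-step iteration of `P` and the family named by `nm`, and
the order of the reals is reflected. -/
def Gnr (c : Ctx K) (γ : K) (P : Set (Pr K)) (nm : Finset Om1 → Set (Pr K)) (X : Set K) (p : Pr K)
    (F : Finset Om1) : Prop :=
  ∀ k ∈ X, ∀ p' ∈ P, p' ≤ p → ∀ F', F ⊆ F' → Fo nm p' F' → ∀ a : List Om1, Out X a →
    ∀ e0 ∈ c.en k a, p' ≤ e0.1 → e0.2 ⊆ F' →
      ∃ b, Ins X b ∧ ∃ e ∈ c.en k b, InX X e.1 ∧ FIn X e.2 ∧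
        ∃ u ∈ P, u ≤ p' ∧ u ≤ e.1 ∧ ∃ G, F' ⊆ G ∧ e.2 ⊆ G ∧ Fo nm u G ∧
          List.Forall₂ (Dl (info c γ u G)) b a

/-- generic extensions over `X` exist -/
def Gext (c : Ctx K) (P : Set (Pr K)) (nm : Finset Om1 → Set (Pr K)) (γ : K) (X : Set K) : Prop :=
  ∀ p ∈ P, X ∩ Iio γ ∈ p.base.Nd → ∀ F, FIn X F → Fo nm p F →
    ∃ p' ∈ P, p' ≤ p ∧ ∃ F', F ⊆ F' ∧ Fo nm p' F' ∧ Gnr c γ P nm X p' F'

/-- generic extensions over elements of `X` exist inside `X` -/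
def Gtwo (c : Ctx K) (P : Set (Pr K)) (nm : Finset Om1 → Set (Pr K)) (γ : K) (X : Set K) : Prop :=
  ∀ Y : Set K, Y.Countable → cd Y ∈ X → Gext c P nm γ Y → ∀ p ∈ P, X ∩ Iio γ ∈ p.base.Nd →
    Y ∩ Iio γ ∈ p.base.Nd → ∀ F, FIn Y F → Fo nm p F →
      ∃ p' ∈ P, p' ≤ p ∧ ∃ F', F ⊆ F' ∧ FIn X F' ∧ Fo nm p' F' ∧ Gnr c γ P nm Y p' F'

/-- relevant nodes -/
def Rel (c : Ctx K) (P : Set (Pr K)) (nm : Finset Om1 → Set (Pr K)) (γ : K) (X : Set K) : Prop :=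
  Gext c P nm γ X ∧ Gtwo c P nm γ X

variable [WellFoundedLT K]

open Classical in
/-- the next transitive node -/
noncomputable def nx (γ : K) : K :=
  if h : ∃ τ, γ < τ ∧ Tr τ then (wellFounded_lt (α := K)).min {τ | γ < τ ∧ Tr τ} h else γ

/-- the name `nm` can be used at the coordinate `γ` -/
def Cand (c : Ctx K) (P : Set (Pr K)) (nm : Finset Om1 → Set (Pr K)) (γ : K) : Prop :=
  CClub fun N : Set K => γ ∈ N → Rel c P nm γ (N ∩ Iio (nx γ))

/-- validity at a coordinate -/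
def OKat (c : Ctx K) (P : Set (Pr K)) (nm : Finset Om1 → Set (Pr K)) (ζ : K) (p : Pr K) : Prop :=
  ζ ∈ p.base.A ∧ Fo nm (cut ζ p) (fib p ζ) ∧ ∀ Q ∈ p.base.Nd, ζ ∈ Q →
    Rel c P nm ζ (Q ∩ Iio (nx ζ)) → Gnr c ζ P nm (Q ∩ Iio (nx ζ)) (cut ζ p) (fib p ζ)

/-- the poset below `γ`, in terms of the earlier data -/
def stepP (c : Ctx K) (γ : K)
    (V : (ζ : K) → ζ < γ → Set (Pr K) × (Finset Om1 → Set (Pr K))) : Set (Pr K) :=
  {p | Below γ p ∧ ∀ ζ, ∀ h : ζ < γ, (fib p ζ).Nonempty → OKat c (V ζ h).1 (V ζ h).2 ζ p}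

open Classical in
/-- the name at `γ` -/
noncomputable def stepN (c : Ctx K) (γ : K) (P : Set (Pr K)) : Finset Om1 → Set (Pr K) :=
  if Cand c P (c.bk γ) γ then c.bk γ else fun _ => ∅

/-- the recursion -/
noncomputable def VV (c : Ctx K) : K → Set (Pr K) × (Finset Om1 → Set (Pr K)) :=
  (wellFounded_lt (α := K)).fix fun γ V => (stepP c γ V, stepN c γ (stepP c γ V))

/-- the poset below `γ` -/
noncomputable def PS (c : Ctx K) (γ : K) : Set (Pr K) := (VV c γ).1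

/-- the name at the coordinate `γ` -/
noncomputable def NM (c : Ctx K) (γ : K) : Finset Om1 → Set (Pr K) := (VV c γ).2

/-- the set of the conditions of the iteration -/
def PT (c : Ctx K) : Set (Pr K) :=
  {p | ∀ ζ, (fib p ζ).Nonempty → OKat c (PS c ζ) (NM c ζ) ζ p}

theorem VV_eq (c : Ctx K) (γ : K) : VV c γ = (stepP c γ fun ζ _ => VV c ζ,
    stepN c γ (stepP c γ fun ζ _ => VV c ζ)) := by
  unfold VV
  rw [WellFounded.fix_eq]

theorem mem_PS {c : Ctx K} {γ : K} {p : Pr K} : p ∈ PS c γ ↔ Below γ p ∧ p ∈ PT c := by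
  unfold PS
  rw [VV_eq]
  constructor
  · rintro ⟨h1, h2⟩
    refine ⟨h1, fun ζ hζ => h2 ζ ?_ hζ⟩
    obtain ⟨x, hx⟩ := hζ
    exact h1.2.2 _ (mem_fib.1 hx)
  · rintro ⟨h1, h2⟩
    exact ⟨h1, fun ζ _ hζ => h2 ζ hζ⟩

open Classical in
theorem NM_eq (c : Ctx K) (γ : K) :
    NM c γ = if Cand c (PS c γ) (c.bk γ) γ then c.bk γ else fun _ => ∅ := by
  have h : PS c γ = stepP c γ fun ζ _ => VV c ζ := by
    unfold PS; rw [VV_eq]
  rw [h]
  unfold NM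
  rw [VV_eq]
  rfl

theorem PS_sub {c : Ctx K} {γ : K} {p : Pr K} (h : p ∈ PS c γ) : p ∈ PT c := (mem_PS.1 h).2

end Defs

section Basics

variable {K : Type} [LinearOrder K] [Cod K]

theorem C0_ext {p q : C0 K} (h1 : p.A = q.A) (h2 : p.Nd = q.Nd) : p = q := by
  cases p; cases q
  simp only at h1 h2
  subst h1 h2
  rfl

theorem Pr_ext {p q : Pr K} (h1 : p.base.A = q.base.A) (h2 : p.base.Nd = q.base.Nd)
    (h3 : p.top = q.top) : p = q := by
  cases p; cases q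
  have := C0_ext h1 h2
  simp only at this h3
  subst this h3
  rfl

theorem Pr_le {p q : Pr K} : p ≤ q ↔ q.base.A ⊆ p.base.A ∧ q.base.Nd ⊆ p.base.Nd ∧
    q.top ⊆ p.top := by
  rw [Pr.le_def, C0.le_def, and_assoc]

theorem mem_cut_top {ζ : K} {p : Pr K} {a : K × Om1} : a ∈ (cut ζ p).top ↔ a ∈ p.top ∧ a.1 < ζ := by
  classical
  unfold cut
  simp

theorem mem_cut_A {ζ : K} {p : Pr K} {τ : K} : τ ∈ (cut ζ p).base.A ↔ τ ∈ p.base.A ∧ τ < ζ :=
  Iff.rfl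

theorem mem_cut_Nd {ζ : K} {p : Pr K} {Q : Set K} :
    Q ∈ (cut ζ p).base.Nd ↔ Q ∈ p.base.Nd ∧ Q ⊆ Iio ζ := Iff.rfl

theorem below_cut (ζ : K) (p : Pr K) : Below ζ (cut ζ p) :=
  ⟨fun _ h => h.2, fun _ h => h.2, fun _ h => (mem_cut_top.1 h).2⟩

theorem Below.mono {ζ ξ : K} {p : Pr K} (h : Below ζ p) (hle : ζ ≤ ξ) : Below ξ p :=
  ⟨h.1.trans (Iio_subset_Iio hle), fun Q hQ => (h.2.1 Q hQ).trans (Iio_subset_Iio hle),
    fun a ha => (h.2.2 a ha).trans_le hle⟩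

theorem Below.of_le {ζ : K} {p q : Pr K} (h : Below ζ p) (hle : p ≤ q) : Below ζ q := by
  rw [Pr_le] at hle
  exact ⟨hle.1.trans h.1, fun Q hQ => h.2.1 Q (hle.2.1 hQ), fun a ha => h.2.2 a (hle.2.2 ha)⟩

theorem le_cut (ζ : K) (p : Pr K) : p ≤ cut ζ p := by
  rw [Pr_le]
  exact ⟨fun _ h => h.1, fun _ h => h.1, fun _ h => (mem_cut_top.1 h).1⟩

theorem cut_mono {p q : Pr K} (h : p ≤ q) (ζ : K) : cut ζ p ≤ cut ζ q := by
  rw [Pr_le] at h ⊢
  exact ⟨fun _ h' => ⟨h.1 h'.1, h'.2⟩, fun _ h' => ⟨h.2.1 h'.1, h'.2⟩,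
    fun _ h' => mem_cut_top.2 ⟨h.2.2 (mem_cut_top.1 h').1, (mem_cut_top.1 h').2⟩⟩

theorem cut_eq {ζ : K} {p : Pr K} (h : Below ζ p) : cut ζ p = p := by
  apply Pr_ext
  · ext τ
    exact ⟨fun h' => h'.1, fun h' => ⟨h', h.1 h'⟩⟩
  · ext Q
    exact ⟨fun h' => h'.1, fun h' => ⟨h', h.2.1 Q h'⟩⟩
  · ext a
    rw [mem_cut_top]
    exact ⟨fun h' => h'.1, fun h' => ⟨h', h.2.2 a h'⟩⟩

theorem cut_cut {ζ ξ : K} (p : Pr K) (h : ζ ≤ ξ) : cut ζ (cut ξ p) = cut ζ p := by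
  apply Pr_ext
  · ext τ
    exact ⟨fun h' => ⟨h'.1.1, h'.2⟩, fun h' => ⟨⟨h'.1, lt_of_lt_of_le h'.2 h⟩, h'.2⟩⟩
  · ext Q
    exact ⟨fun h' => ⟨h'.1.1, h'.2⟩, fun h' => ⟨⟨h'.1, h'.2.trans (Iio_subset_Iio h)⟩, h'.2⟩⟩
  · ext a
    simp only [mem_cut_top]
    exact ⟨fun h' => ⟨h'.1.1, h'.2⟩, fun h' => ⟨⟨h'.1, lt_of_lt_of_le h'.2 h⟩, h'.2⟩⟩

theorem cut_le_of_below {ζ : K} {p q : Pr K} (h : Below ζ q) (hle : p ≤ q) : cut ζ p ≤ q := by
  have := cut_mono hle ζ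
  rwa [cut_eq h] at this

theorem fib_cut {ζ ξ : K} (p : Pr K) (h : ζ < ξ) : fib (cut ξ p) ζ = fib p ζ := by
  ext x
  rw [mem_fib, mem_fib, mem_cut_top]
  exact ⟨fun h' => h'.1, fun h' => ⟨h', h⟩⟩

theorem fib_mono {p q : Pr K} (h : p ≤ q) (ζ : K) : fib q ζ ⊆ fib p ζ := by
  intro x hx
  rw [mem_fib] at hx ⊢
  exact (Pr_le.1 h).2.2 hx

theorem Fo.mono {nm : Finset Om1 → Set (Pr K)} {p q : Pr K} {F : Finset Om1} (h : Fo nm p F)
    (hle : q ≤ p) : Fo nm q F := by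
  obtain ⟨s, h1, h2⟩ := h
  exact ⟨s, h1, hle.trans h2⟩

theorem Gnr.mono {c : Ctx K} {γ : K} {P : Set (Pr K)} {nm : Finset Om1 → Set (Pr K)} {X : Set K}
    {p q : Pr K} {F F' : Finset Om1} (h : Gnr c γ P nm X p F) (hle : q ≤ p) (hF : F ⊆ F') :
    Gnr c γ P nm X q F' :=
  fun k hk p' hp' hle' F'' hF' => h k hk p' hp' (hle'.trans hle) F'' (hF.trans hF')

theorem Ub.mono {G G' : Finset Om1} (h : G ⊆ G') {x : Om1} {q : ℚ} (hu : Ub G x q) :
    Ub G' x q := by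
  obtain ⟨s, h1, h2⟩ := hu
  exact ⟨s, h h1, h2⟩

theorem Lb.mono {G G' : Finset Om1} (h : G ⊆ G') {x : Om1} {q : ℚ} (hu : Lb G x q) :
    Lb G' x q := by
  obtain ⟨s, h1, h2⟩ := hu
  exact ⟨s, h h1, h2⟩

theorem Dl.mono {G G' : Finset Om1} (h : G ⊆ G') {x y : Om1} (hd : Dl G x y) : Dl G' x y := by
  obtain ⟨q, h1, h2⟩ := hd
  exact ⟨q, h1.mono h, h2.mono h⟩

theorem f2_dl {G G' : Finset Om1} (h : G ⊆ G') {a b : List Om1} (hd : List.Forall₂ (Dl G) b a) :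
    List.Forall₂ (Dl G') b a := by
  induction hd with
  | nil => exact List.Forall₂.nil
  | cons h1 _ ih => exact List.Forall₂.cons (h1.mono h) ih

theorem Wit.ub {G : Finset Om1} {f : Om1 → ℚ} (h : Wit G f) {x : Om1} {q : ℚ} (hu : Ub G x q) :
    f x < q := by
  obtain ⟨s, h1, rfl, h2⟩ := hu
  exact (h s h1).2.trans_le h2

theorem Wit.lb {G : Finset Om1} {f : Om1 → ℚ} (h : Wit G f) {x : Om1} {q : ℚ} (hu : Lb G x q) :
    q < f x := by
  obtain ⟨s, h1, rfl, h2⟩ := hu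
  exact lt_of_le_of_lt h2 (h s h1).1

theorem Wit.dl {G : Finset Om1} {f : Om1 → ℚ} (h : Wit G f) {x y : Om1} (hd : Dl G x y) :
    f x < f y := by
  obtain ⟨q, h1, h2⟩ := hd
  exact (h.ub h1).trans (h.lb h2)

end Basics

section Nodes

variable {K : Type} [LinearOrder K] [WellFoundedLT K] [Cod K]

theorem b_irrefl {Q : Set K} (hQ : Node Q) : cd Q ∉ Q := P0a.irrefl K Q hQ
theorem b_nodeRestr {Q : Set K} (hQ : Node Q) {τ : K} (hτ : Tr τ) : Node (Q ∩ Iio τ) :=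
  P0a.nodeRestr K Q hQ τ hτ
theorem b_relRestr {Q R : Set K} (hQ : Node Q) (hR : Node R) (h : cd Q ∈ R) {τ : K} (hτ : Tr τ) :
    cd (Q ∩ Iio τ) ∈ R ∩ Iio τ := P0a.relRestr K Q R hQ hR h τ hτ
theorem b_amalgT : S_amalgT K := P0a.amalgT K
theorem b_res : S_res K := P0a.res K
theorem b_amalgS : S_amalgS K := P0b.amalgS K (P0a.nodeRestr K) (P0a.relRestr K) (P0a.irrefl K)

theorem b_dl {Q : Set K} (hQ : Node Q) : (om (dl Q) : K) ∉ Q ∧ ∀ y < dl Q, (om y : K) ∈ Q :=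
  (P0a.dlS K).1 Q hQ
theorem b_dl_lt {Q R : Set K} (hQ : Node Q) (hR : Node R) (h : cd Q ∈ R) : dl Q < dl R :=
  (P0a.dlS K).2.1 Q R hQ hR h
theorem b_dl_restr {Q : Set K} (hQ : Node Q) {τ : K} (hτ : Tr τ) : dl (Q ∩ Iio τ) = dl Q :=
  (P0a.dlS K).2.2 Q τ hτ hQ

theorem b_sub {Q R : Set K} (hQ : Node Q) (hR : Node R) (h : cd Q ∈ R) : Q ⊆ R :=
  hR.sub Q hQ.ctbl h

/-- there are arbitrarily large transitive nodes -/
def TrUnb (K : Type) [LinearOrder K] [Cod K] : Prop := ∀ γ : K, ∃ τ, γ < τ ∧ Tr τ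

theorem nx_spec (h : TrUnb K) (γ : K) : γ < nx γ ∧ Tr (nx γ) := by
  unfold nx
  rw [dif_pos (h γ)]
  exact (wellFounded_lt (α := K)).min_mem {τ | γ < τ ∧ Tr τ} (h γ)

theorem nx_le (h : TrUnb K) {γ τ : K} (h1 : γ < τ) (h2 : Tr τ) : nx γ ≤ τ := by
  unfold nx
  rw [dif_pos (h γ)]
  exact not_lt.1 ((wellFounded_lt (α := K)).not_lt_min {τ | γ < τ ∧ Tr τ} (x := τ) ⟨h1, h2⟩)

/-- restriction to `nx γ` does not see restrictions to larger transitive nodes -/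
theorem inter_nx (h : TrUnb K) {γ τ : K} (h1 : γ < τ) (h2 : Tr τ) (Q : Set K) :
    Q ∩ Iio τ ∩ Iio (nx γ) = Q ∩ Iio (nx γ) := by
  rw [inter_assoc, Iio_inter_Iio, inf_eq_right.2 (nx_le h h1 h2)]

theorem inter_inter_of_le {Q : Set K} {σ τ : K} (h : σ ≤ τ) : Q ∩ Iio τ ∩ Iio σ = Q ∩ Iio σ := by
  rw [inter_assoc, Iio_inter_Iio, inf_eq_right.2 h]

/-- For two nodes `Q`, `R` of `p` containing `γ` there is a common restriction under which they are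
comparable: they are restricted to some `D`, which contains everything below `σ`. -/
theorem pairCmp (p : C0 K) {γ σ : K} (hγσ : γ < σ) (hA : ∀ τ ∈ p.A, γ < τ → σ ≤ τ) :
    ∃ D : Set K, Iio σ ⊆ D ∧ (∀ Q ∈ p.Nd, Q ∩ D ∈ p.Nd) ∧ ∀ Q ∈ p.Nd, ∀ R ∈ p.Nd, γ ∈ Q → γ ∈ R →
      (Q ∩ D = R ∩ D ∨ cd (Q ∩ D) ∈ R ∩ D ∨ cd (R ∩ D) ∈ Q ∩ D) := by
  by_cases h3 : ∃ δ ∈ p.A, γ < δ
  · obtain ⟨δ, hδ, hmin⟩ := P0a.exmin {δ | δ ∈ p.A ∧ γ < δ} h3
    refine ⟨Iio δ, Iio_subset_Iio (hA δ hδ.1 hδ.2), fun Q hQ => p.cl Q hQ δ hδ.1, ?_⟩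
    intro Q hQ R hR h1 h2
    refine p.cmp _ (p.cl Q hQ δ hδ.1) _ (p.cl R hR δ hδ.1) ?_
    intro τ hτ
    rcases lt_or_ge τ δ with h4 | h4
    · have h5 : τ ≤ γ := by
        by_contra h6
        exact absurd (hmin τ ⟨hτ, not_le.1 h6⟩) (not_le.2 h4)
      constructor
      · intro h6
        exact absurd (h6 ⟨h1, hδ.2⟩) (not_lt.2 h5)
      · intro h6
        exact absurd (h6 ⟨h2, hδ.2⟩) (not_lt.2 h5)
    · exact ⟨fun _ => inter_subset_right.trans (Iio_subset_Iio h4),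
        fun _ => inter_subset_right.trans (Iio_subset_Iio h4)⟩
  · refine ⟨univ, subset_univ _, fun Q hQ => by rwa [inter_univ], ?_⟩
    intro Q hQ R hR h1 h2
    rw [inter_univ, inter_univ]
    refine p.cmp Q hQ R hR ?_
    intro τ hτ
    have h5 : τ ≤ γ := by
      by_contra h6
      exact h3 ⟨τ, hτ, not_le.1 h6⟩
    constructor
    · intro h6
      exact absurd (h6 h1) (not_lt.2 h5)
    · intro h6
      exact absurd (h6 h2) (not_lt.2 h5)

/-- The restrictions to `σ` of the nodes of `p` containing `γ` are comparable. -/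
theorem chainX (p : C0 K) {γ σ : K} (hσ : Tr σ) (hγσ : γ < σ) (hA : ∀ τ ∈ p.A, γ < τ → σ ≤ τ)
    {Q R : Set K} (hQ : Q ∈ p.Nd) (hR : R ∈ p.Nd) (h1 : γ ∈ Q) (h2 : γ ∈ R) :
    Q ∩ Iio σ = R ∩ Iio σ ∨ cd (Q ∩ Iio σ) ∈ R ∩ Iio σ ∨ cd (R ∩ Iio σ) ∈ Q ∩ Iio σ := by
  obtain ⟨D, hD, hD1, hD2⟩ := pairCmp p hγσ hA
  have e : ∀ X : Set K, X ∩ D ∩ Iio σ = X ∩ Iio σ := fun X => by
    rw [inter_assoc, inter_eq_right.2 hD]
  have hQ' := p.nd _ (hD1 Q hQ)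
  have hR' := p.nd _ (hD1 R hR)
  rw [← e Q, ← e R]
  rcases hD2 Q hQ R hR h1 h2 with h | h | h
  · exact Or.inl (by rw [h])
  · exact Or.inr (Or.inl (b_relRestr hQ' hR' h hσ))
  · exact Or.inr (Or.inr (b_relRestr hR' hQ' h hσ))

/-- Let `N`, `Q` be nodes containing `γ`. Either the part of `N` below `σ` is contained in `Q`, or
the part of `Q` below `σ` is the part of a node which is an element of `N`. -/
theorem dichot (p : C0 K) {γ σ : K} (hσ : Tr σ) (hγσ : γ < σ) (hA : ∀ τ ∈ p.A, γ < τ → σ ≤ τ)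
    {Q N : Set K} (hQ : Q ∈ p.Nd) (hN : N ∈ p.Nd) (h1 : γ ∈ Q) (h2 : γ ∈ N) :
    N ∩ Iio σ ⊆ Q ∩ Iio σ ∨
      ∃ Q' ∈ p.Nd, cd Q' ∈ N ∧ γ ∈ Q' ∧ Q' ∩ Iio σ = Q ∩ Iio σ := by
  obtain ⟨D, hD, hD1, hD2⟩ := pairCmp p hγσ hA
  have e : ∀ X : Set K, X ∩ D ∩ Iio σ = X ∩ Iio σ := fun X => by
    rw [inter_assoc, inter_eq_right.2 hD]
  have hQ' := p.nd _ (hD1 Q hQ)
  have hN' := p.nd _ (hD1 N hN)
  rcases hD2 Q hQ N hN h1 h2 with h | h | h
  · left
    rw [← e Q, ← e N, h]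
  · right
    exact ⟨Q ∩ D, hD1 Q hQ, h.1, ⟨h1, hD hγσ⟩, e Q⟩
  · left
    have := b_sub hN' hQ' h
    rw [← e N, ← e Q]
    exact inter_subset_inter_left _ this

end Nodes

end Pool.Agent.H633.W
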