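import Pool.Agent.H633.W.Amalg2

/-!
# Countable closed sets: diagonal intersections; genericity of the conditions over their nodes
-/

set_option autoImplicit false
set_option linter.unusedSectionVars false
set_option linter.unusedVariables false

namespace Pool.Agent.H633.W

open Cardinal Set Pool.Agent.Helper669.Forcing Pool.Agent.H915

section CC

variable {Ω : Type}

theorem cc_mono {φ ψ : Set Ω → Prop} (h : CClub φ) (hi : ∀ N : Set Ω, N.Countable → φ N → ψ N) :
    CClub ψ := CC2.cclub_mono h hi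

theorem cc_and {φ ψ : Set Ω → Prop} (h : CClub φ) (h' : CClub ψ) : CClub fun N => φ N ∧ ψ N :=
  CC2.cclub_and CC.ccForall h h'

theorem cc_nat {φ : ℕ → Set Ω → Prop} (h : ∀ n, CClub (φ n)) : CClub fun N => ∀ n, φ n N :=
  CC.ccForall Ω φ h

theorem cc_ctb {I : Type} [Countable I] [Nonempty Ω] {φ : I → Set Ω → Prop}
    (h : ∀ i, CClub (φ i)) : CClub fun N => ∀ i, φ i N := by
  by_cases hI : Nonempty I
  · obtain ⟨f, hf⟩ := exists_surjective_nat I
    refine cc_mono (cc_nat fun n => h (f n)) fun N _ hN i => ?_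
    obtain ⟨n, rfl⟩ := hf i
    exact hN n
  · exact CC2.cclub_true fun N i => absurd ⟨i⟩ hI

theorem cc_mem [Nonempty Ω] (x : Ω) : CClub fun N : Set Ω => x ∈ N := CC2.cclub_mem x

theorem cc_sub [Nonempty Ω] {s : Set Ω} (hs : s.Countable) : CClub fun N : Set Ω => s ⊆ N :=
  CC2.cclub_sub s hs

theorem cc_true [Nonempty Ω] {φ : Set Ω → Prop} (h : ∀ N, φ N) : CClub φ := CC2.cclub_true h

theorem cc_diag [Nonempty Ω] {φ : Ω → Set Ω → Prop} (h : ∀ z, CClub (φ z)) :
    CClub fun N => ∀ z ∈ N, φ z N := CC2.cclub_diag CC.ccDiag h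

theorem cc_exists {φ : Set Ω → Prop} (h : CClub φ) {s : Set Ω} (hs : s.Countable) :
    ∃ N, s ⊆ N ∧ N.Countable ∧ φ N := CC.ccExists Ω φ h s hs

end CC

section K

variable {K : Type} [LinearOrder K] [WellFoundedLT K] [Cod K]

instance neK : Nonempty K := ⟨cd (∅ : Set K)⟩

theorem cc_node : CClub fun N : Set K => Node N := CC2.ccNode CC.ccForall CC.ccDiag K

theorem cc_supp {Z : Type} (supp : Z → List K) (hf : ∀ l, {z | supp z = l}.Countable)
    {φ : Z → Set K → Prop} (h : ∀ z, CClub (φ z)) :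
    CClub fun N => ∀ z, (∀ x ∈ supp z, x ∈ N) → φ z N := CC.ccDiag K Z φ supp hf inferInstance h

theorem om_inj : Function.Injective (om : Om1 → K) := (Cod.om_lt (K := K)).injective

theorem cc_om {φ : Om1 → Set K → Prop} (h : ∀ z, CClub (φ z)) :
    CClub fun N => ∀ z, (om z : K) ∈ N → φ z N := by
  refine cc_mono (cc_supp (fun z : Om1 => [(om z : K)]) (fun l => ?_) h) fun N _ hN z hz =>
    hN z (by simpa using hz)
  refine Set.Subsingleton.countable fun a ha b hb => ?_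
  have h1 : [(om a : K)] = l := ha
  have h2 : [(om b : K)] = l := hb
  rw [← h2] at h1
  exact om_inj (List.cons.inj h1).1

theorem cc_list {φ : List Om1 → Set K → Prop} (h : ∀ z, CClub (φ z)) :
    CClub fun N => ∀ z, Ins N z → φ z N := by
  refine cc_mono (cc_supp (fun z : List Om1 => z.map (om : Om1 → K)) (fun l => ?_) h)
    fun N _ hN z hz => hN z ?_
  · refine Set.Subsingleton.countable fun a ha b hb => ?_
    have h1 : a.map (om : Om1 → K) = l := ha
    have h2 : b.map (om : Om1 → K) = l := hb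
    rw [← h2] at h1
    exact List.map_injective_iff.2 om_inj h1
  · intro x hx
    obtain ⟨y, hy, rfl⟩ := List.mem_map.1 hx
    exact hz y hy

theorem cc_fin {φ : Finset Om1 → Set K → Prop} (h : ∀ z, CClub (φ z)) :
    CClub fun N => ∀ z, FIn N z → φ z N := by
  refine cc_mono (cc_list (φ := fun l N => ∀ z : Finset Om1, z.toList = l → φ z N) fun l => ?_)
    fun N _ hN z hz => hN z.toList (fun x hx => hz x (Finset.mem_toList.1 hx)) z rfl
  by_cases hz : ∃ z : Finset Om1, z.toList = l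
  · obtain ⟨z, hz⟩ := hz
    refine cc_mono (h z) fun N _ hN w hw => ?_
    have : w = z := by
      rw [← hz] at hw
      classical
      have h1 := congrArg List.toFinset hw
      simpa using h1
    rw [this]; exact hN
  · exact cc_true fun N w hw => absurd ⟨w, hw⟩ hz

/-- the list of the objects of which `p` is made -/
noncomputable def prSupp (p : Pr K) : List K :=
  p.base.finA.toFinset.toList ++ (p.base.finN.toFinset.toList.map fun Q => cd Q) ++
    p.top.toList.flatMap fun a => [a.1, om a.2]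

theorem prSupp_iff (p : Pr K) (N : Set K) : (∀ x ∈ prSupp p, x ∈ N) ↔ InX N p := by
  unfold prSupp InX
  constructor
  · intro h
    refine ⟨fun τ hτ => h _ ?_, fun Q hQ => h _ ?_, fun a ha => ⟨h _ ?_, h _ ?_⟩⟩
    · simp [hτ]
    · simp only [List.mem_append, List.mem_map]
      exact Or.inl (Or.inr ⟨Q, by simpa using hQ, rfl⟩)
    · simp only [List.mem_append, List.mem_flatMap]
      exact Or.inr ⟨a, by simpa using ha, by simp⟩
    · simp only [List.mem_append, List.mem_flatMap]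
      exact Or.inr ⟨a, by simpa using ha, by simp⟩
  · rintro ⟨h1, h2, h3⟩ x hx
    simp only [List.mem_append, List.mem_map, List.mem_flatMap] at hx
    rcases hx with (hτ | ⟨Q, hQ, rfl⟩) | ⟨a, ha, hx⟩
    · exact h1 (by simpa using hτ)
    · exact h2 Q (by simpa using hQ)
    · have ha' : a ∈ p.top := by simpa using ha
      simp only [List.mem_cons, List.not_mem_nil, or_false] at hx
      rcases hx with rfl | rfl
      · exact (h3 a ha').1
      · exact (h3 a ha').2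

/-- Only finitely many conditions are made of the elements of a finite set. -/
theorem prFin (l : List K) : {p : Pr K | InX {x | x ∈ l} p}.Finite := by
  have hl : {x : K | x ∈ l}.Finite := List.finite_toSet l
  have hFo : {x : Om1 | (om x : K) ∈ l}.Finite := hl.preimage om_inj.injOn
  have hFN : {Q : Set K | Q.Countable ∧ cd Q ∈ l}.Finite := by
    refine Set.Finite.of_injOn (f := fun Q : Set K => cd Q) (fun Q hQ => hQ.2) ?_ hl
    intro Q hQ R hR h
    exact Cod.cd_inj Q R hQ.1 hR.1 h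
  have hFt : {a : K × Om1 | a.1 ∈ l ∧ (om a.2 : K) ∈ l}.Finite :=
    (hl.prod hFo).subset fun a ha => ha
  have hbig : ({A : Set K | A ⊆ {k : K | k ∈ l}} ×ˢ
      ({N : Set (Set K) | N ⊆ {Q : Set K | Q.Countable ∧ cd Q ∈ l}} ×ˢ
      {t : Set (K × Om1) | t ⊆ {a : K × Om1 | a.1 ∈ l ∧ (om a.2 : K) ∈ l}})).Finite :=
    hl.finite_subsets.prod (hFN.finite_subsets.prod hFt.finite_subsets)
  refine Set.Finite.of_injOn
    (f := fun r : Pr K => (r.base.A, r.base.Nd, (r.top : Set (K × Om1)))) ?_ ?_ hbig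
  · intro r hr
    exact ⟨hr.1, fun Q hQ => ⟨(r.base.nd Q hQ).ctbl, hr.2.1 Q hQ⟩, fun a ha => hr.2.2 a ha⟩
  · intro r _ r' _ h
    simp only [Prod.mk.injEq, Finset.coe_inj] at h
    exact Pr_ext h.1 h.2.1 h.2.2

theorem cc_pr {φ : Pr K → Set K → Prop} (h : ∀ z, CClub (φ z)) :
    CClub fun N => ∀ z, InX N z → φ z N := by
  refine cc_mono (cc_supp prSupp (fun l => ?_) h) fun N _ hN z hz => hN z ((prSupp_iff z N).2 hz)
  refine ((prFin l).subset fun z hz => ?_).countable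
  have hz' : prSupp z = l := hz
  rw [← hz']
  exact (prSupp_iff z _).1 fun x hx => hx

theorem cc_c0 {φ : C0 K → Set K → Prop} (h : ∀ z, CClub (φ z)) :
    CClub fun N => ∀ z : C0 K, z.Inside N → φ z N := by
  refine cc_mono (cc_pr (φ := fun p N => φ p.base N) fun p => h p.base) fun N _ hN z hz => ?_
  exact hN ⟨z, ∅⟩ ⟨hz.1, hz.2, fun a ha => absurd ha (Finset.notMem_empty _)⟩

theorem cc_inX (p : Pr K) : CClub fun N : Set K => InX N p := by
  refine cc_mono (cc_sub (s := {x | x ∈ prSupp p}) (List.finite_toSet _).countable)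
    fun N _ hN => (prSupp_iff p N).1 fun x hx => hN hx

theorem cc_fIn (F : Finset Om1) : CClub fun N : Set K => FIn N F := by
  refine cc_mono (cc_sub (s := (om : Om1 → K) '' (F : Set Om1))
    ((Finset.finite_toSet F).image _).countable) fun N _ hN x hx => hN ⟨x, hx, rfl⟩

/-- The countable ordinals in `N` are an initial segment. -/
def Ini (N : Set K) : Prop := ∀ x : Om1, (om x : K) ∈ N → ∀ y < x, (om y : K) ∈ N

theorem ctb_Iio (x : Om1) : {y : Om1 | y < x}.Countable := by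
  have h1 : #(Iio x) < ℵ₁ := Cardinal.mk_Iio_toType_ord_lt x
  have h2 : #(Iio x) < Order.succ ℵ₀ := by
    rw [Cardinal.succ_aleph0]
    exact h1
  exact Cardinal.le_aleph0_iff_set_countable.1 (Order.lt_succ_iff.1 h2)

theorem cc_ini : CClub fun N : Set K => Ini N := by
  refine cc_mono (cc_om (φ := fun x N => (om : Om1 → K) '' {y | y < x} ⊆ N) fun x =>
    cc_sub ((ctb_Iio x).image _)) fun N _ hN x hx y hy => hN x hx ⟨y, hy, rfl⟩

/-- diagonal intersection over the countable sets coded in `N` -/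
theorem cc_cd {φ : Set K → Set K → Prop} (h : ∀ Y, Y.Countable → CClub (φ Y)) :
    CClub fun N => ∀ Y : Set K, Y.Countable → cd Y ∈ N → φ Y N := by
  refine cc_mono (cc_diag (φ := fun y N => ∀ Y : Set K, Y.Countable → cd Y = y → φ Y N)
    fun y => ?_) fun N _ hN Y hY hc => hN _ hc Y hY rfl
  by_cases hy : ∃ Y : Set K, Y.Countable ∧ cd Y = y
  · obtain ⟨Y, hY, rfl⟩ := hy
    refine cc_mono (h Y hY) fun N _ hN Z hZ hZY => ?_
    rw [Cod.cd_inj Z Y hZ hY hZY]; exact hN
  · exact cc_true fun N Y hY hYy => absurd ⟨Y, hY, hYy⟩ hy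

theorem out_ge {N : Set K} (hI : Ini N) {ν : Om1} (hν : (om ν : K) ∈ N) {a : List Om1}
    (ha : Out N a) : ∀ x ∈ a, ν ≤ x := by
  intro x hx
  by_contra hc
  exact ha x hx (hI ν hν x (not_le.1 hc))

end K

/-! ### The context -/

section Ctx

variable {K : Type} [LinearOrder K] [WellFoundedLT K] [Cod K]

/-- what is needed of the data -/
structure GoodCtx (c : Ctx K) : Prop where
  trUnb : TrUnb K
  en : ∀ ζ : K, ∀ E : List Om1 → Set (Pr K × Finset Om1),
    (∀ a, ∀ e ∈ E a, Below ζ e.1) → ∃ k < nx ζ, c.en k = E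
  tr0 : Tr c.z0
  bk0 : c.bk c.z0 = coh
  bkl : ∀ γ < c.z0, ∀ F, c.bk γ F = ∅
  bkr : ∀ γ, c.z0 < γ → ∀ F, ∀ s ∈ c.bk γ F, (fib s c.z0).Nonempty

variable {c : Ctx K}

theorem NM_sub {γ : K} {F : Finset Om1} {s : Pr K} (h : s ∈ NM c γ F) : s ∈ c.bk γ F := by
  classical
  rw [NM_eq] at h
  by_cases h1 : Cand c (PS c γ) (c.bk γ) γ
  · rwa [if_pos h1] at h
  · rw [if_neg h1] at h
    exact absurd h (notMem_empty _)

/-- A condition with a coordinate has the first coordinate. -/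
theorem has_z0 (hc : GoodCtx c) {p : Pr K} (hp : p ∈ PT c) {ζ : K} (h : (fib p ζ).Nonempty) :
    (fib p c.z0).Nonempty ∧ c.z0 ≤ ζ := by
  obtain ⟨h1, ⟨s, hs, hle⟩, h3⟩ := hp ζ h
  rcases lt_trichotomy ζ c.z0 with h4 | h4 | h4
  · have h5 := NM_sub hs
    rw [hc.bkl ζ h4] at h5
    exact absurd h5 (notMem_empty _)
  · rw [← h4]
    exact ⟨h, le_refl _⟩
  · have h5 := hc.bkr ζ h4 _ s (NM_sub hs)
    have h6 := fib_mono hle c.z0
    rw [fib_cut p h4] at h6
    exact ⟨h5.mono h6, h4.le⟩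

theorem relEmpty (c : Ctx K) (P : Set (Pr K)) (γ : K) (X : Set K) :
    Rel c P (fun _ => ∅) γ X := by
  constructor
  · rintro p _ _ F _ ⟨s, hs, _⟩
    exact absurd hs (notMem_empty _)
  · rintro Y _ _ _ p _ _ _ F _ ⟨s, hs, _⟩
    exact absurd hs (notMem_empty _)

/-- almost all nodes are relevant for all their coordinates -/
theorem relAll (c : Ctx K) : CClub fun N : Set K => ∀ ζ ∈ N,
    Rel c (PS c ζ) (NM c ζ) ζ (N ∩ Iio (nx ζ)) := by
  classical
  refine cc_mono (cc_diag (φ := fun ζ N => ζ ∈ N → Rel c (PS c ζ) (NM c ζ) ζ (N ∩ Iio (nx ζ)))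
    fun ζ => ?_) fun N _ hN ζ hζ => hN ζ hζ hζ
  rw [NM_eq]
  by_cases h : Cand c (PS c ζ) (c.bk ζ) ζ
  · rw [if_pos h]
    exact h
  · rw [if_neg h]
    exact cc_true fun N _ => relEmpty c _ _ _

/-- the conditions of `E a` which extend `t` and have the coordinate `o` -/
def E2 (c : Ctx K) (E : List Om1 → Set (Pr K)) (t : C0 K) (o : Option K) (a : List Om1) :
    Set (Pr K) :=
  {e | e ∈ PT c ∧ e.base ≤ t ∧ (∀ ζ, o = some ζ → (fib e ζ).Nonempty) ∧ ∃ e1 ∈ E a, e ≤ e1}

theorem f2_len {R : Om1 → Om1 → Prop} {a b : List Om1} (h : List.Forall₂ R a b) :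
    a.length = b.length := h.length_eq

/-- Conditions containing `N` are `N`-generic, and the order of the reals is reflected. -/
theorem genT (hc : GoodCtx c) (E : List Om1 → Set (Pr K)) : CClub fun N : Set K =>
    ∀ p ∈ PT c, N ∈ p.base.Nd → ∀ a, Out N a → ∀ e0 ∈ E a, p ≤ e0 →
      ∃ b, b.length = a.length ∧ Ins N b ∧ ∃ e ∈ E b, InX N e ∧ ∃ u ∈ PT c, u ≤ p ∧ u ≤ e ∧
        ((fib p c.z0).Nonempty → List.Forall₂ (Dl (fib u c.z0)) b a) := by
  classical
  -- the closure conditions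
  have hν : ∀ (t : C0 K) (n : ℕ), ∃ b : List Om1, (∃ a, a.length = n ∧ (E2 c E t none a).Nonempty) →
      b.length = n ∧ (E2 c E t none b).Nonempty := by
    intro t n
    by_cases h : ∃ a, a.length = n ∧ (E2 c E t none a).Nonempty
    · obtain ⟨a, ha⟩ := h
      exact ⟨a, fun _ => ha⟩
    · exact ⟨[], fun h' => absurd h' h⟩
  choose ν hν using hν
  have hk : ∀ t ζ, ∃ k < nx ζ, c.en k = fun a => {e | ∃ e' ∈ E2 c E t (some ζ) a,
      e = (cut ζ e', fib e' ζ)} := fun t ζ => hc.en ζ _ (by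
    rintro a e ⟨e', _, rfl⟩
    exact below_cut ζ e')
  choose k hk1 hk2 using hk
  have c1 : CClub fun N : Set K => ∀ t : C0 K, t.Inside N → ∀ n, Ins N (ν t n) := by
    refine cc_c0 fun t => cc_nat fun n => ?_
    refine cc_mono (cc_sub (s := (om : Om1 → K) '' {x | x ∈ ν t n})
      ((List.finite_toSet (ν t n)).image _).countable) fun N _ hN x hx => hN ⟨x, hx, rfl⟩
  have c2 : CClub fun N : Set K => ∀ t : C0 K, t.Inside N → ∀ b, Ins N b →
      (E2 c E t none b).Nonempty → ∃ e ∈ E2 c E t none b, InX N e ∧ ∃ e1 ∈ E b, e ≤ e1 ∧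
        InX N e1 := by
    refine cc_c0 fun t => cc_list fun b => ?_
    by_cases h : (E2 c E t none b).Nonempty
    · obtain ⟨e, he⟩ := h
      obtain ⟨e1, h1, h2⟩ := he.2.2.2
      exact cc_mono (cc_and (cc_inX e) (cc_inX e1)) fun N _ hN _ => ⟨e, he, hN.1, e1, h1, h2, hN.2⟩
    · exact cc_true fun N h' => absurd h' h
  have c3 : CClub fun N : Set K => ∀ t : C0 K, t.Inside N → ∀ ζ ∈ N, k t ζ ∈ N :=
    cc_c0 fun t => cc_diag fun ζ => cc_mem _
  have c4 : CClub fun N : Set K => ∀ t : C0 K, t.Inside N → ∀ ζ ∈ N, ∀ b, Ins N b →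
      ∀ c', InX N c' → ∀ F, FIn N F →
      (∃ e ∈ E2 c E t (some ζ) b, cut ζ e = c' ∧ fib e ζ = F) →
      ∃ e ∈ E2 c E t (some ζ) b, cut ζ e = c' ∧ fib e ζ = F ∧ InX N e ∧ ∃ e1 ∈ E b, e ≤ e1 ∧
        InX N e1 := by
    refine cc_c0 fun t => cc_diag fun ζ => cc_list fun b => cc_pr fun c' => cc_fin fun F => ?_
    by_cases h : ∃ e ∈ E2 c E t (some ζ) b, cut ζ e = c' ∧ fib e ζ = F
    · obtain ⟨e, he, g1, g2⟩ := h
      obtain ⟨e1, h1, h2⟩ := he.2.2.2
      exact cc_mono (cc_and (cc_inX e) (cc_inX e1)) fun N _ hN _ =>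
        ⟨e, he, g1, g2, hN.1, e1, h1, h2, hN.2⟩
    · exact cc_true fun N h' => absurd h' h
  refine cc_mono (cc_and (cc_and cc_node (cc_mem c.z0)) (cc_and (relAll c) (cc_and (cc_and c1 c2)
    (cc_and c3 c4)))) ?_
  rintro N - ⟨⟨hNN, hz0N⟩, hrel, ⟨d1, d2⟩, d3, d4⟩ p hp hN a ha e0 he0 hpe
  obtain ⟨t, htA, htN⟩ := b_res p.base N hN
  have htin : t.Inside N := ⟨by rw [htA]; exact inter_subset_right, fun Q hQ => by
    rw [htN] at hQ
    exact hQ.2⟩
  have hpt : p.base ≤ t := ⟨by rw [htA]; exact inter_subset_left, by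
    rw [htN]
    exact fun Q hQ => hQ.1⟩
  by_cases hcase : (fib p c.z0).Nonempty
  swap
  · have hcase' : ∀ ζ ∈ N, fib p ζ = ∅ := by
      intro ζ _
      apply fib_empty
      intro h
      exact hcase (has_z0 hc hp h).1
    have hpE : p ∈ E2 c E t none a := ⟨hp, hpt, fun ζ h => by simp at h, e0, he0, hpe⟩
    obtain ⟨hb1, hb2⟩ := hν t a.length ⟨a, rfl, p, hpE⟩
    have hbN := d1 t htin a.length
    obtain ⟨e, he, heN, e1, he1, hle, he1N⟩ := d2 t htin _ hbN hb2
    obtain ⟨q, hq, hqp, hqe, _⟩ := amalgN hc.trUnb hp he.1 hN heN (by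
      rw [← htA]; exact he.2.1.1) (fun Q hQ hQN => he.2.1.2 (by rw [htN]; exact ⟨hQ, hQN⟩)) none
      (Or.inl ⟨rfl, hcase'⟩)
    exact ⟨_, hb1, hbN, e1, he1, he1N, q, hq, hqp, hqe.trans hle, fun h => absurd h hcase⟩
  · -- the largest coordinate of `p` in `N`
    have hne : ((dom p).filter fun ζ => ζ ∈ N).Nonempty :=
      ⟨c.z0, Finset.mem_filter.2 ⟨mem_dom.2 hcase, hz0N⟩⟩
    obtain ⟨ζ0, hζ0, hmax⟩ := Finset.exists_max_image _ id hne
    obtain ⟨hζ1, hζN⟩ := Finset.mem_filter.1 hζ0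
    have hζne := mem_dom.1 hζ1
    have hζz := (has_z0 hc hp hζne).2
    have hpE : p ∈ E2 c E t (some ζ0) a := ⟨hp, hpt, fun ζ h => by
      rw [Option.some_inj] at h
      rw [← h]; exact hζne, e0, he0, hpe⟩
    have hOK := hp ζ0 hζne
    have hg := hOK.2.2 N hN hζN (hrel ζ0 hζN)
    obtain ⟨b, hb2, e, he, heX, heF, u, hu, hup, hue, G, hG1, hG2, huF, hb1⟩ := hg (k t ζ0)
      ⟨d3 t htin ζ0 hζN, hk1 t ζ0⟩ (cut ζ0 p) (cut_mem hp ζ0) (le_refl _) (fib p ζ0)
      (Finset.Subset.refl _) hOK.2.1 a (fun x hx h => ha x hx h.1) (cut ζ0 p, fib p ζ0) (by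
        rw [hk2]
        exact ⟨p, hpE, rfl⟩) (le_refl _) (Finset.Subset.refl _)
    rw [hk2] at he
    obtain ⟨e', he', hee⟩ := he
    have hbN : Ins N b := fun x hx => (hb2 x hx).1
    have heX' : InX N e.1 := ⟨heX.1.trans inter_subset_left, fun Q hQ => (heX.2.1 Q hQ).1,
      fun a ha => ⟨(heX.2.2 a ha).1.1, (heX.2.2 a ha).2.1⟩⟩
    obtain ⟨e'', he'', g1, g2, heN, e1, he1, hle, he1N⟩ := d4 t htin ζ0 hζN b hbN e.1 heX' e.2
      (fun x hx => (heF x hx).1) ⟨e', he', by rw [hee], by rw [hee]⟩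
    obtain ⟨q, hq, hqp, hqe, hqu⟩ := amalgN hc.trUnb hp he''.1 hN heN (by
      rw [← htA]; exact he''.2.1.1) (fun Q hQ hQN => he''.2.1.2 (by rw [htN]; exact ⟨hQ, hQN⟩))
      (some (ζ0, u, G))
      (Or.inr ⟨ζ0, hζN, u, G, rfl, hζne, he''.2.2.1 ζ0 rfl, by
        intro ζ hζ hlt
        by_contra hcon
        have h5 := hmax ζ (Finset.mem_filter.2 ⟨mem_dom.2
          (Finset.nonempty_iff_ne_empty.2 hcon), hζ⟩)
        exact absurd h5 (not_le.2 hlt), hu, hup, by rw [g1]; exact hue, hG1, by rw [g2]; exact hG2,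
          huF⟩)
    obtain ⟨hq1, hq2⟩ := hqu ζ0 u G rfl
    refine ⟨b, hb1.length_eq, hbN, e1, he1, he1N, q, hq, hqp, hqe.trans hle, fun _ => ?_⟩
    refine f2_dl ?_ hb1
    unfold info
    by_cases h : ζ0 = c.z0
    · rw [if_pos h, ← h]
      exact hq2
    · rw [if_neg h]
      exact fib_mono hq1 c.z0

end Ctx

end Pool.Agent.H633.W
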