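import Pool.Agent.H633.W.Gen

/-!
# The first coordinate: adding `ω₁` Cohen reals
-/

set_option autoImplicit false
set_option linter.unusedSectionVars false
set_option linter.unusedVariables false

namespace Pool.Agent.H633.W

open Cardinal Set Pool.Agent.Helper669.Forcing Pool.Agent.H915

variable {K : Type} [LinearOrder K] [WellFoundedLT K] [Cod K] {c : Ctx K}

/-- the coded intervals with indices from `l` and end points from `ab` -/
noncomputable def mkI (l : List Om1) (ab : List (ℚ × ℚ)) : List Om1 :=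
  List.zipWith (fun y z => qc.symm (y, z)) l ab

theorem mem_mkI {l : List Om1} {ab : List (ℚ × ℚ)} {s : Om1} (h : s ∈ mkI l ab) :
    (qc s).1 ∈ l := by
  unfold mkI at h
  induction l generalizing ab with
  | nil => simp at h
  | cons y l ih =>
    cases ab with
    | nil => simp at h
    | cons z ab =>
      rw [List.zipWith_cons_cons] at h
      rcases List.mem_cons.1 h with h1 | h1
      · rw [h1, Equiv.apply_symm_apply]
        exact List.mem_cons_self
      · exact List.mem_cons_of_mem _ (ih h1)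

theorem mkI_self (L : List Om1) : mkI (L.map fun x => (qc x).1) (L.map fun x => (qc x).2) = L := by
  unfold mkI
  induction L with
  | nil => rfl
  | cons x L ih =>
    rw [List.map_cons, List.map_cons, List.zipWith_cons_cons, ih]
    congr 1
    exact Equiv.symm_apply_apply qc x

theorem f2_mem {A B : Type} {R S : A → B → Prop} {l : List A} {m : List B}
    (h : List.Forall₂ R l m) (hRS : ∀ x ∈ l, ∀ y ∈ m, R x y → S x y) : List.Forall₂ S l m := by
  induction h with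
  | nil => exact List.Forall₂.nil
  | cons h1 h2 ih =>
    exact List.Forall₂.cons (hRS _ List.mem_cons_self _ List.mem_cons_self h1)
      (ih fun x hx y hy => hRS x (List.mem_cons_of_mem _ hx) y (List.mem_cons_of_mem _ hy))

theorem exists_eps (S : Finset Om1) (d : Om1 → ℚ) :
    ∃ ε : ℚ, 0 < ε ∧ ε < 1 ∧ ∀ s ∈ S, 0 < d s → ε < d s := by
  classical
  induction S using Finset.induction_on with
  | empty => exact ⟨1 / 2, by norm_num, by norm_num, fun s hs => absurd hs (Finset.notMem_empty _)⟩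
  | insert x S _ ih =>
    obtain ⟨ε, h1, h2, h3⟩ := ih
    by_cases hx : 0 < d x
    · refine ⟨min ε (d x / 2), lt_min h1 (half_pos hx), (min_le_left _ _).trans_lt h2,
        fun s hs hd => ?_⟩
      rcases Finset.mem_insert.1 hs with rfl | h
      · exact (min_le_right _ _).trans_lt (half_lt_self hx)
      · exact (min_le_left _ _).trans_lt (h3 s h hd)
    · refine ⟨ε, h1, h2, fun s hs hd => ?_⟩
      rcases Finset.mem_insert.1 hs with rfl | h
      · exact absurd hd hx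
      · exact h3 s h hd

/-- the family for the reflection argument -/
def EC (c : Ctx K) (k : K) (Fi : Finset Om1) (θ : ℕ × List (ℚ × ℚ) × List ℚ) (l : List Om1) :
    Set (Pr K) :=
  {e | e ∈ PS c c.z0 ∧ ∃ e0 ∈ c.en k (l.take θ.1), e ≤ e0.1 ∧
    (∀ x ∈ e0.2, x ∈ Fi ∨ x ∈ mkI (l.drop θ.1) θ.2.1) ∧ ∃ g : Om1 → ℚ, l.map g = θ.2.2 ∧
      ∀ s, (s ∈ Fi ∨ s ∈ mkI (l.drop θ.1) θ.2.1) →
        (qc s).2.1 < g (qc s).1 ∧ g (qc s).1 < (qc s).2.2}

theorem cohGext (hc : GoodCtx c) : CClub fun N : Set K => c.z0 ∈ N →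
    Gext c (PS c c.z0) coh c.z0 (N ∩ Iio (nx c.z0)) := by
  classical
  obtain ⟨hn1, hn2⟩ := nx_spec hc.trUnb c.z0
  have cA : CClub fun N : Set K => ∀ k ∈ N, ∀ Fi, FIn N Fi → ∀ θ, (c.z0 ∈ N → ∀ p ∈ PS c c.z0,
      N ∩ Iio c.z0 ∈ p.base.Nd → ∀ a, Out N a → ∀ e0 ∈ EC c k Fi θ a, p ≤ e0 →
        ∃ b, b.length = a.length ∧ Ins N b ∧ ∃ e ∈ EC c k Fi θ b, InX N e ∧
          ∃ u ∈ PS c c.z0, u ≤ p ∧ u ≤ e ∧
            ((fib p c.z0).Nonempty → List.Forall₂ (Dl (fib u c.z0)) b a)) :=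
    cc_diag fun k => cc_fin fun Fi => cc_ctb fun θ =>
      genS hc hc.tr0 (EC c k Fi θ) fun a e he => (mem_PS.1 he.1).1
  have cB : CClub fun N : Set K => ∀ k ∈ N, ∀ Fi, FIn N Fi → ∀ θ, ∀ l, Ins N l → ∀ e, InX N e →
      e ∈ EC c k Fi θ l → ∃ e0 ∈ c.en k (l.take θ.1), InX N e0.1 ∧ FIn N e0.2 ∧ e ≤ e0.1 ∧
      (∀ x ∈ e0.2, x ∈ Fi ∨ x ∈ mkI (l.drop θ.1) θ.2.1) ∧ ∃ g : Om1 → ℚ, l.map g = θ.2.2 ∧
        ∀ s, (s ∈ Fi ∨ s ∈ mkI (l.drop θ.1) θ.2.1) →
        (qc s).2.1 < g (qc s).1 ∧ g (qc s).1 < (qc s).2.2 := by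
    refine cc_diag fun k => cc_fin fun Fi => cc_ctb fun θ => cc_list fun l => cc_pr fun e => ?_
    by_cases hE : e ∈ EC c k Fi θ l
    · obtain ⟨_, e0, h1, h2, h3, h4⟩ := hE
      exact cc_mono (cc_and (cc_inX e0.1) (cc_fIn e0.2)) fun N _ hN _ =>
        ⟨e0, h1, hN.1, hN.2, h2, h3, h4⟩
    · exact cc_true fun N h' => absurd h' hE
  have cC : CClub fun N : Set K => ∀ y : Om1, (om y : K) ∈ N → ∀ z : ℚ × ℚ,
      (om (qc.symm (y, z)) : K) ∈ N := cc_om fun y => cc_ctb fun z => cc_mem _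
  have cD : CClub fun N : Set K => ∀ s : Om1, (om s : K) ∈ N → (om (qc s).1 : K) ∈ N :=
    cc_om fun s => cc_mem _
  refine cc_mono (cc_and (cc_and cA cB) (cc_and cC cD)) ?_
  rintro N - ⟨⟨dA, dB⟩, dC, dD⟩ hγN p hp hNp F _ hFo
  refine ⟨p, hp, le_refl _, F, Finset.Subset.refl _, hFo, ?_⟩
  rintro k ⟨hkN, hkσ⟩ p' hp' hple F' hFF hFo' a ha ⟨e0, F0⟩ he0 hpe0 hF0
  rw [inter_inter_of_le hn1.le] at hNp
  simp only at hpe0 hF0
  have haN : Out N a := fun x hx h => ha x hx ⟨h, hn2.1 x⟩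
  obtain ⟨_, ⟨f, hf⟩, _⟩ := hFo'
  let Fi := F'.filter fun x => (om x : K) ∈ N
  let L := (F'.filter fun x => ¬ (om x : K) ∈ N).toList
  have hL : ∀ x, x ∈ L ↔ x ∈ F' ∧ (om x : K) ∉ N := fun x => by
    simp only [L, Finset.mem_toList, Finset.mem_filter]
  have hFi : ∀ x, x ∈ Fi ↔ x ∈ F' ∧ (om x : K) ∈ N := fun x => by
    simp only [Fi, Finset.mem_filter]
  have hback : ∀ s : Om1, (om (qc s).1 : K) ∈ N → (om s : K) ∈ N := by
    intro s hs
    have := dC _ hs (qc s).2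
    rwa [Prod.mk.eta, Equiv.symm_apply_apply] at this
  let A : List Om1 := a ++ L.map fun x => (qc x).1
  let ab : List (ℚ × ℚ) := L.map fun x => (qc x).2
  have hAt : A.take a.length = a := by simp only [A, List.take_left']
  have hAd : mkI (A.drop a.length) ab = L := by
    simp only [A, List.drop_left', ab]
    exact mkI_self L
  have hAout : Out N A := by
    intro x hx
    rcases List.mem_append.1 hx with h2 | h2
    · exact haN x h2
    · obtain ⟨y, h3, rfl⟩ := List.mem_map.1 h2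
      intro h4
      exact ((hL y).1 h3).2 (hback y h4)
  have hsplit : ∀ x ∈ F', x ∈ Fi ∨ x ∈ L := by
    intro x hx
    by_cases h : (om x : K) ∈ N
    · exact Or.inl ((hFi x).2 ⟨hx, h⟩)
    · exact Or.inr ((hL x).2 ⟨hx, h⟩)
  have hmemE : p' ∈ EC c k Fi (a.length, ab, A.map f) A := by
    refine ⟨hp', (e0, F0), ?_, hpe0, ?_, f, rfl, ?_⟩
    · simp only [hAt]
      exact he0
    · intro x hx
      simp only [hAd]
      exact hsplit x (hF0 hx)
    · intro s hs
      simp only [hAd] at hs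
      rcases hs with h | h
      · exact hf s ((hFi s).1 h).1
      · exact hf s ((hL s).1 h).1
  obtain ⟨B, hBA, hBN, e, he, heN, u, hu, hup, hue, _⟩ := dA k hkN Fi
    (fun x hx => ((hFi x).1 hx).2) (a.length, ab, A.map f) hγN p' hp' ((Pr_le.1 hple).2.1 hNp) A
    hAout p' hmemE (le_refl _)
  obtain ⟨⟨f0, G0⟩, g1, g2, g3, g4, g6, g, g7, g8⟩ := dB k hkN Fi
    (fun x hx => ((hFi x).1 hx).2) (a.length, ab, A.map f) B hBN e heN he
  simp only at g1 g2 g3 g4 g6 g7 g8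
  set b := B.take a.length with hb
  have hbN : Ins N b := fun x hx => hBN x (List.mem_of_mem_take hx)
  have hba : List.Forall₂ (fun y x => g y = f x) b a := by
    have h1 : b.map g = a.map f := by
      rw [hb, List.map_take, g7, ← List.map_take, hAt]
    have h2 : List.Forall₂ (fun y x : ℚ => y = x) (b.map g) (a.map f) := by
      rw [h1]
      exact List.forall₂_same.2 fun _ _ => rfl
    rwa [List.forall₂_map_left_iff, List.forall₂_map_right_iff] at h2
  obtain ⟨ε1, e1, e2, e3⟩ := exists_eps (F' ∪ G0) fun s => (qc s).2.2 - f (qc s).1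
  obtain ⟨ε2, e4, e5, e6⟩ := exists_eps (F' ∪ G0) fun s => g (qc s).1 - (qc s).2.1
  let ε := min ε1 ε2
  have hε0 : 0 < ε := lt_min e1 e4
  have hε1 : ε < 1 := (min_le_left _ _).trans_lt e2
  let h : Om1 → ℚ := fun y => if (om y : K) ∈ N then (if y ∈ b then g y - ε else g y)
    else (if y ∈ a then f y + ε else f y)
  let G : Finset Om1 := F' ∪ G0 ∪ (a.toFinset.image (fun x => qc.symm (x, f x, f x + 1)) ∪
    b.toFinset.image (fun x => qc.symm (x, g x - 1, g x)))
  have hin : ∀ s ∈ F' ∪ G0, (om (qc s).1 : K) ∈ N → (qc s).2.1 < g (qc s).1 →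
      g (qc s).1 < (qc s).2.2 → (qc s).2.1 < h (qc s).1 ∧ h (qc s).1 < (qc s).2.2 := by
    intro s hs hsN h1 h2
    simp only [h, if_pos hsN]
    have h3 := e6 s hs (sub_pos.2 h1)
    have h4 : ε ≤ ε2 := min_le_right _ _
    split_ifs
    · exact ⟨by linarith, by linarith⟩
    · exact ⟨h1, h2⟩
  have hout : ∀ s ∈ F' ∪ G0, (om (qc s).1 : K) ∉ N → (qc s).2.1 < f (qc s).1 →
      f (qc s).1 < (qc s).2.2 → (qc s).2.1 < h (qc s).1 ∧ h (qc s).1 < (qc s).2.2 := by
    intro s hs hsN h1 h2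
    simp only [h, if_neg hsN]
    have h3 := e3 s hs (sub_pos.2 h2)
    have h4 : ε ≤ ε1 := min_le_left _ _
    split_ifs
    · exact ⟨by linarith, by linarith⟩
    · exact ⟨h1, h2⟩
  have hWit : Wit G h := by
    intro s hs
    rcases Finset.mem_union.1 hs with hs | hs
    · rcases Finset.mem_union.1 hs with h1 | h1
      · by_cases hsN : (om (qc s).1 : K) ∈ N
        · have h2 := g8 s (Or.inl ((hFi s).2 ⟨h1, hback s hsN⟩))
          exact hin s hs hsN h2.1 h2.2
        · exact hout s hs hsN (hf s h1).1 (hf s h1).2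
      · have h2 := g8 s (g6 s h1)
        refine hin s hs ?_ h2.1 h2.2
        rcases g6 s h1 with h3 | h3
        · exact dD s ((hFi s).1 h3).2
        · exact hBN _ (List.mem_of_mem_drop (mem_mkI h3))
    · rcases Finset.mem_union.1 hs with h1 | h1
      · obtain ⟨x, hx, rfl⟩ := Finset.mem_image.1 h1
        rw [List.mem_toFinset] at hx
        rw [Equiv.apply_symm_apply]
        simp only [h, if_neg (haN x hx), if_pos hx]
        exact ⟨by linarith, by linarith⟩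
      · obtain ⟨x, hx, rfl⟩ := Finset.mem_image.1 h1
        rw [List.mem_toFinset] at hx
        rw [Equiv.apply_symm_apply]
        simp only [h, if_pos (hbN x hx), if_pos hx]
        exact ⟨by linarith, by linarith⟩
  have hDl : List.Forall₂ (Dl G) b a := by
    refine f2_mem hba fun y hy x hx hyx => ⟨f x, ⟨qc.symm (y, g y - 1, g y), ?_, ?_, ?_⟩,
      ⟨qc.symm (x, f x, f x + 1), ?_, ?_, ?_⟩⟩
    · exact Finset.mem_union_right _ (Finset.mem_union_right _ (Finset.mem_image.2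
        ⟨y, List.mem_toFinset.2 hy, rfl⟩))
    · rw [Equiv.apply_symm_apply]
    · rw [Equiv.apply_symm_apply]
      exact hyx.le
    · exact Finset.mem_union_right _ (Finset.mem_union_left _ (Finset.mem_image.2
        ⟨x, List.mem_toFinset.2 hx, rfl⟩))
    · rw [Equiv.apply_symm_apply]
    · rw [Equiv.apply_symm_apply]
  have huB := (mem_PS.1 hu).1
  have hf0B : Below c.z0 f0 := huB.of_le (hue.trans g4)
  refine ⟨b, ?_, (f0, G0), g1, ?_, ?_, u, hu, hup, hue.trans g4, G,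
    Finset.subset_union_left.trans Finset.subset_union_left,
    Finset.subset_union_right.trans Finset.subset_union_left, ⟨u, ⟨h, hWit⟩, le_refl _⟩, ?_⟩
  · intro x hx
    exact ⟨hbN x hx, hn2.1 x⟩
  · refine ⟨fun τ hτ => ⟨g2.1 hτ, lt_trans (hf0B.1 hτ) hn1⟩, fun Q hQ => ⟨g2.2.1 Q hQ, ?_⟩,
      fun b hb => ⟨⟨(g2.2.2 b hb).1, lt_trans (hf0B.2.2 b hb) hn1⟩, (g2.2.2 b hb).2, hn2.1 _⟩⟩
    exact lt_trans ((hc.tr0.2 Q (f0.base.nd Q hQ).ctbl).1 (hf0B.2.1 Q hQ)) hn1
  · exact fun x hx => ⟨g3 x hx, hn2.1 x⟩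
  · unfold info
    rw [if_pos rfl]
    exact hDl

/-- the name at the first coordinate -/
theorem NM0 (hc : GoodCtx c) : NM c c.z0 = coh := by
  classical
  rw [NM_eq, hc.bk0, if_pos (cand_of hc hc.tr0 _ (cohGext hc))]

theorem exists_wit (hc : GoodCtx c) {p : Pr K} (hp : p ∈ PT c) :
    ∃ f, Wit (fib p c.z0) f := by
  by_cases h : (fib p c.z0).Nonempty
  · obtain ⟨_, ⟨s, hs, _⟩, _⟩ := hp c.z0 h
    rw [NM0 hc] at hs
    exact hs
  · rw [fib_empty h]
    exact ⟨fun _ => 0, fun s hs => absurd hs (Finset.notMem_empty _)⟩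

/-- more intervals -/
theorem ext0 (hc : GoodCtx c) {p : Pr K} (hp : p ∈ PT c) (hne : (fib p c.z0).Nonempty)
    {F : Finset Om1} (hF : fib p c.z0 ⊆ F) (hw : ∃ f, Wit F f) :
    ∃ q ∈ PT c, q ≤ p ∧ F ⊆ fib q c.z0 := by
  obtain ⟨h1, _, h3⟩ := hp c.z0 hne
  obtain ⟨q, hq, hqp, hFq, _⟩ := step hc.trUnb hp h1 hF (by
    rw [NM0 hc]
    exact ⟨cut c.z0 p, hw, le_refl _⟩) (fun Q hQ hζQ hR => Or.inl ((h3 Q hQ hζQ hR).mono
      (le_refl _) hF))
  exact ⟨q, hq, hqp, hFq⟩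

/-- the first coordinate can be added -/
theorem start0 (hc : GoodCtx c) {p : Pr K} (hp : p ∈ PT c) :
    ∃ q ∈ PT c, q ≤ p ∧ (fib q c.z0).Nonempty := by
  classical
  by_cases hne : (fib p c.z0).Nonempty
  · exact ⟨p, hp, le_refl _, hne⟩
  obtain ⟨p1, hp1, hle1, hA1, ht1⟩ := addTr hc.trUnb hp hc.tr0
  have hf1 : fib p1 c.z0 = ∅ := by
    rw [← fib_empty hne]
    ext x
    rw [mem_fib, mem_fib, ht1]
  obtain ⟨q, hq, hqp, _, hqF, hqg, _⟩ := step hc.trUnb hp1 hA1 (F := ∅) (by rw [hf1])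
    (by rw [NM0 hc]; exact ⟨cut c.z0 p1, ⟨fun _ => 0, fun s hs => absurd hs
      (Finset.notMem_empty _)⟩, le_refl _⟩)
    (fun Q _ _ _ => Or.inr fun x hx => absurd hx (Finset.notMem_empty _))
  by_cases hqn : (fib q c.z0).Nonempty
  · exact ⟨q, hq, hqp.trans hle1, hqn⟩
  · have hemp : fib q c.z0 ⊆ {qc.symm (Classical.arbitrary Om1, -1, 1)} := by
      rw [fib_empty hqn]
      exact Finset.empty_subset _
    obtain ⟨q', hq', hqq', hF, _⟩ := step hc.trUnb hq ((Pr_le.1 hqp).1 hA1)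
      (F := {qc.symm (Classical.arbitrary Om1, -1, 1)}) hemp (by
        rw [NM0 hc]
        refine ⟨cut c.z0 q, ⟨fun _ => 0, fun s hs => ?_⟩, le_refl _⟩
        rw [Finset.mem_singleton.1 hs, Equiv.apply_symm_apply]
        exact ⟨by norm_num, by norm_num⟩)
      (fun Q hQ hζQ hR => Or.inl ((hqg Q hQ hζQ hR).mono (le_refl _) hemp))
    exact ⟨q', hq', hqq'.trans (hqp.trans hle1), ⟨_, hF (Finset.mem_singleton_self _)⟩⟩

end Pool.Agent.H633.W
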