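import Pool.Agent.H633.W.Ground2

/-!
# The extension
-/

set_option autoImplicit false
set_option linter.unusedSectionVars false
set_option linter.unusedVariables false

namespace Pool.Agent.H633.W

open Cardinal Set Pool.Agent.Helper669.Forcing Pool.Agent.H915
open Pool.Agent.W684.FM (OmegaOnePreserved)

/-- the empty condition -/
def em0 (K : Type) [LinearOrder K] [Cod K] : Pr K where
  base :=
    { A := ∅
      Nd := ∅
      finA := finite_empty
      finN := finite_empty
      tr := fun _ h => absurd h (notMem_empty _)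
      nd := fun _ h => absurd h (notMem_empty _)
      cl := fun _ h => absurd h (notMem_empty _)
      gap := fun _ h => absurd h (notMem_empty _)
      cmp := fun _ h => absurd h (notMem_empty _) }
  top := ∅

theorem exists_ext (hI : ∃ κ : Cardinal.{0}, κ.IsInaccessible) :
    ∃ (P : Type) (_ : Preorder P), Nonempty P ∧ ∀ p : P, p ∈ OmegaOnePreserved P ∧
      p ∈ MMON P ∧ p ∈ fnot (BAN P) := by
  obtain ⟨κ, hκ⟩ := hI
  obtain ⟨C, c, hc⟩ := exists_big hκ
  have h0 : em0 (KK κ) ∈ PT c := by
    rintro ζ ⟨x, hx⟩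
    exact absurd (mem_fib.1 hx) (Finset.notMem_empty _)
  obtain ⟨q, hq, _, hqn⟩ := start0 hc.toGoodCtx h0
  exact ⟨Po c, inferInstance, ⟨⟨q, hq, hqn⟩⟩, fun p => ⟨om1_preserved hc.toGoodCtx p,
    mmo_holds hc p, not_ba hc.toGoodCtx p⟩⟩

end Pool.Agent.H633.W
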