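import Pool.Agent.H633.W.Club

/-!
# Genericity below a coordinate, adding nodes
-/

set_option autoImplicit false
set_option linter.unusedSectionVars false
set_option linter.unusedVariables false

namespace Pool.Agent.H633.W

open Cardinal Set Pool.Agent.Helper669.Forcing Pool.Agent.H915

variable {K : Type} [LinearOrder K] [WellFoundedLT K] [Cod K] {c : Ctx K}

/-- the base condition with the single node `N` -/
def oneC (N : Set K) (hN : Node N) : C0 K where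
  A := ∅
  Nd := {N}
  finA := finite_empty
  finN := finite_singleton N
  tr := fun τ h => absurd h (notMem_empty _)
  nd := fun Q h => by rw [mem_singleton_iff.1 h]; exact hN
  cl := fun Q _ τ h => absurd h (notMem_empty _)
  gap := fun Q _ τ h => absurd h (notMem_empty _)
  cmp := fun Q h R h' _ => by
    rw [mem_singleton_iff.1 h, mem_singleton_iff.1 h']
    exact Or.inl rfl

/-- the base condition with the nodes `γ`, `N`, `N ∩ γ` -/
def twoC (N : Set K) (hN : Node N) (γ : K) (hγ : Tr γ) (hγN : γ ∈ N) : C0 K where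
  A := {γ}
  Nd := {N, N ∩ Iio γ}
  finA := finite_singleton γ
  finN := (finite_singleton _).insert _
  tr := fun τ h => by rw [mem_singleton_iff.1 h]; exact hγ
  nd := by
    rintro Q (rfl | h)
    · exact hN
    · rw [mem_singleton_iff.1 h]; exact b_nodeRestr hN hγ
  cl := by
    rintro Q (rfl | h) τ hτ
    · rw [mem_singleton_iff.1 hτ]; exact Or.inr rfl
    · rw [mem_singleton_iff.1 hτ, mem_singleton_iff.1 h, inter_assoc, inter_self]
      exact Or.inr rfl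
  gap := by
    rintro Q (rfl | h) τ hτ ξ hξ h1 h2
    · rw [mem_singleton_iff.1 hτ] at h1 h2
      exact le_antisymm (h2 γ hγN (le_refl _)) h1
    · rw [mem_singleton_iff.1 hτ] at h1
      rw [mem_singleton_iff.1 h] at hξ
      exact absurd hξ.2 (not_lt.2 h1)
  cmp := by
    rintro Q (rfl | h) R (rfl | h') hs
    · exact Or.inl rfl
    · exfalso
      have := (hs γ rfl).2 (by rw [mem_singleton_iff.1 h']; exact inter_subset_right)
      exact absurd (this hγN) (lt_irrefl _)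
    · exfalso
      have := (hs γ rfl).1 (by rw [mem_singleton_iff.1 h]; exact inter_subset_right)
      exact absurd (this hγN) (lt_irrefl _)
    · exact Or.inl ((mem_singleton_iff.1 h).trans (mem_singleton_iff.1 h').symm)

theorem emptyTop_mem (s : C0 K) : (⟨s, ∅⟩ : Pr K) ∈ PT c := by
  rintro ζ ⟨x, hx⟩
  exact absurd (mem_fib.1 hx) (Finset.notMem_empty _)

theorem emptyTop_fib (s : C0 K) (ζ : K) : fib (⟨s, ∅⟩ : Pr K) ζ = ∅ := by
  apply fib_empty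
  rintro ⟨x, hx⟩
  exact absurd (mem_fib.1 hx) (Finset.notMem_empty _)

/-- a node `N` containing `γ` can be added to a condition below `γ` containing `N ∩ γ` -/
theorem liftNode (hT : TrUnb K) {N : Set K} (hN : Node N) {γ : K} (hγ : Tr γ) (hγN : γ ∈ N)
    {p : Pr K} (hp : p ∈ PS c γ) (hNp : N ∩ Iio γ ∈ p.base.Nd) :
    ∃ q ∈ PT c, q ≤ p ∧ N ∈ q.base.Nd ∧ γ ∈ q.base.A := by
  obtain ⟨q, h1, h2, h3, _⟩ := lift (c := c) hT (emptyTop_mem (twoC N hN γ hγ hγN)) (γ := γ) rfl hp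
    (by
      refine Pr_le.2 ⟨?_, ?_, ?_⟩
      · rintro τ ⟨h1, h2⟩
        rw [mem_singleton_iff.1 h1] at h2
        exact absurd h2 (lt_irrefl _)
      · rintro Q ⟨h1 | h1, h2⟩
        · rw [h1] at h2
          exact absurd (h2 hγN) (lt_irrefl _)
        · rw [mem_singleton_iff.1 h1]; exact hNp
      · intro a ha
        exact absurd (mem_cut_top.1 ha).1 (Finset.notMem_empty _))
  exact ⟨q, h1, h3, (Pr_le.1 h2).2.1 (Or.inl rfl), (Pr_le.1 h2).1 rfl⟩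

/-- genericity below `γ` -/
theorem genS (hc : GoodCtx c) {γ : K} (hγ : Tr γ) (E : List Om1 → Set (Pr K))
    (hE : ∀ a, ∀ e ∈ E a, Below γ e) : CClub fun N : Set K => γ ∈ N →
      ∀ p ∈ PS c γ, N ∩ Iio γ ∈ p.base.Nd → ∀ a, Out N a → ∀ e0 ∈ E a, p ≤ e0 →
        ∃ b, b.length = a.length ∧ Ins N b ∧ ∃ e ∈ E b, InX N e ∧
          ∃ u ∈ PS c γ, u ≤ p ∧ u ≤ e ∧
            ((fib p c.z0).Nonempty → List.Forall₂ (Dl (fib u c.z0)) b a) := by
  refine cc_mono (cc_and cc_node (genT hc E)) ?_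
  rintro N - ⟨hNN, hgen⟩ hγN p hp hN a ha e0 he0 hle
  obtain ⟨q, hq, hqp, hNq, _⟩ := liftNode hc.trUnb hNN hγ hγN hp hN
  obtain ⟨b, h1, h2, e, he, heN, u, hu, huq, hue, hd⟩ := hgen q hq hNq a ha e0 he0 (hqp.trans hle)
  refine ⟨b, h1, h2, e, he, heN, cut γ u, cut_mem hu γ,
    cut_le_of_below (mem_PS.1 hp).1 (huq.trans hqp), cut_le_of_below (hE b e he) hue, fun h => ?_⟩
  have hlt : c.z0 < γ := by
    obtain ⟨x, hx⟩ := h
    exact (mem_PS.1 hp).1.2.2 _ (mem_fib.1 hx)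
  rw [fib_cut u hlt]
  exact hd (h.mono (fib_mono hqp c.z0))

theorem gtwoClub (hc : GoodCtx c) {γ : K} (hγ : Tr γ) (nm : Finset Om1 → Set (Pr K)) :
    CClub fun N : Set K => γ ∈ N → Gtwo c (PS c γ) nm γ (N ∩ Iio (nx γ)) := by
  classical
  obtain ⟨hn1, hn2⟩ := nx_spec hc.trUnb γ
  let E : Set K → Finset Om1 → List Om1 → Set (Pr K) := fun Y F a =>
    {p' | a = [] ∧ p' ∈ PS c γ ∧ ∃ F', F ⊆ F' ∧ Fo nm p' F' ∧ Gnr c γ (PS c γ) nm Y p' F'}
  have cA : CClub fun N : Set K => ∀ Y : Set K, Y.Countable → cd Y ∈ N → ∀ F, FIn N F →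
      (γ ∈ N → ∀ p ∈ PS c γ, N ∩ Iio γ ∈ p.base.Nd → ∀ a, Out N a → ∀ e0 ∈ E Y F a, p ≤ e0 →
        ∃ b, b.length = a.length ∧ Ins N b ∧ ∃ e ∈ E Y F b, InX N e ∧
          ∃ u ∈ PS c γ, u ≤ p ∧ u ≤ e ∧
            ((fib p c.z0).Nonempty → List.Forall₂ (Dl (fib u c.z0)) b a)) :=
    cc_cd fun Y _ => cc_fin fun F => genS hc hγ (E Y F) fun a e he => (mem_PS.1 he.2.1).1
  have cB : CClub fun N : Set K => ∀ Y : Set K, Y.Countable → cd Y ∈ N → ∀ F, FIn N F →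
      ∀ e, InX N e → (∃ F', F ⊆ F' ∧ Fo nm e F' ∧ Gnr c γ (PS c γ) nm Y e F') →
        ∃ F', F ⊆ F' ∧ Fo nm e F' ∧ Gnr c γ (PS c γ) nm Y e F' ∧ FIn N F' := by
    refine cc_cd fun Y _ => cc_fin fun F => cc_pr fun e => ?_
    by_cases h : ∃ F', F ⊆ F' ∧ Fo nm e F' ∧ Gnr c γ (PS c γ) nm Y e F'
    · obtain ⟨F', h1, h2, h3⟩ := h
      exact cc_mono (cc_fIn F') fun N _ hN _ => ⟨F', h1, h2, h3, hN⟩
    · exact cc_true fun N h' => absurd h' h
  refine cc_mono (cc_and cc_node (cc_and cA cB)) ?_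
  rintro N - ⟨hNN, dA, dB⟩ hγN Y hY hYX hYg p hp hXp hYp F hF hFo
  rw [inter_inter_of_le hn1.le] at hXp
  have hYN : Y ⊆ N := hNN.sub Y hY hYX.1
  obtain ⟨p1, hp1, hle, F1, hFF, hFo1, hg1⟩ := hYg p hp hYp F hF hFo
  obtain ⟨b, hb, _, e, he, heN, u, hu, hup, hue, _⟩ := dA Y hY hYX.1 F (fun x hx => hYN (hF x hx))
    hγN p1 hp1 ((Pr_le.1 hle).2.1 hXp) [] (fun x hx => absurd hx List.not_mem_nil) p1
    ⟨rfl, hp1, F1, hFF, hFo1, hg1⟩ (le_refl _)
  obtain ⟨_, heP, hex⟩ := he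
  obtain ⟨F', h1, h2, h3, h4⟩ := dB Y hY hYX.1 F (fun x hx => hYN (hF x hx)) e heN hex
  exact ⟨u, hu, hup.trans hle, F', h1, fun x hx => ⟨h4 x hx, hn2.1 x⟩, h2.mono hue,
    h3.mono hue (Finset.Subset.refl _)⟩

theorem cand_of (hc : GoodCtx c) {γ : K} (hγ : Tr γ) (nm : Finset Om1 → Set (Pr K))
    (h : CClub fun N : Set K => γ ∈ N → Gext c (PS c γ) nm γ (N ∩ Iio (nx γ))) :
    Cand c (PS c γ) nm γ :=
  cc_mono (cc_and h (gtwoClub hc hγ nm)) fun N _ hN hγN => ⟨hN.1 hγN, hN.2 hγN⟩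

/-- nodes can be added -/
theorem addNode (hT : TrUnb K) {N : Set K} (hN : Node N) {e : Pr K} (he : e ∈ PT c)
    (hin : InX N e) : ∃ q ∈ PT c, q ≤ e ∧ N ∈ q.base.Nd := by
  obtain ⟨q, hq, h1, h2, _⟩ := amalgN (c := c) hT (emptyTop_mem (oneC N hN)) he (N := N) rfl hin
    (fun τ h => absurd h.1 (notMem_empty _)) (by
      intro Q hQ hc
      rw [mem_singleton_iff.1 hQ] at hc
      exact absurd hc (b_irrefl hN)) none (Or.inl ⟨rfl, fun ζ _ => emptyTop_fib _ ζ⟩)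
  exact ⟨q, hq, h2, (Pr_le.1 h1).2.1 rfl⟩

theorem addNode' (hT : TrUnb K) {φ : Set K → Prop} (hφ : CClub φ) {s : Set K} (hs : s.Countable)
    {e : Pr K} (he : e ∈ PT c) : ∃ N, Node N ∧ φ N ∧ Ini N ∧ s ⊆ N ∧ InX N e ∧
      ∃ q ∈ PT c, q ≤ e ∧ N ∈ q.base.Nd := by
  obtain ⟨N, h1, _, h2, h3, h4, h5⟩ := cc_exists (cc_and cc_node (cc_and hφ (cc_and cc_ini
    (cc_inX e)))) hs
  obtain ⟨q, hq⟩ := addNode (c := c) hT h2 he h5
  exact ⟨N, h2, h3, h4, h1, h5, q, hq⟩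

end Pool.Agent.H633.W
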