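import Pool.Agent.H633.W.Two

/-!
# Preorders of size `ℵ₁` which preserve `ω₁` preserve the reflection property
-/

set_option autoImplicit false
set_option linter.unusedSectionVars false
set_option linter.unusedVariables false

namespace Pool.Agent.H633.W

open Cardinal Set Pool.Agent.Helper669.Forcing Pool.Agent.H915
open Pool.Agent.W684.FM (IsPreN IsDenseN IsFilterN)

variable {K : Type} [LinearOrder K] [WellFoundedLT K] [Cod K] {c : Ctx K}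

theorem head_lt {R : Om1 → Om1 → Prop} {a b : List Om1} (h : List.Forall₂ R a b) (hb : b ≠ []) :
    R (gt a 0) (gt b 0) := by
  cases h with
  | nil => exact absurd rfl hb
  | cons h1 h2 =>
    unfold gt
    simp only [List.getD_cons_zero]
    exact h1

theorem good2 (hc : BigCtx c) {p1 : Po c}
    {R : Om1 → Om1 → Set (Po c)} (h : p1 ∈ IsPreN R) {T2 : Om1 → Set (Two R p1 h)}
    {x0 : Two R p1 h} (hSP : SP T2 x0) (A : List Om1 → Set (Two R p1 h))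
    (hA : ∀ a, Down (A a)) :
    ∃ x' ≤ x0, ∃ ν : Om1, ∀ a : List Om1, (∀ y ∈ a, ν ≤ y) → ∀ y ≤ x', y ∈ A a →
      ∃ y' ≤ y, ∃ b, (∀ t ∈ b, t < ν) ∧ List.Forall₂ (Dl y'.fst.re) b a ∧ y' ∈ A b := by
  classical
  by_contra hbad
  push Not at hbad
  -- the conditions deciding a counterexample
  let B : Om1 → Om1 → Om1 × List Om1 → Set (Po c) := fun δ z j =>
    {w | ∃ hw : w ≤ p1, w ∈ meets (R j.1 z) ∧ (⟨w, j.1, hw⟩ : Two R p1 h) ≤ x0 ∧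
      (⟨w, j.1, hw⟩ : Two R p1 h) ∈ A j.2 ∧ (∀ y ∈ j.2, δ ≤ y) ∧
      ∀ y' ≤ (⟨w, j.1, hw⟩ : Two R p1 h), ∀ b, (∀ t ∈ b, t < δ) →
        List.Forall₂ (Dl y'.fst.re) b j.2 → y' ∉ A b}
  have hB : ∀ δ z j, Down (B δ z j) := by
    rintro δ z j w ⟨hw, h1, h2, h3, h4, h5⟩ v hv
    have hle : (⟨v, j.1, hv.trans hw⟩ : Two R p1 h) ≤ ⟨w, j.1, hw⟩ :=
      ⟨hv, pre_refl h (hv.trans hw) _⟩
    exact ⟨hv.trans hw, down_meets _ _ h1 _ hv, hle.trans h2, hA _ _ h3 _ hle, h4,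
      fun y' hy' => h5 y' (hy'.trans hle)⟩
  have hBd : ∀ δ z, ∀ w : Po c, ∀ hw : w ≤ p1, (⟨w, z, hw⟩ : Two R p1 h) ≤ x0 →
      ∃ w' ≤ w, ∃ j, w' ∈ B δ z j := by
    intro δ z w hw hle
    obtain ⟨a, ha, y, hy, hyA, hy2⟩ := hbad ⟨w, z, hw⟩ hle δ
    exact ⟨y.fst, hy.1, (y.snd, a), y.le1, hy.2, hy.trans hle, hyA, ha,
      fun y' hy' b hb hba => hy2 y' hy' b hb hba⟩
  -- the least possibility
  let Sel : Om1 → Om1 → Om1 × List Om1 → Set (Po c) := fun δ z j =>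
    {w | w ∈ B δ z j ∧ ∀ j', WellOrderingRel j' j → w ∈ fnot (B δ z j')}
  have hSel : ∀ δ z j, Down (Sel δ z j) := fun δ z j w hw v hv =>
    ⟨hB _ _ _ _ hw.1 _ hv, fun j' hj' => down_fnot _ _ (hw.2 j' hj') _ hv⟩
  have hSelS : ∀ δ z j j' w, w ∈ Sel δ z j → w ∈ Sel δ z j' → j = j' := by
    intro δ z j j' w h1 h2
    rcases trichotomous_of WellOrderingRel j j' with h3 | h3 | h3
    · exact absurd h1.1 (h2.2 j h3 w (le_refl _))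
    · exact h3
    · exact absurd h2.1 (h1.2 j' h3 w (le_refl _))
  have hSelD : ∀ δ z w, (∃ w' ≤ w, ∃ j, w' ∈ B δ z j) → ∃ w' ≤ w, ∃ j, w' ∈ Sel δ z j := by
    intro δ z w hex
    have hwf : WellFounded (WellOrderingRel (α := Om1 × List Om1)) := IsWellFounded.wf
    obtain ⟨w', hw', j, hj⟩ := hex
    obtain ⟨m, ⟨v, hv, hm⟩, hmin⟩ := hwf.has_min {j | ∃ v ≤ w, v ∈ B δ z j} ⟨j, w', hw', hj⟩
    refine ⟨v, hv, m, hm, fun j' hj' q hq hqB => ?_⟩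
    exact hmin j' ⟨q, hq.trans hv, hqB⟩ hj'
  -- the name of the sequence
  let V : Om1 → Om1 → List Om1 → Set (Po c) := fun δ z a => meets (⋃ z', Sel δ z (z', a))
  have hVmem : ∀ δ z z' a w, w ∈ Sel δ z (z', a) → w ∈ V δ z a := fun δ z z' a w hw =>
    meets_of_mem (mem_iUnion.2 ⟨z', hw⟩)
  have hVex : ∀ δ z a w, w ∈ V δ z a → ∃ w' ≤ w, ∃ z', w' ∈ Sel δ z (z', a) := by
    intro δ z a w hw
    obtain ⟨w', h1, s, h2, h3⟩ := hw w (le_refl _)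
    obtain ⟨z', h4⟩ := mem_iUnion.1 h2
    exact ⟨w', h1, z', hSel _ _ _ _ h4 _ h3⟩
  have hV : IsSeq V := by
    refine ⟨fun δ z a => reg_meets _, ?_, ?_⟩
    · intro δ z a b u ha hb
      obtain ⟨w, hw, z1, h1⟩ := hVex _ _ _ _ ha
      obtain ⟨w', hw', z2, h2⟩ := hVex _ _ _ w (down_meets _ _ hb _ hw)
      have := hSelS _ _ _ _ _ (hSel _ _ _ _ h1 _ hw') h2
      exact (Prod.ext_iff.1 this).2
    · intro δ z a u ha
      obtain ⟨w, hw, z1, h1⟩ := hVex _ _ _ _ ha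
      obtain ⟨_, _, _, _, h2, _⟩ := h1.1
      exact h2
  obtain ⟨u1, hu1, col, hcd, hct, hch⟩ := sigma hc hV x0.fst
  let x1 : Two R p1 h := x0.str u1 hu1
  have hx1 : x1 ≤ x0 := x0.str_le u1 hu1
  -- the pairs in the generic filter
  let S : ℕ → Om1 → Om1 → List Om1 → Set (Two R p1 h) := fun n δ z a =>
    {y | ∃ z', y.fst ∈ Sel δ z (z', a) ∧ y.fst ∈ meets (R y.snd z') ∧ y.fst ∈ col δ z n}
  have hS : ∀ n δ z a, Down (S n δ z a) := by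
    rintro n δ z a y ⟨z', h1, h2, h3⟩ y' hy'
    exact ⟨z', hSel _ _ _ _ h1 _ hy'.1, pre_trans h y'.le1 hy'.2 (down_meets _ _ h2 _ hy'.1),
      hcd _ _ _ _ h3 _ hy'.1⟩
  have hS1 : ∀ n δ z a y, y ∈ S n δ z a → y ∈ A a ∧ ∀ y' ≤ y, ∀ b, (∀ t ∈ b, t < δ) →
      List.Forall₂ (Dl y'.fst.re) b a → y' ∉ A b := by
    rintro n δ z a y ⟨z', ⟨⟨hw, h1, h2, h3, h4, h5⟩, _⟩, h6, h7⟩
    have hle : y ≤ (⟨y.fst, z', hw⟩ : Two R p1 h) := ⟨le_refl _, h6⟩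
    exact ⟨hA _ _ h3 _ hle, fun y' hy' => h5 y' (hy'.trans hle)⟩
  have hS2 : ∀ n δ z a y, y ∈ S n δ z a → a ≠ [] := by
    intro n δ z a y hy ha
    obtain ⟨h1, h2⟩ := hS1 _ _ _ _ _ hy
    rw [ha] at h1 h2
    exact h2 y (le_refl _) [] (by simp) List.Forall₂.nil h1
  have hS3 : ∀ n δ z a δ' z' a' y, y ∈ S n δ z a → y ∈ S n δ' z' a' → (δ, z) ≠ (δ', z') →
      ∃ y' ≤ y, Cmpb y'.fst.re a a' := by
    rintro n δ z a δ' z' a' y ⟨z1, h1, _, h2⟩ ⟨z2, h3, _, h4⟩ hne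
    obtain ⟨w, hw, h5⟩ := hch y.fst n δ z δ' z' a a' hne h2 h4 (hVmem _ _ _ _ _ h1)
      (hVmem _ _ _ _ _ h3)
    exact ⟨y.str w hw, y.str_le w hw, h5⟩
  have hS4 : ∀ y ≤ x1, ∀ δ0 : Om1, ∃ y' ≤ y, ∃ n δ z a, δ0 ≤ δ ∧ y' ∈ S n δ z a := by
    intro y hy δ0
    obtain ⟨δ, hδ⟩ := exists_gt_om (max δ0 y.snd)
    obtain ⟨w, hw, ⟨z', a⟩, hj⟩ := hSelD δ y.snd y.fst
      (hBd δ y.snd y.fst y.le1 (hy.trans hx1))
    obtain ⟨w', hw', n, hn⟩ := hct w (hw.trans hy.1) δ y.snd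
      ((le_max_right _ _).trans_lt hδ) a (hVmem _ _ _ _ _ hj)
    have hw'p : w' ≤ p1 := hw'.trans (hw.trans y.le1)
    obtain ⟨_, h1, _⟩ := hj.1
    refine ⟨⟨w', z', hw'p⟩, ⟨hw'.trans hw, down_meets _ _ h1 _ hw'⟩, n, δ, y.snd, a,
      ((le_max_left _ _).trans_lt hδ).le, z', hSel _ _ _ _ hj _ hw', pre_refl h hw'p _, hn⟩
  -- first bound
  have hbd : ∀ (δ : Om1) (a : List Om1), ∃ β, δ < β ∧ ∀ t ∈ a, t < β := by
    intro δ a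
    obtain ⟨β, hβ⟩ := exists_bd_om (s := {x | x ∈ δ :: a}) (List.finite_toSet _).countable
    exact ⟨β, hβ δ (by simp), fun t ht => hβ t (by simp [ht])⟩
  obtain ⟨x2, hx2, β1, hβ1⟩ := bl (hSP.mono hx1) (I := ℕ × ℚ) (fun i β =>
      {y | (∀ y' ≤ y, ∀ δ z a, y' ∈ S i.1 δ z a → ¬ Ub y'.fst.re (gt a 0) i.2) ∨
        ∃ δ z a, δ < β ∧ (∀ t ∈ a, t < β) ∧ y ∈ S i.1 δ z a ∧ Ub y.fst.re (gt a 0) i.2}) (by
    rintro i β y (h1 | ⟨δ, z, a, h1, h2, h3, h4⟩) y' hy'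
    · exact Or.inl fun y'' hy'' => h1 y'' (hy''.trans hy')
    · exact Or.inr ⟨δ, z, a, h1, h2, hS _ _ _ _ _ h3 _ hy', h4.mono (re_mono hy'.1)⟩) (by
    rintro i β β' hle y (h1 | ⟨δ, z, a, h1, h2, h3, h4⟩)
    · exact Or.inl h1
    · exact Or.inr ⟨δ, z, a, h1.trans_le hle, fun t ht => (h2 t ht).trans_le hle, h3, h4⟩) (by
    intro i y hy
    by_cases hex : ∃ y' ≤ y, ∃ δ z a, y' ∈ S i.1 δ z a ∧ Ub y'.fst.re (gt a 0) i.2
    · obtain ⟨y', hy', δ, z, a, h1, h2⟩ := hex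
      obtain ⟨β, hβ, hβ'⟩ := hbd δ a
      exact ⟨y', hy', β, Or.inr ⟨δ, z, a, hβ, hβ', h1, h2⟩⟩
    · push Not at hex
      exact ⟨y, le_refl _, Classical.arbitrary _, Or.inl fun y' hy' δ z a h1 =>
        hex y' hy' δ z a h1⟩)
  -- second bound
  obtain ⟨x3, hx3, β2, hβ2⟩ := bl (hSP.mono (hx2.trans hx1)) (I := ℕ) (fun n β =>
      {y | (∀ y' ≤ y, ∀ δ z a, β1 ≤ δ → y' ∉ S n δ z a) ∨
        ∃ δ z a, β1 ≤ δ ∧ δ < β ∧ (∀ t ∈ a, t < β) ∧ y ∈ S n δ z a}) (by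
    rintro i β y (h1 | ⟨δ, z, a, h1, h2, h3, h4⟩) y' hy'
    · exact Or.inl fun y'' hy'' => h1 y'' (hy''.trans hy')
    · exact Or.inr ⟨δ, z, a, h1, h2, h3, hS _ _ _ _ _ h4 _ hy'⟩) (by
    rintro i β β' hle y (h1 | ⟨δ, z, a, h1, h2, h3, h4⟩)
    · exact Or.inl h1
    · exact Or.inr ⟨δ, z, a, h1, h2.trans_le hle, fun t ht => (h3 t ht).trans_le hle, h4⟩) (by
    intro n y hy
    by_cases hex : ∃ y' ≤ y, ∃ δ z a, β1 ≤ δ ∧ y' ∈ S n δ z a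
    · obtain ⟨y', hy', δ, z, a, h1, h2⟩ := hex
      obtain ⟨β, hβ, hβ'⟩ := hbd δ a
      exact ⟨y', hy', β, Or.inr ⟨δ, z, a, h1, hβ, hβ', h2⟩⟩
    · push Not at hex
      exact ⟨y, le_refl _, Classical.arbitrary _, Or.inl hex⟩)
  -- the contradiction
  obtain ⟨y, hy, n, δ', z', a', hδ', hyS⟩ := hS4 x3 (hx3.trans hx2) (max β1 β2)
  obtain ⟨y1, hy1, h1⟩ := hβ2 n y hy
  rcases h1 with h1 | ⟨δ'', z'', a'', h2, h3, h4, h5⟩
  · exact h1 y1 (le_refl _) δ' z' a' ((le_max_left _ _).trans hδ') (hS _ _ _ _ _ hyS _ hy1)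
  have hlt : δ'' < δ' := h3.trans_le ((le_max_right _ _).trans hδ')
  have hy1S := hS _ _ _ _ _ hyS _ hy1
  have hne : (δ'', z'') ≠ (δ', z') := by
    intro h6
    exact absurd hlt (by rw [show δ'' = δ' from (Prod.ext_iff.1 h6).1]; exact lt_irrefl _)
  obtain ⟨y1b, hy1b, h6⟩ := hS3 _ _ _ _ _ _ _ _ h5 hy1S hne
  rcases h6 with h6 | h6
  · exact (hS1 _ _ _ _ _ hyS).2 y1b (hy1b.trans hy1) a''
      (fun t ht => (h4 t ht).trans_le ((le_max_right _ _).trans hδ')) h6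
      (hA _ _ (hS1 _ _ _ _ _ h5).1 _ hy1b)
  · obtain ⟨q, hq1, hq2⟩ := head_lt h6 (hS2 _ _ _ _ _ h5)
    obtain ⟨y2, hy2, h8⟩ := hβ1 (n, q) y1b (hy1b.trans (hy1.trans (hy.trans hx3)))
    rcases h8 with h8 | ⟨δ3, z3, a3, h9, h10, h11, h12⟩
    · exact h8 y2 (le_refl _) δ' z' a' (hS _ _ _ _ _ hy1S _ (hy2.trans hy1b))
        (hq1.mono (re_mono hy2.1))
    have hlt3 : δ3 < δ'' := h9.trans_le h2
    have hne3 : (δ3, z3) ≠ (δ'', z'') := by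
      intro h13
      exact absurd hlt3 (by rw [show δ3 = δ'' from (Prod.ext_iff.1 h13).1]; exact lt_irrefl _)
    obtain ⟨y3, hy3, h13⟩ := hS3 _ _ _ _ _ _ _ _ h11 (hS _ _ _ _ _ h5 _ (hy2.trans hy1b)) hne3
    rcases h13 with h13 | h13
    · exact (hS1 _ _ _ _ _ h5).2 y3 (hy3.trans (hy2.trans hy1b)) a3
        (fun t ht => (h10 t ht).trans_le h2) h13 (hA _ _ (hS1 _ _ _ _ _ h11).1 _ hy3)
    · have h14 := head_lt h13 (hS2 _ _ _ _ _ h11)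
      obtain ⟨f, hf⟩ := witP hc.toGoodCtx y3.fst
      have k1 := hf.dl h14
      have k2 := hf.ub (h12.mono (re_mono hy3.1))
      have k3 := hf.lb (hq2.mono (re_mono (hy3.trans hy2).1))
      exact lt_asymm (k1.trans k2) k3

end Pool.Agent.H633.W
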