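import Pool.Agent.H633.W.NotBA

/-!
# The ground model data
-/

set_option autoImplicit false
set_option linter.unusedSectionVars false
set_option linter.unusedVariables false
set_option linter.deprecated false

namespace Pool.Agent.H633.W

open Cardinal Set Pool.Agent.H915

/-- the well-ordered set `κ` -/
abbrev KK (κ : Cardinal.{0}) : Type := κ.ord.ToType

section Basic

variable {κ : Cardinal.{0}}

theorem kk_mk : #(KK κ) = κ := Cardinal.mk_ord_toType κ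

theorem kk_iio (k : KK κ) : #(Iio k) < κ := Cardinal.mk_Iio_toType_ord_lt k

theorem kk_bdd (h : κ.IsInaccessible) {I : Type} (hI : #I < κ) (f : I → KK κ) :
    ∃ b, ∀ i, f i < b := by
  by_contra hcon
  push Not at hcon
  have h1 : IsCofinal (range f) := by
    intro b
    obtain ⟨i, hi⟩ := hcon b
    exact ⟨f i, ⟨i, rfl⟩, hi⟩
  have h2 := Order.cof_le h1
  rw [Ordinal.cof_toType, h.isRegular.cof_ord] at h2
  exact absurd (Cardinal.mk_range_le.trans_lt hI) (not_lt.2 h2)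

theorem one_lt (h : κ.IsInaccessible) : ℵ₁ < κ := by
  have h2 : (2 : Cardinal.{0}) ^ ℵ₀ < κ := h.isStrongLimit.two_power_lt h.aleph0_lt
  refine lt_of_le_of_lt ?_ h2
  rw [← Cardinal.succ_aleph0]
  exact Order.succ_le_of_lt (cantor _)

theorem pow_lt (h : κ.IsInaccessible) {I : Type} (hI : #I < κ) : #(Set I) < κ := by
  rw [Cardinal.mk_set]
  exact h.isStrongLimit.two_power_lt hI

theorem prod_lt (h : κ.IsInaccessible) {I J : Type} (hI : #I < κ) (hJ : #J < κ) :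
    #(I × J) < κ := by
  simp only [Cardinal.mk_prod, Cardinal.lift_id]
  exact Cardinal.mul_lt_of_lt h.aleph0_lt.le hI hJ

theorem sum_lt (h : κ.IsInaccessible) {I J : Type} (hI : #I < κ) (hJ : #J < κ) :
    #(I ⊕ J) < κ := by
  simp only [Cardinal.mk_sum, Cardinal.lift_id]
  exact Cardinal.add_lt_of_lt h.aleph0_lt.le hI hJ

theorem om1_lt (h : κ.IsInaccessible) : #Om1 < κ := by rw [mk_om1]; exact one_lt h

theorem sub_lt {I : Type} {s : Set I} (hI : #I < κ) : #s < κ :=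
  (Cardinal.mk_set_le s).trans_lt hI

theorem kk_gt (h : κ.IsInaccessible) (k : KK κ) : ∃ b, k < b := by
  obtain ⟨b, hb⟩ := kk_bdd h (I := Unit) (by
    rw [Cardinal.mk_unit]; exact Cardinal.one_lt_aleph0.trans h.aleph0_lt) fun _ => k
  exact ⟨b, hb ()⟩

theorem kk_ne (h : κ.IsInaccessible) : Nonempty (KK κ) := by
  rw [← mk_ne_zero_iff, kk_mk]
  exact h.ne_zero

/-- recursion -/
theorem kk_rec (h : κ.IsInaccessible) {W : Type} [LinearOrder W] [WellFoundedLT W]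
    (hW : ∀ w : W, #(Iio w) < κ) (B : W → KK κ) (G : KK κ → KK κ) :
    ∃ t : W → KK κ, ∀ i, B i < t i ∧ ∀ j < i, t j < t i ∧ G (t j) < t i := by
  classical
  have hex : ∀ (i : W) (rec : (j : W) → j < i → KK κ), ∃ b, B i < b ∧ ∀ j, ∀ hj : j < i,
      rec j hj < b ∧ G (rec j hj) < b := by
    intro i rec
    obtain ⟨b1, hb1⟩ := kk_bdd h (hW i) fun j => rec j.1 j.2
    obtain ⟨b2, hb2⟩ := kk_bdd h (hW i) fun j => G (rec j.1 j.2)
    obtain ⟨b3, hb3⟩ := kk_gt h (B i)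
    refine ⟨max b3 (max b1 b2), lt_max_of_lt_left hb3, fun j hj => ⟨?_, ?_⟩⟩
    · exact lt_max_of_lt_right (lt_max_of_lt_left (hb1 ⟨j, hj⟩))
    · exact lt_max_of_lt_right (lt_max_of_lt_right (hb2 ⟨j, hj⟩))
  choose F hF1 hF2 using hex
  let t : W → KK κ := (wellFounded_lt (α := W)).fix F
  have ht : ∀ i, t i = F i fun j _ => t j := fun i => by
    simp only [t]
    rw [WellFounded.fix_eq]
  refine ⟨t, fun i => ⟨?_, fun j hj => ?_⟩⟩
  · rw [ht i]
    exact hF1 i _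
  · rw [ht i]
    exact hF2 i (fun j _ => t j) j hj

theorem exists_cod (h : κ.IsInaccessible) (H : KK κ → KK κ) : ∃ C : Cod (KK κ),
    ∀ s : Set (KK κ), s.Countable → ∀ x ∈ s, x < C.cd s ∧ H x < C.cd s := by
  classical
  have hcof : #{s : Set (KK κ) // #s < κ} = κ := by
    have := Cardinal.mk_subset_mk_lt_cof (α := KK κ) (by rw [kk_mk]; exact h.isStrongPrelimit)
    rw [kk_mk] at this
    rw [h.isRegular.cof_ord] at this
    exact this
  have hc : #{s : Set (KK κ) // s.Countable} ≤ #(KK κ) := by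
    rw [kk_mk]
    refine le_trans ?_ hcof.le
    refine mk_le_of_injective (f := fun s => ⟨s.1, ?_⟩) ?_
    · exact (le_aleph0_iff_set_countable.2 s.2).trans_lt h.aleph0_lt
    · intro a b hab
      exact Subtype.ext (by simpa using congrArg Subtype.val hab)
  obtain ⟨f⟩ := hc
  have hbd : ∀ s : Set (KK κ), s.Countable → ∃ b, ∀ x ∈ s, x < b ∧ H x < b := by
    intro s hs
    have h1 : #s < κ := (le_aleph0_iff_set_countable.2 hs).trans_lt h.aleph0_lt
    obtain ⟨b1, hb1⟩ := kk_bdd h h1 fun x => x.1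
    obtain ⟨b2, hb2⟩ := kk_bdd h h1 fun x => H x.1
    exact ⟨max b1 b2, fun x hx => ⟨lt_max_of_lt_left (hb1 ⟨x, hx⟩),
      lt_max_of_lt_right (hb2 ⟨x, hx⟩)⟩⟩
  have hne := kk_ne h
  choose! bs hbs using hbd
  let B : KK κ → KK κ := fun ξ => if hξ : ∃ s, f s = ξ then bs hξ.choose.1 else ξ
  obtain ⟨g, hg⟩ := kk_rec h (W := KK κ) kk_iio B id
  have hgm : ∀ i j, i < j → g i < g j := fun i j hij => ((hg j).2 i hij).1
  have hginj : Function.Injective g := by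
    intro i j hij
    rcases lt_trichotomy i j with h1 | h1 | h1
    · exact absurd hij (hgm i j h1).ne
    · exact h1
    · exact absurd hij.symm (hgm j i h1).ne
  have hle : (ℵ₁ : Cardinal.{0}).ord ≤ κ.ord := Cardinal.ord_le_ord.2 (one_lt h).le
  let e := Ordinal.initialSegToType hle
  refine ⟨⟨fun s => if hs : s.Countable then g (f ⟨s, hs⟩) else hne.some, ?_, e, e.strictMono⟩, ?_⟩
  · intro s t hs ht hst
    simp only [dif_pos hs, dif_pos ht] at hst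
    exact congrArg Subtype.val (f.injective (hginj hst))
  · intro s hs x hx
    simp only [dif_pos hs]
    have h1 := (hg (f ⟨s, hs⟩)).1
    have hex : ∃ s', f s' = f ⟨s, hs⟩ := ⟨_, rfl⟩
    have h2 : B (f ⟨s, hs⟩) = bs s := by
      simp only [B]
      rw [dif_pos hex, f.injective hex.choose_spec]
    rw [h2] at h1
    exact ⟨(hbs s hs x hx).1.trans h1, (hbs s hs x hx).2.trans h1⟩

theorem exists_Tr (h : κ.IsInaccessible) [Cod (KK κ)]
    (grow : ∀ s : Set (KK κ), s.Countable → ∀ x ∈ s, x < cd s) (H : KK κ → KK κ) (k : KK κ) :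
    ∃ τ, k < τ ∧ Tr τ ∧ ∀ γ < τ, H γ < τ := by
  classical
  have hG : ∀ ξ : KK κ, ∃ b, (∀ s : Set (KK κ), s.Countable → s ⊆ Iio ξ → cd s < b) ∧
      ∀ γ ≤ ξ, H γ < b := by
    intro ξ
    obtain ⟨b1, hb1⟩ := kk_bdd h (pow_lt h (kk_iio ξ)) fun s : Set (Iio ξ) =>
      (cd (Subtype.val '' s) : KK κ)
    obtain ⟨b2, hb2⟩ := kk_bdd h (kk_iio ξ) fun γ => H γ.1
    obtain ⟨b3, hb3⟩ := kk_gt h (H ξ)
    refine ⟨max b1 (max b2 b3), fun s hs hsξ => ?_, fun γ hγ => ?_⟩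
    · refine lt_max_of_lt_left ?_
      have h1 := hb1 {x | x.1 ∈ s}
      have h2 : (Subtype.val '' {x : Iio ξ | x.1 ∈ s} : Set (KK κ)) = s := by
        ext x
        constructor
        · rintro ⟨y, hy, rfl⟩
          exact hy
        · intro hx
          exact ⟨⟨x, hsξ hx⟩, hx, rfl⟩
      rwa [h2] at h1
    · rcases lt_or_eq_of_le hγ with h1 | h1
      · exact lt_max_of_lt_right (lt_max_of_lt_left (hb2 ⟨γ, h1⟩))
      · rw [h1]
        exact lt_max_of_lt_right (lt_max_of_lt_right hb3)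
  choose G hG1 hG2 using hG
  obtain ⟨b0, hb0⟩ := kk_bdd h (sum_lt h (om1_lt h) (J := Unit) (by
    rw [Cardinal.mk_unit]; exact Cardinal.one_lt_aleph0.trans h.aleph0_lt))
      (fun i => match i with
        | Sum.inl x => (om x : KK κ)
        | Sum.inr _ => k)
  obtain ⟨t, ht⟩ := kk_rec h (W := Om1) (fun w => sub_lt (om1_lt h)) (fun _ => b0) G
  obtain ⟨τ0, hτ0⟩ := kk_bdd h (om1_lt h) t
  let S : Set (KK κ) := {b | ∀ i, t i < b}
  have hS : S.Nonempty := ⟨τ0, hτ0⟩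
  let τ := (wellFounded_lt (α := KK κ)).min S hS
  have hτ1 : ∀ i, t i < τ := (wellFounded_lt (α := KK κ)).min_mem S hS
  have hτ2 : ∀ x < τ, ∃ i, x ≤ t i := by
    intro x hx
    by_contra hcon
    push Not at hcon
    exact (wellFounded_lt (α := KK κ)).not_lt_min S (x := x) hcon hx
  have hb0τ : b0 < τ := (ht (Classical.arbitrary _)).1.trans (hτ1 _)
  have hGτ : ∀ i, G (t i) < τ := by
    intro i
    obtain ⟨j, hj⟩ := exists_gt_om i
    exact ((ht j).2 i hj).2.trans (hτ1 j)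
  refine ⟨τ, (hb0 (Sum.inr ())).trans hb0τ, ⟨fun x => (hb0 (Sum.inl x)).trans hb0τ, ?_⟩, ?_⟩
  · intro s hs
    constructor
    · intro hsτ
      have h1 : ∀ x : s, ∃ i, x.1 ≤ t i := fun x => hτ2 x.1 (hsτ x.2)
      choose i hi using h1
      have : Countable s := hs.to_subtype
      obtain ⟨j, hj⟩ := exists_bd_om (countable_range i)
      refine (hG1 (t j) s hs fun x hx => ?_).trans (hGτ j)
      exact lt_of_le_of_lt (hi ⟨x, hx⟩) ((ht j).2 _ (hj _ ⟨⟨x, hx⟩, rfl⟩)).1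
    · intro hcd x hx
      exact (grow s hs x hx).trans hcd
  · intro γ hγ
    obtain ⟨i, hi⟩ := hτ2 γ hγ
    exact (hG2 _ _ hi).trans (hGτ i)

/-- a small filtration gives an injection -/
theorem kk_cover (h : κ.IsInaccessible) {Z : Type} (B : KK κ → Set Z) (hB : ∀ ζ, #(B ζ) < κ) :
    ∃ j : Z → KK κ, ∀ x y, (∃ ζ, x ∈ B ζ) → (∃ ζ, y ∈ B ζ) → j x = j y → x = y := by
  classical
  have h1 : ∀ ζ, ∃ j : B ζ → KK κ, Function.Injective j := by
    intro ζ
    have h2 : #(B ζ) ≤ #(KK κ) := by rw [kk_mk]; exact (hB ζ).le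
    obtain ⟨e⟩ := h2
    exact ⟨e, e.injective⟩
  choose j hj using h1
  have h2 : #(KK κ × KK κ) ≤ #(KK κ) := by
    simp only [Cardinal.mk_prod, Cardinal.lift_id, kk_mk]
    exact (Cardinal.mul_eq_self h.aleph0_lt.le).le
  obtain ⟨e⟩ := h2
  have hne := kk_ne h
  refine ⟨fun x => if hx : ∃ ζ, x ∈ B ζ then e (hx.choose, j _ ⟨x, hx.choose_spec⟩) else hne.some,
    ?_⟩
  intro x y hx hy hxy
  simp only [dif_pos hx, dif_pos hy] at hxy
  have h3 := Prod.mk.inj (e.injective hxy)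
  have h4 : ∀ (ζ ζ' : KK κ) (x y : Z) (hx : x ∈ B ζ) (hy : y ∈ B ζ'), ζ = ζ' →
      j ζ ⟨x, hx⟩ = j ζ' ⟨y, hy⟩ → x = y := by
    rintro ζ ζ' x y hx hy rfl h5
    exact congrArg Subtype.val (hj _ h5)
  exact h4 _ _ x y hx.choose_spec hy.choose_spec h3.1 h3.2

/-- the least index of a member of a filtration is bounded -/
theorem kk_enum (h : κ.IsInaccessible) {Z : Type} [Nonempty Z] (B : KK κ → Set Z)
    (hB : ∀ ζ, #(B ζ) < κ) : ∃ (en : KK κ → Z) (H : KK κ → KK κ), ∀ ζ, ∀ x ∈ B ζ,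
      ∃ k < H ζ, en k = x := by
  classical
  obtain ⟨j, hj⟩ := kk_cover h B hB
  have h1 : ∀ ζ, ∃ b, ∀ x : B ζ, j x.1 < b := fun ζ => kk_bdd h (hB ζ) fun x => j x.1
  choose H hH using h1
  refine ⟨fun k => if hk : ∃ x, (∃ ζ, x ∈ B ζ) ∧ j x = k then hk.choose
    else Classical.arbitrary Z, H, fun ζ x hx => ⟨j x, hH ζ ⟨x, hx⟩, ?_⟩⟩
  have hex : ∃ y, (∃ ζ, y ∈ B ζ) ∧ j y = j x := ⟨x, ⟨ζ, hx⟩, rfl⟩
  simp only [dif_pos hex]
  exact hj _ _ hex.choose_spec.1 ⟨ζ, hx⟩ hex.choose_spec.2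

/-- bookkeeping -/
theorem kk_book (h : κ.IsInaccessible) {Z : Type} [Nonempty Z] (B : KK κ → Set Z)
    (hB : ∀ ζ, #(B ζ) < κ) (T : Set (KK κ)) (hT : ∀ k, ∃ τ, k < τ ∧ τ ∈ T) :
    ∃ bk : KK κ → Z, ∀ ζ, ∀ x ∈ B ζ, ∀ k, ∃ γ, k < γ ∧ γ ∈ T ∧ bk γ = x := by
  classical
  obtain ⟨j, hj⟩ := kk_cover h B hB
  have h1 : #(KK κ × KK κ) ≤ #T := by
    simp only [Cardinal.mk_prod, Cardinal.lift_id, kk_mk]
    rw [Cardinal.mul_eq_self h.aleph0_lt.le]
    by_contra hcon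
    obtain ⟨b, hb⟩ := kk_bdd h (not_le.1 hcon) fun x : T => x.1
    obtain ⟨τ, h2, h3⟩ := hT b
    exact lt_asymm h2 (hb ⟨τ, h3⟩)
  obtain ⟨φ⟩ := h1
  refine ⟨fun γ => if hγ : ∃ x, (∃ ζ, x ∈ B ζ) ∧ ∃ i, (φ (j x, i)).1 = γ then hγ.choose
    else Classical.arbitrary Z, fun ζ x hx k => ?_⟩
  obtain ⟨i, hi⟩ : ∃ i, k < (φ (j x, i)).1 := by
    by_contra hcon
    push Not at hcon
    obtain ⟨k', hk'⟩ := kk_gt h k
    have h2 : #(KK κ) ≤ #(Iio k') := mk_le_of_injective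
      (f := fun i => (⟨(φ (j x, i)).1, (hcon i).trans_lt hk'⟩ : Iio k')) (by
        intro i i' hii
        have h3 := congrArg Subtype.val hii
        exact (Prod.mk.inj (φ.injective (Subtype.ext h3))).2)
    rw [kk_mk] at h2
    exact absurd (kk_iio k') (not_lt.2 h2)
  have hex : ∃ y, (∃ ζ, y ∈ B ζ) ∧ ∃ i', (φ (j y, i')).1 = (φ (j x, i)).1 :=
    ⟨x, ⟨ζ, hx⟩, i, rfl⟩
  refine ⟨(φ (j x, i)).1, hi, (φ (j x, i)).2, ?_⟩
  simp only [dif_pos hex]
  obtain ⟨i', hi'⟩ := hex.choose_spec.2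
  have h3 := Prod.mk.inj (φ.injective (Subtype.ext hi'))
  exact hj _ _ hex.choose_spec.1 ⟨ζ, hx⟩ h3.1

end Basic

end Pool.Agent.H633.W
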