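import Pool.Agent.H633.W.Ground

/-!
# The ground model data, second part
-/

set_option autoImplicit false
set_option linter.unusedSectionVars false
set_option linter.unusedVariables false

namespace Pool.Agent.H633.W

open Cardinal Set Pool.Agent.H915

/-- raw conditions -/
abbrev Raw (K : Type) : Type := Set K × Set (Set K) × Set (K × Om1)

section Raw

variable {κ : Cardinal.{0}}

/-- the raw conditions below `ζ` -/
def rb (ζ : KK κ) : Set (Raw (KK κ)) :=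
  {r | r.1 ⊆ Iio ζ ∧ (∀ Q ∈ r.2.1, Q ⊆ Iio ζ) ∧ ∀ a ∈ r.2.2, a.1 < ζ}

theorem rb_lt (h : κ.IsInaccessible) (ζ : KK κ) : #(rb ζ) < κ := by
  have h1 : #(Set (Iio ζ) × Set (Set (Iio ζ)) × Set (Iio ζ × Om1)) < κ :=
    prod_lt h (pow_lt h (kk_iio ζ)) (prod_lt h (pow_lt h (pow_lt h (kk_iio ζ)))
      (pow_lt h (prod_lt h (kk_iio ζ) (om1_lt h))))
  refine lt_of_le_of_lt (mk_le_of_injective (f := fun r : rb ζ =>
    (({x | x.1 ∈ r.1.1}, {S | Subtype.val '' S ∈ r.1.2.1}, {z | (z.1.1, z.2) ∈ r.1.2.2}) :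
      Set (Iio ζ) × Set (Set (Iio ζ)) × Set (Iio ζ × Om1))) ?_) h1
  have himg : ∀ Q : Set (KK κ), Q ⊆ Iio ζ → (Subtype.val '' {x : Iio ζ | x.1 ∈ Q}) = Q := by
    intro Q hQ
    ext x
    constructor
    · rintro ⟨y, hy, rfl⟩
      exact hy
    · intro hx
      exact ⟨⟨x, hQ hx⟩, hx, rfl⟩
  rintro ⟨⟨A, N, t⟩, h1, h2, h3⟩ ⟨⟨A', N', t'⟩, h1', h2', h3'⟩ hrr
  simp only [Prod.mk.injEq] at hrr h1 h2 h3 h1' h2' h3'
  obtain ⟨g1, g2, g3⟩ := hrr
  have e1 : A = A' := by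
    rw [← himg A h1, ← himg A' h1', g1]
  have e2 : ∀ N N' : Set (Set (KK κ)), (∀ Q ∈ N, Q ⊆ Iio ζ) →
      {S : Set (Iio ζ) | Subtype.val '' S ∈ N} = {S | Subtype.val '' S ∈ N'} → N ⊆ N' := by
    intro N N' h2 g2 Q hQ
    have h4 : {x : Iio ζ | x.1 ∈ Q} ∈ {S : Set (Iio ζ) | Subtype.val '' S ∈ N} := by
      show Subtype.val '' _ ∈ N
      rw [himg Q (h2 Q hQ)]
      exact hQ
    rw [g2] at h4
    have h5 : Subtype.val '' {x : Iio ζ | x.1 ∈ Q} ∈ N' := h4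
    rwa [himg Q (h2 Q hQ)] at h5
  have e3 : ∀ t t' : Set (KK κ × Om1), (∀ a ∈ t, a.1 < ζ) →
      {z : Iio ζ × Om1 | (z.1.1, z.2) ∈ t} = {z | (z.1.1, z.2) ∈ t'} → t ⊆ t' := by
    intro t t' h3 g3 a ha
    have h4 : ((⟨a.1, h3 a ha⟩, a.2) : Iio ζ × Om1) ∈ {z : Iio ζ × Om1 | (z.1.1, z.2) ∈ t} := ha
    rw [g3] at h4
    exact h4
  have f2 : N = N' := (e2 N N' h2 g2).antisymm (e2 N' N h2' g2.symm)
  have f3 : t = t' := (e3 t t' h3 g3).antisymm (e3 t' t h3' g3.symm)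
  subst e1 f2 f3
  rfl

theorem fam_lt (h : κ.IsInaccessible) {I Z : Type} (hI : #I < κ) {S : Set Z} (hS : #S < κ) :
    #{E : I → Set Z | ∀ i, E i ⊆ S} < κ := by
  refine lt_of_le_of_lt (mk_le_of_injective (f := fun E : {E : I → Set Z | ∀ i, E i ⊆ S} =>
    ({z | z.2.1 ∈ E.1 z.1} : Set (I × S))) ?_) (pow_lt h (prod_lt h hI hS))
  rintro ⟨E, hE⟩ ⟨E', hE'⟩ hEE
  have key : ∀ E E' : I → Set Z, (∀ i, E i ⊆ S) →
      ({z | z.2.1 ∈ E z.1} : Set (I × S)) = {z | z.2.1 ∈ E' z.1} → ∀ i, E i ⊆ E' i := by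
    intro E E' hE h1 i x hx
    have h2 : ((i, ⟨x, hE i hx⟩) : I × S) ∈ ({z | z.2.1 ∈ E z.1} : Set (I × S)) := hx
    rw [h1] at h2
    exact h2
  refine Subtype.ext (funext fun i => ?_)
  exact (key E E' hE hEE i).antisymm (key E' E hE' hEE.symm i)

theorem list_lt (h : κ.IsInaccessible) : #(List Om1) < κ := by
  rw [mk_list_om1]; exact one_lt h

theorem fin_lt (h : κ.IsInaccessible) : #(Finset Om1) < κ := by
  rw [mk_fin_om1]; exact one_lt h

end Raw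

section Big

variable {κ : Cardinal.{0}}

/-- the raw condition of a condition -/
def rawOf {K : Type} [LinearOrder K] [Cod K] (p : Pr K) : Raw K :=
  (p.base.A, p.base.Nd, {a | a ∈ p.top})

theorem rawOf_inj {K : Type} [LinearOrder K] [Cod K] {p q : Pr K} (h : rawOf p = rawOf q) :
    p = q := by
  unfold rawOf at h
  simp only [Prod.mk.injEq] at h
  refine Pr_ext h.1 h.2.1 ?_
  ext a
  have h1 : a ∈ {a | a ∈ p.top} ↔ a ∈ {a | a ∈ q.top} := by rw [h.2.2]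
  exact h1

theorem below_lt (h : κ.IsInaccessible) [Cod (KK κ)] (ζ : KK κ) :
    #{p : Pr (KK κ) | Below ζ p} < κ := by
  refine lt_of_le_of_lt (mk_le_of_injective (f := fun p : {p : Pr (KK κ) | Below ζ p} =>
    (⟨rawOf p.1, p.2.1, p.2.2.1, p.2.2.2⟩ : rb ζ)) ?_) (rb_lt h ζ)
  intro p q hpq
  exact Subtype.ext (rawOf_inj (congrArg Subtype.val hpq))

theorem exists_big (h : κ.IsInaccessible) :
    ∃ (C : Cod (KK κ)) (c : Ctx (KK κ)), BigCtx c := by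
  classical
  let S : KK κ → Set (Raw (KK κ) × Finset Om1) := fun ζ => {z | z.1 ∈ rb ζ}
  have hS : ∀ ζ, #(S ζ) < κ := by
    intro ζ
    refine lt_of_le_of_lt (mk_le_of_injective (f := fun z : S ζ =>
      ((⟨z.1.1, z.2⟩, z.1.2) : rb ζ × Finset Om1)) ?_) (prod_lt h (rb_lt h ζ) (fin_lt h))
    intro z z' hzz
    simp only [Prod.mk.injEq, Subtype.mk.injEq] at hzz
    exact Subtype.ext (Prod.ext hzz.1 hzz.2)
  obtain ⟨en0, H, hen⟩ := kk_enum h (Z := List Om1 → Set (Raw (KK κ) × Finset Om1))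
    (fun ζ => {E | ∀ a, E a ⊆ S ζ}) (fun ζ => fam_lt h (list_lt h) (hS ζ))
  obtain ⟨C, hC⟩ := exists_cod h H
  have grow : ∀ s : Set (KK κ), s.Countable → ∀ x ∈ s, x < cd s := fun s hs x hx =>
    (hC s hs x hx).1
  have hT : ∀ k : KK κ, ∃ τ, k < τ ∧ τ ∈ {τ : KK κ | Tr τ} := by
    intro k
    obtain ⟨τ, h1, h2, _⟩ := exists_Tr h grow id k
    exact ⟨τ, h1, h2⟩
  obtain ⟨bk, hbk⟩ := kk_book h (Z := Finset Om1 → Set (Pr (KK κ)))
    (fun ζ => {E | ∀ a, E a ⊆ {p | Below ζ p}}) (fun ζ => fam_lt h (fin_lt h) (below_lt h ζ))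
    {τ | Tr τ} hT
  obtain ⟨z0, -, hz0⟩ := hT (kk_ne h).some
  let bk' : KK κ → Finset Om1 → Set (Pr (KK κ)) := fun γ =>
    if γ < z0 then fun _ => ∅ else if γ = z0 then coh else
      if ∀ F, ∀ s ∈ bk γ F, (fib s z0).Nonempty then bk γ else fun _ => ∅
  let c : Ctx (KK κ) := ⟨fun k a => {e | (rawOf e.1, e.2) ∈ en0 k a}, bk', z0⟩
  have hTU : TrUnb (KK κ) := fun k => hT k
  refine ⟨C, c, ⟨⟨hTU, ?_, hz0, ?_, ?_, ?_⟩, exists_Tr h grow, grow, ?_, ?_⟩⟩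
  · intro ζ E hE
    obtain ⟨k, hk, hk2⟩ := hen ζ (fun a => (fun e : Pr (KK κ) × Finset Om1 =>
      (rawOf e.1, e.2)) '' E a) (by
        rintro a _ ⟨e, he, rfl⟩
        exact hE a e he)
    refine ⟨k, ?_, ?_⟩
    · obtain ⟨h1, h2⟩ := nx_spec hTU ζ
      have h3 : (cd ({ζ} : Set (KK κ)) : KK κ) < nx ζ :=
        (h2.2 {ζ} (countable_singleton ζ)).1 (by
          intro x hx
          rw [mem_singleton_iff.1 hx]
          exact h1)
      exact hk.trans ((hC {ζ} (countable_singleton ζ) ζ rfl).2.trans h3)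
    · funext a
      ext e
      show (rawOf e.1, e.2) ∈ en0 k a ↔ e ∈ E a
      rw [hk2]
      constructor
      · rintro ⟨e', he', hee⟩
        simp only [Prod.mk.injEq] at hee
        have h4 : e' = e := Prod.ext (rawOf_inj hee.1) hee.2
        rwa [← h4]
      · intro he
        exact ⟨e, he, rfl⟩
  · show bk' z0 = coh
    simp [bk']
  · intro γ hγ F
    show bk' γ F = ∅
    simp only [bk']
    rw [if_pos hγ]
  · intro γ hγ F s hs
    have hγ' : z0 < γ := hγ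
    have hs' : s ∈ bk' γ F := hs
    simp only [bk'] at hs'
    rw [if_neg (not_lt.2 hγ'.le), if_neg hγ'.ne'] at hs'
    by_cases h5 : ∀ F, ∀ s ∈ bk γ F, (fib s z0).Nonempty
    · rw [if_pos h5] at hs'
      exact h5 F s hs'
    · rw [if_neg h5] at hs'
      exact absurd hs' (notMem_empty _)
  · intro γ f
    obtain ⟨k, hk⟩ := kk_bdd h (prod_lt h (below_lt h γ) (om1_lt h)) fun z => f z.1.1 z.2
    exact ⟨k, fun p hp i => hk (⟨p, hp⟩, i)⟩
  · rintro nm ⟨β, hβ⟩ hz k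
    obtain ⟨γ, h1, h2, h3⟩ := hbk β nm (fun F s hs => hβ F s hs) (max k z0)
    have h4 : z0 < γ := (le_max_right _ _).trans_lt h1
    refine ⟨γ, (le_max_left _ _).trans_lt h1, h2, ?_⟩
    show bk' γ = nm
    simp only [bk']
    rw [if_neg (not_lt.2 h4.le), if_neg h4.ne', h3, if_pos hz]

end Big

end Pool.Agent.H633.W
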