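import Pool.Agent.H633.W.Ssp

/-!
# Martin's Maximum for preorders of size `ℵ₁` holds in the extension
-/

set_option autoImplicit false
set_option linter.unusedSectionVars false
set_option linter.unusedVariables false

namespace Pool.Agent.H633.W

open Cardinal Set Pool.Agent.Helper669.Forcing Pool.Agent.H915
open Pool.Agent.W684.FM (IsPreN IsDenseN IsFilterN)

variable {K : Type} [LinearOrder K] [WellFoundedLT K] [Cod K] {c : Ctx K}

theorem cut_anti {β γ : K} (h : β ≤ γ) (u : Pr K) : cut γ u ≤ cut β u := by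
  have := le_cut β (cut γ u)
  rwa [cut_cut _ h] at this

theorem fam_in {R : Om1 → Om1 → Set (Po c)} {p1 w : Po c} {z : Om1} {G : Finset Om1}
    (hw : w ≤ p1) (hz : w ∈ LB R G z) : w ∈ Fam R p1 G :=
  ⟨meets_of_le (mem_singleton p1) hw, mem_fex_of_mem z (LB_down R G z) hz⟩

theorem lb_insert {R : Om1 → Om1 → Set (Po c)} {p1 w : Po c} (h : p1 ∈ IsPreN R) {z : Om1}
    {G : Finset Om1} (hw : w ≤ p1) (hz : w ∈ LB R G z) : w ∈ LB R (insert z G) z := by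
  intro t ht
  rcases Finset.mem_insert.1 ht with h1 | h1
  · rw [h1]; exact pre_refl h hw _
  · exact hz t h1

/-- adding a lower bound to the generic set at the coordinate -/
theorem add_lb (hc : GoodCtx c) {R : Om1 → Om1 → Set (Po c)} {p1 : Po c} (h : p1 ∈ IsPreN R)
    {β γ : K} (hco : IsCo c β γ (Fam R p1)) {q w : Po c} (hq : q ≤ p1)
    (hne : (fib q.1 γ).Nonempty) (hw : w ≤ q) {y : Om1} (hy : w ∈ LB R (fib q.1 γ) y) :
    ∃ z1 ≤ q, ∃ w' ≤ w, β ∈ w'.1.base.A ∧ z1.1 ≤ cut β w'.1 ∧ fib q.1 γ ⊆ fib z1.1 γ ∧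
      y ∈ fib z1.1 γ := by
  obtain ⟨w', hw', hβ, _⟩ := addTrP hc w hco.trβ
  have h1 : w' ∈ LB R (insert y (fib q.1 γ)) y :=
    lb_insert h (hw'.trans (hw.trans hq)) (LB_down _ _ _ _ hy _ hw')
  obtain ⟨z, hz1, hz2, hz3⟩ := hco.ext' hc (hw'.trans hw) hne (Finset.subset_insert y _)
    (fam_in (hw'.trans (hw.trans hq)) h1)
  exact ⟨z, hz1, w', hw', hβ, hz2.trans (cut_anti hco.lt.le w'.1),
    (Finset.subset_insert _ _).trans hz3, hz3 (Finset.mem_insert_self _ _)⟩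

/-- the generic filter at the coordinate `γ` -/
def Fil (R : Om1 → Om1 → Set (Po c)) (γ : K) (y : Om1) : Set (Po c) :=
  {u | ∃ x ∈ fib u.1 γ, u ∈ meets (R x y)}

theorem Fil_down (R : Om1 → Om1 → Set (Po c)) (γ : K) (y : Om1) : Down (Fil R γ y) := by
  rintro u ⟨x, hx, h⟩ v hv
  exact ⟨x, fib_mono hv γ hx, down_meets _ _ h _ hv⟩

theorem mmo_holds (hc : BigCtx c) (u : Po c) : u ∈ MMON (Po c) := by
  classical
  intro R D
  rw [mem_fimp]
  rintro p1 hp1 ⟨hpre, hssp, hD⟩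
  -- the names are decided below `β`
  let I := Finset Om1 ⊕ ((Om1 × Om1) ⊕ (Om1 × Om1))
  have hI : #I ≤ ℵ₁ := by
    have h1 : #(Finset Om1) ≤ ℵ₁ := mk_fin_om1.le
    have h2 : #(Om1 × Om1) ≤ ℵ₁ := by
      simp only [Cardinal.mk_prod, Cardinal.lift_id, mk_om1]
      exact a1_mul_self.le
    have h3 : #I = #(Finset Om1) + (#(Om1 × Om1) + #(Om1 × Om1)) := by
      simp only [I, Cardinal.mk_sum, Cardinal.lift_id]
    rw [h3]
    calc #(Finset Om1) + (#(Om1 × Om1) + #(Om1 × Om1)) ≤ ℵ₁ + (ℵ₁ + ℵ₁) := by gcongr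
      _ = ℵ₁ := by rw [a1_add_self, a1_add_self]
  obtain ⟨β, -, hz, hβ, hbn⟩ := exists_BN hc hI (fun i => match i with
    | Sum.inl F => Fam R p1 F
    | Sum.inr (Sum.inl x) => R x.1 x.2
    | Sum.inr (Sum.inr x) => D x.1 x.2) (bd p1.1)
  have b1 : ∀ F, BN β (Fam R p1 F) := fun F => hbn (Sum.inl F)
  have b2 : ∀ x y, BN β (R x y) := fun x y => hbn (Sum.inr (Sum.inl (x, y)))
  have b3 : ∀ x y, BN β (D x y) := fun x y => hbn (Sum.inr (Sum.inr (x, y)))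
  obtain ⟨γ, hγ1, hco⟩ := exists_co hc hz hβ (Fam_reg R p1) b1
    (fun γ h1 h2 => sspCand hc hpre hssp hz hβ b1 γ h1 h2) (bd p1.1)
  have hf0 : fib p1.1 γ = ∅ := by
    refine Finset.eq_empty_of_forall_notMem fun x hx => ?_
    exact absurd ((below_bd hc p1.1).2.2 _ (mem_fib.1 hx)) (not_lt.2 hγ1.le)
  have hne : ∀ v ≤ p1, ∀ F, v ∈ Fam R p1 F → ∃ w ≤ v, ∃ x, w ∈ Fam R p1 (insert x F) := by
    intro v hv F hvF
    obtain ⟨w, hw, z, hz⟩ := mem_fex.1 hvF.2 v (le_refl _)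
    exact ⟨w, hw, z, fam_in (hw.trans hv) (lb_insert hpre (hw.trans hv) hz)⟩
  obtain ⟨q0, hq0, hq0n⟩ := hco.start hc.toGoodCtx (u := p1) (by
    rw [hf0]
    exact fam_in (z := Classical.arbitrary _) (le_refl _) (fun x hx =>
      absurd hx (Finset.notMem_empty _))) hne
  have hqn : ∀ q ≤ q0, (fib q.1 γ).Nonempty := fun q hq => hq0n.mono (fib_mono hq γ)
  -- decide a lower bound
  have hlb : ∀ q ≤ q0, ∃ w ≤ q, ∃ z, w ∈ LB R (fib q.1 γ) z := by
    intro q hq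
    have h1 := hco.fibMem (hqn q hq)
    obtain ⟨w, hw, z, hz⟩ := mem_fex.1 h1.2 q (le_refl _)
    exact ⟨w, hw, z, hz⟩
  refine ⟨q0, hq0, mem_fex_of_mem (Fil R γ) ?_ ⟨⟨?_, ?_, ?_⟩, ?_⟩⟩
  · refine down_fand ?_ (down_fall fun _ => down_fex _)
    exact down_fand (down_fex _) (down_fand (down_fall fun _ => down_fall fun _ => down_fimp _ _)
      (down_fall fun _ => down_fall fun _ => down_fimp _ _))
  · obtain ⟨x, hx⟩ := hq0n
    exact mem_fex_of_mem x (down_meets _) (meets_of_mem ⟨x, hx, pre_refl hpre hq0 x⟩)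
  · intro x y
    rw [mem_fimp]
    rintro q hq ⟨h1, h2⟩
    obtain ⟨q', hq', x', hx', h3⟩ := exists_of_meets (Fil_down R γ x) h1
    exact ⟨q', hq', meets_of_mem ⟨x', hx', pre_trans hpre (hq'.trans (hq.trans hq0)) h3
      (down_meets _ _ h2 _ hq')⟩⟩
  · intro x y
    rw [mem_fimp]
    rintro q hq ⟨h1, h2⟩
    obtain ⟨q', hq', x', hx', h3⟩ := exists_of_meets (Fil_down R γ x) h1
    obtain ⟨q'', hq'', y', hy', h4⟩ := exists_of_meets (Fil_down R γ y)
      (down_meets _ _ h2 _ hq')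
    have hx'' := fib_mono hq'' γ hx'
    obtain ⟨w, hw, z, hz⟩ := hlb q'' (hq''.trans (hq'.trans hq))
    have hq0'' : q'' ≤ p1 := hq''.trans (hq'.trans (hq.trans hq0))
    obtain ⟨z1, hz1, w', hw', hβw, hzw, -, hzf⟩ := add_lb hc.toGoodCtx hpre hco hq0''
      (hqn q'' (hq''.trans (hq'.trans hq))) hw hz
    have hR : ∀ t ∈ fib q''.1 γ, z1 ∈ meets (R z t) := fun t ht =>
      b2 z t w' hβw (down_meets _ _ (hz t ht) _ hw') z1 hzw
    refine ⟨z1, hz1.trans (hq''.trans hq'), mem_fex_of_mem z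
      (down_fand (down_meets _) (down_fand (down_meets _) (down_meets _))) ⟨?_, ?_, ?_⟩⟩
    · exact meets_of_mem ⟨z, hzf, pre_refl hpre (hz1.trans hq0'') z⟩
    · exact pre_trans hpre (hz1.trans hq0'') (hR x' hx'')
        (down_meets _ _ h3 _ (hz1.trans hq''))
    · exact pre_trans hpre (hz1.trans hq0'') (hR y' hy') (down_meets _ _ h4 _ hz1)
  · intro i
    rw [mem_fex]
    intro q hq
    obtain ⟨w, hw, z, hz⟩ := hlb q hq
    have hqp : q ≤ p1 := hq.trans hq0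
    obtain ⟨w1, hw1, y, hy1, hy2⟩ := mem_fex.1 (hD i z) w (hw.trans hqp)
    have hyl : w1 ∈ LB R (fib q.1 γ) y := fun t ht =>
      pre_trans hpre (hw1.trans (hw.trans hqp)) hy2 (down_meets _ _ (hz t ht) _ hw1)
    obtain ⟨z1, hz1, w', hw', hβw, hzw, -, hzf⟩ := add_lb hc.toGoodCtx hpre hco hqp
      (hqn q hq) (hw1.trans hw) hyl
    exact ⟨z1, hz1, y, meets_of_mem ⟨y, hzf, pre_refl hpre (hz1.trans hqp) y⟩,
      b3 i y w' hβw (down_meets _ _ hy1 _ hw') z1 hzw⟩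

end Pool.Agent.H633.W
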