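import Pool.Agent.H633.W.MM
import Pool.Agent.H633.SentBA

/-!
# `ω₁` is preserved; Baumgartner's axiom fails in the extension
-/

set_option autoImplicit false
set_option linter.unusedSectionVars false
set_option linter.unusedVariables false

namespace Pool.Agent.H633.W

open Cardinal Set Pool.Agent.Helper669.Forcing Pool.Agent.H915
open Pool.Agent.W684.FM (IsPreN IsDenseN IsFilterN OmegaOnePreserved)

variable {K : Type} [LinearOrder K] [WellFoundedLT K] [Cod K] {c : Ctx K}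

/-- values decided by a condition inside `N` are in `N` -/
theorem cc_value {I : Type} (supp : I → Set K → Prop)
    (hs : ∀ φ : I → Set K → Prop, (∀ i, CClub (φ i)) → CClub fun N => ∀ i, supp i N → φ i N)
    (A : I → Om1 → Set (Po c)) :
    CClub fun N : Set K => ∀ i, supp i N → ∀ v, InX N v →
      ∀ hv : v ∈ PT c ∧ (fib v c.z0).Nonempty,
      (∃ x, (⟨v, hv⟩ : Po c) ∈ A i x) → ∃ x : Om1, (om x : K) ∈ N ∧ (⟨v, hv⟩ : Po c) ∈ A i x := by
  refine hs _ fun i => cc_pr fun v => ?_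
  by_cases hex : ∃ hv : v ∈ PT c ∧ (fib v c.z0).Nonempty, ∃ x, (⟨v, hv⟩ : Po c) ∈ A i x
  · obtain ⟨hv, x, hx⟩ := hex
    exact cc_mono (cc_mem (om x : K)) fun N _ hN _ _ => ⟨x, hN, hx⟩
  · exact cc_true fun N hv h => absurd ⟨hv, h⟩ hex

theorem om1_preserved (hc : GoodCtx c) (p : Po c) : p ∈ OmegaOnePreserved (Po c) := by
  classical
  intro q hq hcon
  obtain ⟨q1, hq1, R, hfun, honto⟩ := mem_fex.1 hcon q (le_refl _)
  obtain ⟨N, hNN, ⟨h1, h2⟩, hNI, -, -, q2, hq2, hN2⟩ := addNodeP hc (s := (∅ : Set K))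
    (φ := fun N => (∀ n : ℕ, ∀ p : Po c, N ∈ p.1.base.Nd → ∀ e0 ∈ {u | ∃ x, u ∈ meets (R n x)},
      p ≤ e0 → ∃ e ∈ {u | ∃ x, u ∈ meets (R n x)}, InX N e.1 ∧ ∃ u : Po c, u ≤ p ∧ u ≤ e) ∧
      ∀ n : ℕ, True → ∀ v, InX N v → ∀ hv : v ∈ PT c ∧ (fib v c.z0).Nonempty,
      (∃ x, (⟨v, hv⟩ : Po c) ∈ meets (R n x)) →
        ∃ x : Om1, (om x : K) ∈ N ∧ (⟨v, hv⟩ : Po c) ∈ meets (R n x))
    (cc_and (cc_nat fun n => genP0 hc _) (cc_value (fun _ _ => True) (fun φ hφ => cc_mono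
      (cc_nat hφ) fun N _ hN n _ => hN n) (fun n x => meets (R n x)))) countable_empty q1
  obtain ⟨w, hw, n, hn⟩ := mem_fex.1 (honto (dl N)) q2 hq2
  obtain ⟨e, he, heN, u, huw, hue⟩ := h1 n w ((Pr_le.1 hw).2.1 hN2) w ⟨_, hn⟩ (le_refl _)
  obtain ⟨x, hx, hxe⟩ := h2 n trivial e.1 heN e.2 he
  have hu1 : u ≤ q1 := huw.trans (hw.trans hq2)
  obtain ⟨_, _, h3⟩ := mem_fimp.1 (hfun.2 n x (dl N)) u hu1
    ⟨down_meets _ _ hxe _ hue, down_meets _ _ hn _ huw⟩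
  have h4 : x = dl N := h3
  exact (b_dl hNN).1 (h4 ▸ hx)

/-! ### Names of the reals -/

theorem forr_dense {P : Type} [Preorder P] {φ ψ : Set P} {p : P}
    (h : ∀ q ≤ p, ∃ r ≤ q, r ∈ φ ∨ r ∈ ψ) : p ∈ forr φ ψ := by
  rintro q hq ⟨h1, h2⟩
  obtain ⟨r, hr, h3 | h3⟩ := h q hq
  · exact h1 r hr h3
  · exact h2 r hr h3

/-- `Pos G x a` says that by `G`, the real with index `x` is above `a`, and `Neg G x a` that it is
below `a`. -/
structure Rep (c : Ctx K) (Pos Neg : Finset Om1 → Om1 → ℚ → Prop) (val : ℚ → ℚ) : Prop where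
  pmono : ∀ G G' x a, G ⊆ G' → Pos G x a → Pos G' x a
  nmono : ∀ G G' x a, G ⊆ G' → Neg G x a → Neg G' x a
  pdown : ∀ G x a b, a < b → Pos G x b → Pos G x a
  pval : ∀ G f x a, Wit G f → Pos G x a → a < val (f x)
  nval : ∀ G f x a, Wit G f → Neg G x a → val (f x) < a
  ext : ∀ (u : Po c) (f : Om1 → ℚ) (x : Om1) (a b : ℚ), Wit u.re f → a < val (f x) →
    val (f x) < b → ∃ u' ≤ u, Pos u'.re x a ∧ Neg u'.re x b
  fresh : ∀ (u : Po c) (i : Om1) (a b : ℚ), a < b → ∃ j, i < j ∧ ∃ u' ≤ u, Pos u'.re j a ∧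
    Neg u'.re j b
  dec : ∀ (u : Po c) (i j : Om1), i ≠ j → ∃ u' ≤ u, ∃ q, (Neg u'.re i q ∧ Pos u'.re j q) ∨
    (Neg u'.re j q ∧ Pos u'.re i q)

/-- the name of the lower cut -/
def cutN (c : Ctx K) (Pos : Finset Om1 → Om1 → ℚ → Prop) (i : Om1) (a : ℚ) : Set (Po c) :=
  {u | Pos u.re i a}

section Rep

variable {Pos Neg : Finset Om1 → Om1 → ℚ → Prop} {val : ℚ → ℚ}

theorem Rep.down (h : Rep c Pos Neg val) (i : Om1) (a : ℚ) : Down (cutN c Pos i a) :=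
  fun u hu v hv => h.pmono _ _ _ _ (re_mono hv) hu

theorem Rep.not (hc : GoodCtx c) (h : Rep c Pos Neg val) {u : Po c} {i : Om1} {a : ℚ}
    (hn : Neg u.re i a) : u ∈ fnot (meets (cutN c Pos i a)) := by
  intro v hv hm
  obtain ⟨r, hr, h1⟩ := exists_of_meets (h.down i a) hm
  obtain ⟨f, hf⟩ := witP hc r
  exact lt_asymm (h.pval _ _ _ _ hf h1) (h.nval _ _ _ _ hf (h.nmono _ _ _ _
    (re_mono (hr.trans hv)) hn))

theorem Rep.lt (hc : GoodCtx c) (h : Rep c Pos Neg val) {u : Po c} {i j : Om1} {q : ℚ}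
    (h1 : Neg u.re i q) (h2 : Pos u.re j q) : u ∈ CutLtN (cutN c Pos i) (cutN c Pos j) :=
  mem_fex_of_mem q (down_fand (down_fnot _) (down_meets _)) ⟨h.not hc h1, meets_of_mem h2⟩

theorem Rep.conv (hc : GoodCtx c) (h : Rep c Pos Neg val) {u : Po c} {i j : Om1} {q : ℚ}
    (hu : u ∈ CutLtN (cutN c Pos i) (cutN c Pos j)) (h1 : Neg u.re j q) (h2 : Pos u.re i q) :
    False := by
  obtain ⟨r, hr, a, h3, h4⟩ := mem_fex.1 hu u (le_refl _)
  obtain ⟨r', hr', h5⟩ := exists_of_meets (h.down j a) h4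
  obtain ⟨f, hf⟩ := witP hc r'
  have h6 := h.pval _ _ _ _ hf h5
  have h7 := h.nval _ _ _ _ hf (h.nmono _ _ _ _ (re_mono (hr'.trans hr)) h1)
  have h8 : r' ∈ cutN c Pos i a := h.pdown _ _ _ _ (h6.trans h7) (h.pmono _ _ _ _
    (re_mono (hr'.trans hr)) h2)
  exact h3 r' hr' (meets_of_mem h8)

theorem Rep.irrefl (hc : GoodCtx c) (h : Rep c Pos Neg val) {u : Po c} {i : Om1} :
    u ∉ CutLtN (cutN c Pos i) (cutN c Pos i) := by
  intro hu
  obtain ⟨r, hr, a, h3, h4⟩ := mem_fex.1 hu u (le_refl _)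
  exact h3 r (le_refl _) h4

theorem Rep.cut (hc : GoodCtx c) (h : Rep c Pos Neg val) (i : Om1) (p : Po c) :
    p ∈ IsCutN (cutN c Pos i) := by
  refine ⟨?_, ?_, ?_, ?_⟩
  · rw [mem_fex]
    intro q hq
    obtain ⟨f, hf⟩ := witP hc q
    obtain ⟨u, hu, h1, h2⟩ := h.ext q f i (val (f i) - 1) (val (f i) + 1) hf (by linarith)
      (by linarith)
    exact ⟨u, hu, _, meets_of_mem h1⟩
  · rw [mem_fex]
    intro q hq
    obtain ⟨f, hf⟩ := witP hc q
    obtain ⟨u, hu, h1, h2⟩ := h.ext q f i (val (f i) - 1) (val (f i) + 1) hf (by linarith)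
      (by linarith)
    exact ⟨u, hu, _, h.not hc h2⟩
  · intro a
    rw [mem_fimp]
    intro q hq hm
    obtain ⟨r, hr, h1⟩ := exists_of_meets (h.down i a) hm
    obtain ⟨f, hf⟩ := witP hc r
    have h2 := h.pval _ _ _ _ hf h1
    obtain ⟨u, hu, h3, h4⟩ := h.ext r f i ((a + val (f i)) / 2) (val (f i) + 1) hf (by linarith)
      (by linarith)
    exact ⟨u, hu.trans hr, mem_fex_of_mem ((a + val (f i)) / 2)
      (down_fand (down_fground _) (down_meets _))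
      ⟨show a < (a + val (f i)) / 2 by linarith, meets_of_mem h3⟩⟩
  · intro a b
    rw [mem_fimp]
    rintro q hq ⟨h1, h2⟩
    have h1' : a < b := h1
    refine ⟨q, le_refl _, fun r hr => ?_⟩
    obtain ⟨s, hs, h3⟩ := exists_of_meets (h.down i b) (down_meets _ _ h2 _ hr)
    exact ⟨s, hs, s, h.pdown _ _ _ _ h1' h3, le_refl _⟩

theorem Rep.dense (hc : GoodCtx c) (h : Rep c Pos Neg val) (p : Po c) :
    p ∈ DenseEnumN (cutN c Pos) := by
  refine ⟨fun i => h.cut hc i p, fun i j => ?_, fun a b => ?_⟩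
  · rw [mem_fimp]
    intro q hq hij
    have hij' : i ≠ j := hij
    refine ⟨q, le_refl _, forr_dense fun r hr => ?_⟩
    obtain ⟨u, hu, q', h1 | h1⟩ := h.dec r i j hij'
    · exact ⟨u, hu, Or.inl (h.lt hc h1.1 h1.2)⟩
    · exact ⟨u, hu, Or.inr (h.lt hc h1.1 h1.2)⟩
  · rw [mem_fimp]
    intro q hq hab
    have hab' : a < b := hab
    refine ⟨q, le_refl _, fun i => ?_⟩
    rw [mem_fex]
    intro r hr
    obtain ⟨j, hj, u, hu, h1, h2⟩ := h.fresh r i a b hab'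
    exact ⟨u, hu, j, hj, meets_of_mem h1, h.not hc h2⟩

end Rep

/-- adding an interval -/
theorem addI (hc : GoodCtx c) (u : Po c) (f : Om1 → ℚ) (hf : Wit u.re f) (x : Om1) (a b : ℚ)
    (h1 : a < f x) (h2 : f x < b) : ∃ u' ≤ u, Wit (insert (qc.symm (x, a, b)) u.re) f ∧
      insert (qc.symm (x, a, b)) u.re ⊆ u'.re := by
  classical
  have hw : Wit (insert (qc.symm (x, a, b)) u.re) f := by
    intro s hs
    rcases Finset.mem_insert.1 hs with rfl | h3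
    · rw [Equiv.apply_symm_apply]
      exact ⟨h1, h2⟩
    · exact hf s h3
  obtain ⟨u', hu', h3⟩ := ext0P hc u (Finset.subset_insert _ _) ⟨f, hw⟩
  exact ⟨u', hu', hw, h3⟩

theorem lb_of {G : Finset Om1} {x : Om1} {a b : ℚ} (h : qc.symm (x, a, b) ∈ G) : Lb G x a :=
  ⟨_, h, by rw [Equiv.apply_symm_apply], by rw [Equiv.apply_symm_apply]⟩

theorem ub_of {G : Finset Om1} {x : Om1} {a b : ℚ} (h : qc.symm (x, a, b) ∈ G) : Ub G x b :=
  ⟨_, h, by rw [Equiv.apply_symm_apply], by rw [Equiv.apply_symm_apply]⟩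

theorem dec_le (hc : GoodCtx c) (u : Po c) (f : Om1 → ℚ) (hf : Wit u.re f) (x y : Om1)
    (hxy : x ≠ y) (hle : f x ≤ f y) : ∃ u' ≤ u, Dl u'.re x y := by
  classical
  obtain ⟨ε, h1, _, h2⟩ := exists_eps u.re fun s => (qc s).2.2 - f (qc s).1
  let g : Om1 → ℚ := fun z => if z = y then f y + ε else f z
  have hgy : g y = f y + ε := if_pos rfl
  have hgx : g x = f x := if_neg hxy
  have hg : Wit u.re g := by
    intro s hs
    have h3 := hf s hs
    have h4 := h2 s hs (sub_pos.2 h3.2)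
    by_cases h5 : (qc s).1 = y
    · simp only [g, if_pos h5]
      rw [h5] at h3 h4
      exact ⟨by linarith, by linarith⟩
    · simp only [g, if_neg h5]
      exact h3
  let m : ℚ := (g x + g y) / 2
  have hm1 : g x < m := by simp only [m]; rw [hgy, hgx]; linarith
  have hm2 : m < g y := by simp only [m]; rw [hgy, hgx]; linarith
  have hw : Wit (insert (qc.symm (x, g x - 1, m)) (insert (qc.symm (y, m, g y + 1)) u.re)) g := by
    intro s hs
    rcases Finset.mem_insert.1 hs with rfl | h3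
    · rw [Equiv.apply_symm_apply]
      exact ⟨by linarith, hm1⟩
    · rcases Finset.mem_insert.1 h3 with rfl | h4
      · rw [Equiv.apply_symm_apply]
        exact ⟨hm2, by linarith⟩
      · exact hg s h4
  obtain ⟨u', hu', h3⟩ := ext0P hc u ((Finset.subset_insert _ _).trans
    (Finset.subset_insert _ _)) ⟨g, hw⟩
  exact ⟨u', hu', m, ub_of (h3 (Finset.mem_insert_self _ _)),
    lb_of (h3 (Finset.mem_insert_of_mem (Finset.mem_insert_self _ _)))⟩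

theorem decP (hc : GoodCtx c) (u : Po c) (x y : Om1) (hxy : x ≠ y) :
    ∃ u' ≤ u, Dl u'.re x y ∨ Dl u'.re y x := by
  obtain ⟨f, hf⟩ := witP hc u
  rcases le_total (f x) (f y) with h | h
  · obtain ⟨u', hu', h1⟩ := dec_le hc u f hf x y hxy h
    exact ⟨u', hu', Or.inl h1⟩
  · obtain ⟨u', hu', h1⟩ := dec_le hc u f hf y x hxy.symm h
    exact ⟨u', hu', Or.inr h1⟩

theorem freshP (hc : GoodCtx c) (u : Po c) (i : Om1) (a b : ℚ) (hab : a < b) :
    ∃ j, i < j ∧ ∃ u' ≤ u, Lb u'.re j a ∧ Ub u'.re j b := by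
  classical
  obtain ⟨f, hf⟩ := witP hc u
  obtain ⟨j, hj⟩ := exists_bd_om (s := insert i {x | ∃ s ∈ u.re, (qc s).1 = x}) (by
    refine Set.Countable.insert _ ?_
    refine ((Finset.finite_toSet u.re).image fun s => (qc s).1).countable.mono ?_
    rintro x ⟨s, hs, rfl⟩
    exact ⟨s, hs, rfl⟩)
  let g : Om1 → ℚ := fun z => if z = j then (a + b) / 2 else f z
  have hg : Wit u.re g := by
    intro s hs
    have h1 : (qc s).1 ≠ j := (hj _ (Or.inr ⟨s, hs, rfl⟩)).ne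
    simp only [g, if_neg h1]
    exact hf s hs
  obtain ⟨u', hu', _, h3⟩ := addI hc u g hg j a b (by simp only [g, if_pos]; linarith)
    (by simp only [g, if_pos]; linarith)
  exact ⟨j, hj i (Or.inl rfl), u', hu', lb_of (h3 (Finset.mem_insert_self _ _)),
    ub_of (h3 (Finset.mem_insert_self _ _))⟩

/-- the generic reals -/
theorem repL (hc : GoodCtx c) : Rep c Lb Ub id where
  pmono _ _ _ _ h h' := h'.mono h
  nmono _ _ _ _ h h' := h'.mono h
  pdown G x a b hab h := by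
    obtain ⟨s, h1, h2, h3⟩ := h
    exact ⟨s, h1, h2, hab.le.trans h3⟩
  pval _ _ _ _ h h' := h.lb h'
  nval _ _ _ _ h h' := h.ub h'
  ext u f x a b hf h1 h2 := by
    obtain ⟨u', hu', _, h3⟩ := addI hc u f hf x a b h1 h2
    exact ⟨u', hu', lb_of (h3 (Finset.mem_insert_self _ _)),
      ub_of (h3 (Finset.mem_insert_self _ _))⟩
  fresh u i a b hab := freshP hc u i a b hab
  dec u i j hij := by
    obtain ⟨u', hu', ⟨q, h1, h2⟩ | ⟨q, h1, h2⟩⟩ := decP hc u i j hij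
    · exact ⟨u', hu', q, Or.inl ⟨h1, h2⟩⟩
    · exact ⟨u', hu', q, Or.inr ⟨h1, h2⟩⟩

/-- their negatives -/
theorem repU (hc : GoodCtx c) : Rep c (fun G x a => Ub G x (-a)) (fun G x a => Lb G x (-a))
    (fun q => -q) where
  pmono _ _ _ _ h h' := h'.mono h
  nmono _ _ _ _ h h' := h'.mono h
  pdown G x a b hab h := by
    obtain ⟨s, h1, h2, h3⟩ := h
    exact ⟨s, h1, h2, h3.trans (neg_le_neg hab.le)⟩
  pval _ _ _ _ h h' := lt_neg.1 (h.ub h')
  nval _ _ _ _ h h' := neg_lt.1 (h.lb h')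
  ext u f x a b hf h1 h2 := by
    obtain ⟨u', hu', _, h3⟩ := addI hc u f hf x (-b) (-a) (neg_lt.1 h2) (lt_neg.1 h1)
    exact ⟨u', hu', ub_of (h3 (Finset.mem_insert_self _ _)),
      lb_of (h3 (Finset.mem_insert_self _ _))⟩
  fresh u i a b hab := by
    obtain ⟨j, hj, u', hu', h1, h2⟩ := freshP hc u i (-b) (-a) (neg_lt_neg hab)
    exact ⟨j, hj, u', hu', h2, h1⟩
  dec u i j hij := by
    obtain ⟨u', hu', ⟨q, h1, h2⟩ | ⟨q, h1, h2⟩⟩ := decP hc u i j hij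
    · exact ⟨u', hu', -q, Or.inr ⟨by rwa [neg_neg], by rwa [neg_neg]⟩⟩
    · exact ⟨u', hu', -q, Or.inl ⟨by rwa [neg_neg], by rwa [neg_neg]⟩⟩

theorem not_ba (hc : GoodCtx c) (p : Po c) : p ∈ fnot (BAN (Po c)) := by
  classical
  intro q hq hcon
  let Y : Om1 → ℚ → Set (Po c) := cutN c fun G x a => Ub G x (-a)
  obtain ⟨q0, hq0, hq02⟩ := mem_fimp.1 (hcon (cutN c Lb) Y) q
    (le_refl _) ⟨(repL hc).dense hc q, (repU hc).dense hc q⟩
  obtain ⟨q1, hq1, h, hfun, honto, hord⟩ := mem_fex.1 hq02 q0 (le_refl _)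
  -- order
  have hord' : ∀ u ≤ q1, ∀ x x' y y', u ∈ meets (h x y) → u ∈ meets (h x' y') → Dl u.re x x' →
      ∃ v ≤ u, v ∈ CutLtN (Y y) (Y y') := by
    rintro u hu x x' y y' h1 h2 ⟨q, h3, h4⟩
    exact mem_fimp.1 (hord x x' y y') u hu ⟨h1, h2, (repL hc).lt hc h3 h4⟩
  have hinj : ∀ u ≤ q1, ∀ x x' y, u ∈ meets (h x y) → u ∈ meets (h x' y) → x = x' := by
    intro u hu x x' y h1 h2
    by_contra hne
    obtain ⟨u', hu', h3 | h3⟩ := decP hc u x x' hne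
    · obtain ⟨v, _, hv⟩ := hord' u' (hu'.trans hu) x x' y y (down_meets _ _ h1 _ hu')
        (down_meets _ _ h2 _ hu') h3
      exact (repU hc).irrefl hc hv
    · obtain ⟨v, _, hv⟩ := hord' u' (hu'.trans hu) x' x y y (down_meets _ _ h2 _ hu')
        (down_meets _ _ h1 _ hu') h3
      exact (repU hc).irrefl hc hv
  let Ey : Om1 → Set (Po c) := fun y => {u | ∃ x, u ∈ meets (h x y)}
  let E : List Om1 → Set (Po c) := fun a => {u | ∃ x y, a = [x, y] ∧ u ∈ meets (h x y)}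
  obtain ⟨N, hNN, ⟨⟨c1, c2⟩, c3⟩, hNI, -, -, q2, hq2, hN2⟩ := addNodeP hc (s := (∅ : Set K))
    (φ := fun N => ((∀ y : Om1, (om y : K) ∈ N → ∀ p : Po c, N ∈ p.1.base.Nd → ∀ e0 ∈ Ey y,
      p ≤ e0 → ∃ e ∈ Ey y, InX N e.1 ∧ ∃ u : Po c, u ≤ p ∧ u ≤ e) ∧
      ∀ y : Om1, (om y : K) ∈ N → ∀ v, InX N v → ∀ hv : v ∈ PT c ∧ (fib v c.z0).Nonempty,
      (∃ x, (⟨v, hv⟩ : Po c) ∈ meets (h x y)) →
        ∃ x : Om1, (om x : K) ∈ N ∧ (⟨v, hv⟩ : Po c) ∈ meets (h x y)) ∧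
      ∀ p : Po c, N ∈ p.1.base.Nd → ∀ a, Out N a → ∀ e0 ∈ E a, p ≤ e0 →
      ∃ b, Ins N b ∧ ∃ e ∈ E b, InX N e.1 ∧ ∃ u : Po c, u ≤ p ∧ u ≤ e ∧
        List.Forall₂ (Dl u.re) b a)
    (cc_and (cc_and (cc_om fun y => genP0 hc _) (cc_value (fun (y : Om1) N => (om y : K) ∈ N)
      (fun φ hφ => cc_om hφ) (fun y x => meets (h x y)))) (genP hc E)) countable_empty q1
  obtain ⟨w, hw, y, hy⟩ := mem_fex.1 (hfun.1 (dl N)) q2 hq2
  have hwN : N ∈ w.1.base.Nd := (Pr_le.1 hw).2.1 hN2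
  have hwq : w ≤ q1 := hw.trans hq2
  have hyN : (om y : K) ∉ N := by
    intro hyN
    obtain ⟨e, he, heN, u, huw, hue⟩ := c1 y hyN w hwN w ⟨_, hy⟩ (le_refl _)
    obtain ⟨x, hx, hxe⟩ := c2 y hyN e.1 heN e.2 he
    have h3 := hinj u (huw.trans hwq) x (dl N) y (down_meets _ _ hxe _ hue)
      (down_meets _ _ hy _ huw)
    exact (b_dl hNN).1 (h3 ▸ hx)
  obtain ⟨b, -, e, ⟨x', y', rfl, he⟩, -, u, huw, hue, hb⟩ := c3 w hwN [dl N, y] (by
    intro t ht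
    rcases List.mem_cons.1 ht with h1 | h1
    · rw [h1]; exact (b_dl hNN).1
    · rw [List.mem_singleton.1 h1]; exact hyN) w ⟨_, _, rfl, hy⟩ (le_refl _)
  rw [List.forall₂_cons, List.forall₂_cons] at hb
  obtain ⟨v, hv, hv2⟩ := hord' u (huw.trans hwq) x' (dl N) y' y (down_meets _ _ he _ hue)
    (down_meets _ _ hy _ huw) hb.1
  obtain ⟨q', h1, h2⟩ := hb.2.1
  refine (repU hc).conv hc (i := y') (j := y) (q := -q') hv2 ?_ ?_
  · simp only [neg_neg]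
    exact h2.mono (re_mono hv)
  · simp only [neg_neg]
    exact h1.mono (re_mono hv)

end Pool.Agent.H633.W
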