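import Pool.Agent.H633.W.Coh

/-!
# The poset, bounded names, coordinates
-/

set_option autoImplicit false
set_option linter.unusedSectionVars false
set_option linter.unusedVariables false

namespace Pool.Agent.H633.W

open Cardinal Set Pool.Agent.Helper669.Forcing Pool.Agent.H915

variable {K : Type} [LinearOrder K] [WellFoundedLT K] [Cod K]

/-- the poset of the iteration -/
def Po (c : Ctx K) : Type := {p : Pr K // p ∈ PT c ∧ (fib p c.z0).Nonempty}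

instance (c : Ctx K) : Preorder (Po c) where
  le p q := p.1 ≤ q.1
  le_refl p := le_refl p.1
  le_trans _ _ _ h h' := le_trans h h'

variable {c : Ctx K}

theorem Po.le_def {p q : Po c} : p ≤ q ↔ p.1 ≤ q.1 := Iff.rfl

/-- strengthening -/
def Po.mk' (u : Po c) (q : Pr K) (hq : q ∈ PT c) (hle : q ≤ u.1) : Po c :=
  ⟨q, hq, u.2.2.mono (fib_mono hle c.z0)⟩

/-- the information about the reals -/
noncomputable def Po.re (u : Po c) : Finset Om1 := fib u.1 c.z0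

theorem re_mono {u v : Po c} (h : u ≤ v) : v.re ⊆ u.re := fib_mono h c.z0

/-- the part of a condition below `τ` -/
noncomputable def Po.ct (p : Po c) (τ : K) (h : c.z0 < τ) : Po c :=
  ⟨cut τ p.1, cut_mem_PT p.2.1 τ, by rw [fib_cut _ h]; exact p.2.2⟩

theorem le_ct (p : Po c) {τ : K} (h : c.z0 < τ) : p ≤ p.ct τ h := le_cut τ p.1

/-- what is needed of the data, part 2 -/
structure BigCtx (c : Ctx K) : Prop extends GoodCtx c where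
  trClub : ∀ h : K → K, ∀ k, ∃ τ, k < τ ∧ Tr τ ∧ ∀ γ < τ, h γ < τ
  grow : ∀ s : Set K, s.Countable → ∀ x ∈ s, x < cd s
  small : ∀ γ : K, ∀ f : Pr K → Om1 → K, ∃ k, ∀ p, Below γ p → ∀ i, f p i < k
  bk : ∀ nm : Finset Om1 → Set (Pr K), (∃ β, ∀ F, ∀ s ∈ nm F, Below β s) →
    (∀ F, ∀ s ∈ nm F, (fib s c.z0).Nonempty) → ∀ k, ∃ γ, k < γ ∧ Tr γ ∧ c.bk γ = nm

/-! ### Genericity at the level of the poset -/

theorem genP (hc : GoodCtx c) (E : List Om1 → Set (Po c)) : CClub fun N : Set K =>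
    ∀ p : Po c, N ∈ p.1.base.Nd → ∀ a, Out N a → ∀ e0 ∈ E a, p ≤ e0 →
      ∃ b, Ins N b ∧ ∃ e ∈ E b, InX N e.1 ∧ ∃ u : Po c, u ≤ p ∧ u ≤ e ∧
        List.Forall₂ (Dl u.re) b a := by
  refine cc_mono (genT hc fun a => Subtype.val '' E a) ?_
  intro N _ h p hN a ha e0 he0 hle
  obtain ⟨b, _, h2, e, ⟨e', he', rfl⟩, heN, u, hu, hup, hue, hd⟩ := h p.1 p.2.1 hN a ha e0.1
    ⟨e0, he0, rfl⟩ hle
  exact ⟨b, h2, e', he', heN, p.mk' u hu hup, hup, hue, hd p.2.2⟩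

/-- genericity without reflection -/
theorem genP0 (hc : GoodCtx c) (E : Set (Po c)) : CClub fun N : Set K =>
    ∀ p : Po c, N ∈ p.1.base.Nd → ∀ e0 ∈ E, p ≤ e0 →
      ∃ e ∈ E, InX N e.1 ∧ ∃ u : Po c, u ≤ p ∧ u ≤ e := by
  refine cc_mono (genP hc fun a => {e | a = [] ∧ e ∈ E}) ?_
  intro N _ h p hN e0 he0 hle
  obtain ⟨b, h2, e, he, heN, u, hup, hue, _⟩ := h p hN [] (fun x hx => absurd hx List.not_mem_nil)
    e0 ⟨rfl, he0⟩ hle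
  exact ⟨e, he.2, heN, u, hup, hue⟩

theorem addNodeP (hc : GoodCtx c) {φ : Set K → Prop} (hφ : CClub φ) {s : Set K} (hs : s.Countable)
    (e : Po c) : ∃ N, Node N ∧ φ N ∧ Ini N ∧ s ⊆ N ∧ InX N e.1 ∧
      ∃ q : Po c, q ≤ e ∧ N ∈ q.1.base.Nd := by
  obtain ⟨N, h1, h2, h3, h4, h5, q, hq, hqe, hN⟩ := addNode' (c := c) hc.trUnb hφ hs e.2.1
  exact ⟨N, h1, h2, h3, h4, h5, e.mk' q hq hqe, hqe, hN⟩

theorem addTrP (hc : GoodCtx c) (p : Po c) {α : K} (hα : Tr α) :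
    ∃ q : Po c, q ≤ p ∧ α ∈ q.1.base.A ∧ q.1.top = p.1.top := by
  obtain ⟨q, hq, h1, h2, h3⟩ := addTr (c := c) hc.trUnb p.2.1 hα
  exact ⟨p.mk' q hq h1, h1, h2, h3⟩

theorem liftP (hc : GoodCtx c) (u : Po c) {τ : K} (hτ : τ ∈ u.1.base.A) {v : Pr K}
    (hv : v ∈ PS c τ) (hle : v ≤ cut τ u.1) : ∃ r : Po c, r ≤ u ∧ r.1 ≤ v ∧
      r.1.base.Nd = u.1.base.Nd ∪ v.base.Nd ∧ ∀ a, a ∈ r.1.top ↔ a ∈ u.1.top ∨ a ∈ v.top := by
  obtain ⟨r, hr, h1, h2, _, h3, h4⟩ := lift (c := c) hc.trUnb u.2.1 hτ hv hle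
  exact ⟨u.mk' r hr h1, h1, h2, h3, h4⟩

/-- more intervals -/
theorem ext0P (hc : GoodCtx c) (p : Po c) {F : Finset Om1} (hF : p.re ⊆ F)
    (hw : ∃ f, Wit F f) : ∃ q ≤ p, F ⊆ q.re := by
  obtain ⟨q, hq, h1, h2⟩ := ext0 hc p.2.1 p.2.2 hF hw
  exact ⟨p.mk' q hq h1, h1, h2⟩

theorem witP (hc : GoodCtx c) (p : Po c) : ∃ f, Wit p.re f := exists_wit hc p.2.1

/-! ### Bounded names -/

/-- a bound for a condition -/
noncomputable def bd (p : Pr K) : K :=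
  cd (p.base.A ∪ (⋃ Q ∈ p.base.Nd, Q) ∪ {ζ | ∃ x, (ζ, x) ∈ p.top})

theorem bd_ctb (p : Pr K) :
    (p.base.A ∪ (⋃ Q ∈ p.base.Nd, Q) ∪ {ζ | ∃ x, (ζ, x) ∈ p.top}).Countable := by
  refine (p.base.finA.countable.union ?_).union ?_
  · exact p.base.finN.countable.biUnion fun Q hQ => (p.base.nd Q hQ).ctbl
  · refine ((Finset.finite_toSet p.top).image Prod.fst).countable.mono ?_
    rintro ζ ⟨x, hx⟩
    exact ⟨(ζ, x), hx, rfl⟩

theorem below_bd (hc : BigCtx c) (p : Pr K) : Below (bd p) p := by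
  have h := hc.grow _ (bd_ctb p)
  refine ⟨fun τ hτ => h τ (Or.inl (Or.inl hτ)), fun Q hQ x hx => h x (Or.inl (Or.inr ?_)),
    fun a ha => h a.1 (Or.inr ⟨a.2, ha⟩)⟩
  exact mem_biUnion hQ hx

theorem bd_lt {p : Pr K} {τ : K} (hτ : Tr τ) (h : Below τ p) : bd p < τ := by
  refine (hτ.2 _ (bd_ctb p)).1 ?_
  rintro x ((hx | hx) | ⟨y, hx⟩)
  · exact h.1 hx
  · obtain ⟨Q, hQ, hxQ⟩ := mem_iUnion₂.1 hx
    exact h.2.1 Q hQ hxQ
  · exact h.2.2 _ hx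

/-- `A` is decided below `τ` -/
def BN (τ : K) (A : Set (Po c)) : Prop :=
  ∀ u : Po c, τ ∈ u.1.base.A → u ∈ meets A → ∀ v : Po c, v.1 ≤ cut τ u.1 → v ∈ meets A

theorem exists_BN (hc : BigCtx c) {I : Type} (hI : #I ≤ ℵ₁) (A : I → Set (Po c)) (k : K) :
    ∃ τ, k < τ ∧ c.z0 < τ ∧ Tr τ ∧ ∀ i, BN τ (A i) := by
  classical
  -- reduce to the index set `ω₁`
  suffices H : ∀ A : Om1 → Set (Po c), ∃ τ, k < τ ∧ c.z0 < τ ∧ Tr τ ∧ ∀ i, BN τ (A i) by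
    by_cases hne : Nonempty I
    · have h1 : #I ≤ #Om1 := by rw [Cardinal.mk_ord_toType]; exact hI
      obtain ⟨f⟩ := h1
      obtain ⟨τ, h2, h0, h3, h4⟩ := H fun j => A (Function.invFun f j)
      refine ⟨τ, h2, h0, h3, fun i => ?_⟩
      have := h4 (f i)
      rwa [Function.leftInverse_invFun f.injective i] at this
    · obtain ⟨τ, h2, h3, _⟩ := hc.trClub (fun _ => max k c.z0) (max k c.z0)
      exact ⟨τ, (le_max_left _ _).trans_lt h2, (le_max_right _ _).trans_lt h2, h3,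
        fun i => absurd ⟨i⟩ hne⟩
  intro A
  let Inc : Om1 → Set (Po c) := fun i => {v | ∀ r ≤ v, ∀ s ∈ A i, ¬ r ≤ s}
  let f : Pr K → Om1 → K := fun p i =>
    if h : ∃ v : Po c, v ∈ Inc i ∧ v.1 ≤ p then bd h.choose.1 else k
  have hsm := fun γ => hc.small γ f
  choose g hg using hsm
  obtain ⟨τ, h1, h2, h3⟩ := hc.trClub g (max k c.z0)
  refine ⟨τ, (le_max_left _ _).trans_lt h1, (le_max_right _ _).trans_lt h1, h2,
    fun i u hτ hu w hw => ?_⟩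
  by_contra hcon
  have hex : ∃ v : Po c, v ∈ Inc i ∧ v.1 ≤ cut τ u.1 := by
    have h4 : ∃ v, v ≤ w ∧ ∀ r ≤ v, ∀ s ∈ A i, ¬ r ≤ s := by
      by_contra h5
      push Not at h5
      exact hcon fun v hv => by
        obtain ⟨r, hr, s, hs, hrs⟩ := h5 v hv
        exact ⟨r, hr, s, hs, hrs⟩
    obtain ⟨v, h5, h6⟩ := h4
    exact ⟨v, h6, le_trans (show v.1 ≤ w.1 from h5) hw⟩
  have hv := hex.choose_spec
  set v := hex.choose with hvdef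
  have hB := below_cut τ u.1
  have hfv : f (cut τ u.1) i = bd v.1 := by
    simp only [f]
    rw [dif_pos hex]
  have hlt : bd v.1 < τ := by
    rw [← hfv]
    exact (hg _ _ (below_bd hc _) i).trans (h3 _ (bd_lt h2 hB))
  have hvS : v.1 ∈ PS c τ := mem_PS.2 ⟨(below_bd hc v.1).mono hlt.le, v.2.1⟩
  obtain ⟨r, hru, hrv, _⟩ := liftP hc.toGoodCtx u hτ hvS hv.2
  obtain ⟨r', hr', s, hs, hrs⟩ := hu r hru
  exact hv.1 r' (hr'.trans hrv) s hs hrs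

/-- a regular set of conditions -/
def Reg (A : Set (Po c)) : Prop := Down A ∧ ∀ p, p ∈ meets A → p ∈ A

theorem Reg.meets {A : Set (Po c)} (h : Reg A) {p : Po c} : p ∈ meets A ↔ p ∈ A :=
  ⟨h.2 p, meets_of_mem⟩

theorem reg_meets (A : Set (Po c)) : Reg (meets A) := by
  refine ⟨down_meets A, fun p hp q hq => ?_⟩
  obtain ⟨r, hr, s, hs, hrs⟩ := hp q hq
  obtain ⟨r', hr', t, ht, hrt⟩ := hs r hrs
  exact ⟨r', hr'.trans hr, t, ht, hrt⟩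

/-- the name below `β` for a family given by conditions of the whole poset -/
def nmOf (β : K) (Φ : Finset Om1 → Set (Po c)) : Finset Om1 → Set (Pr K) :=
  fun F => {s | Below β s ∧ ∃ h : s ∈ PT c ∧ (fib s c.z0).Nonempty, (⟨s, h⟩ : Po c) ∈ Φ F}

theorem nm_in {β : K} {Φ : Finset Om1 → Set (Po c)} (hΦ : ∀ F, Down (Φ F)) {u : Po c}
    {F : Finset Om1} (h : Fo (nmOf β Φ) u.1 F) : u ∈ Φ F := by
  obtain ⟨s, ⟨_, hs, h1⟩, hle⟩ := h
  exact hΦ F _ h1 u hle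

theorem nm_z0 {β : K} {Φ : Finset Om1 → Set (Po c)} {p : Pr K} {F : Finset Om1}
    (h : Fo (nmOf β Φ) p F) : (fib p c.z0).Nonempty := by
  obtain ⟨s, ⟨_, hs, _⟩, hle⟩ := h
  exact hs.2.mono (fib_mono hle c.z0)

theorem nm_out {β : K} {Φ : Finset Om1 → Set (Po c)} (hΦ : ∀ F, Reg (Φ F)) {u : Po c}
    {F : Finset Om1} (hb : BN β (Φ F)) (hz : c.z0 < β) (hβ : β ∈ u.1.base.A) (h : u ∈ Φ F)
    {γ : K} (hγ : β ≤ γ) : Fo (nmOf β Φ) (cut γ u.1) F := by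
  refine ⟨cut β u.1, ⟨below_cut β u.1, (u.ct β hz).2, ?_⟩, ?_⟩
  · exact (hΦ F).2 _ (hb u hβ (meets_of_mem h) (u.ct β hz) (le_refl _))
  · have := le_cut β (cut γ u.1)
    rwa [cut_cut _ hγ] at this

/-! ### A coordinate -/

/-- `γ` is a coordinate for the family `Φ` -/
structure IsCo (c : Ctx K) (β γ : K) (Φ : Finset Om1 → Set (Po c)) : Prop where
  tr : Tr γ
  trβ : Tr β
  lt : β < γ
  z0 : c.z0 < β
  reg : ∀ F, Reg (Φ F)
  bn : ∀ F, BN β (Φ F)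
  nm : NM c γ = nmOf β Φ

theorem IsCo.fibMem {β γ : K} {Φ : Finset Om1 → Set (Po c)} (h : IsCo c β γ Φ) {u : Po c}
    (hu : (fib u.1 γ).Nonempty) : u ∈ Φ (fib u.1 γ) := by
  have h1 := (u.2.1 γ hu).2.1
  rw [h.nm] at h1
  exact (h.reg _).1 _ (nm_in (u := u.ct γ (h.z0.trans h.lt)) (fun F => (h.reg F).1) h1) u
    (le_ct u _)

/-- Extension at the coordinate. -/
theorem IsCo.ext (hc : GoodCtx c) {β γ : K} {Φ : Finset Om1 → Set (Po c)} (h : IsCo c β γ Φ)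
    {u w : Po c} {F : Finset Om1} (hwu : w ≤ u) (hγA : γ ∈ u.1.base.A) (hfF : fib u.1 γ ⊆ F)
    (hw : w ∈ Φ F) (hgen : ∀ Q ∈ u.1.base.Nd, γ ∈ Q →
      Rel c (PS c γ) (NM c γ) γ (Q ∩ Iio (nx γ)) →
      Gnr c γ (PS c γ) (NM c γ) (Q ∩ Iio (nx γ)) (cut γ u.1) (fib u.1 γ)) :
    ∃ z : Po c, z ≤ u ∧ z.1 ≤ cut γ w.1 ∧ F ⊆ fib z.1 γ := by
  obtain ⟨w', hw', hβw, _⟩ := addTrP hc w h.trβ
  have hFo : Fo (NM c γ) (cut γ w'.1) F := by
    rw [h.nm]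
    exact nm_out h.reg (h.bn F) h.z0 hβw ((h.reg F).1 _ hw _ hw') h.lt.le
  obtain ⟨r, hru, hrc, hrN, hrt⟩ := liftP hc u hγA (cut_mem w'.2.1 γ)
    (cut_mono (hw'.trans hwu) γ)
  have hcr : cut γ r.1 ≤ cut γ w'.1 := cut_le_of_below (below_cut γ w'.1) hrc
  have hfr : fib r.1 γ = fib u.1 γ := by
    ext x
    rw [mem_fib, mem_fib, hrt]
    constructor
    · rintro (h1 | h1)
      · exact h1
      · exact absurd (mem_cut_top.1 h1).2 (lt_irrefl _)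
    · exact Or.inl
  obtain ⟨q, hq, hqr, hFq, _⟩ := step hc.trUnb r.2.1 ((Pr_le.1 hru).1 hγA) (F := F)
    (by rw [hfr]; exact hfF) (hFo.mono hcr) (by
      intro Q hQ hγQ hR
      left
      rw [hrN] at hQ
      rcases hQ with h1 | h1
      · exact (hgen Q h1 hγQ hR).mono (cut_mono hru γ) hfF
      · exact absurd (h1.2 hγQ) (lt_irrefl _))
  refine ⟨r.mk' q hq hqr, le_trans hqr hru, ?_, hFq⟩
  exact (hqr.trans hrc).trans (cut_mono hw' γ)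

/-- Extension at the coordinate, for conditions which have the coordinate. -/
theorem IsCo.ext' (hc : GoodCtx c) {β γ : K} {Φ : Finset Om1 → Set (Po c)} (h : IsCo c β γ Φ)
    {u w : Po c} {F : Finset Om1} (hwu : w ≤ u) (hne : (fib u.1 γ).Nonempty)
    (hfF : fib u.1 γ ⊆ F) (hw : w ∈ Φ F) :
    ∃ z : Po c, z ≤ u ∧ z.1 ≤ cut γ w.1 ∧ F ⊆ fib z.1 γ :=
  h.ext hc hwu (u.2.1 γ hne).1 hfF hw (u.2.1 γ hne).2.2

/-- The coordinate can be added. -/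
theorem IsCo.start (hc : GoodCtx c) {β γ : K} {Φ : Finset Om1 → Set (Po c)} (h : IsCo c β γ Φ)
    {u : Po c} (hu : u ∈ Φ (fib u.1 γ)) (hne : ∀ v ≤ u, ∀ F, v ∈ Φ F → ∃ w ≤ v, ∃ x, w ∈ Φ
      (insert x F)) : ∃ z : Po c, z ≤ u ∧ (fib z.1 γ).Nonempty := by
  by_cases hf : (fib u.1 γ).Nonempty
  · exact ⟨u, le_refl _, hf⟩
  have hf0 := fib_empty hf
  obtain ⟨u1, hu1, hβ1, ht1⟩ := addTrP hc u h.trβ
  obtain ⟨u2, hu2, hγ2, ht2⟩ := addTrP hc u1 h.tr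
  have hf2 : fib u2.1 γ = ∅ := by
    rw [← hf0]
    ext x
    rw [mem_fib, mem_fib, ht2, ht1]
  have hFo : Fo (NM c γ) (cut γ u2.1) ∅ := by
    rw [h.nm]
    rw [hf0] at hu
    exact nm_out h.reg (h.bn ∅) h.z0 ((Pr_le.1 hu2).1 hβ1) ((h.reg ∅).1 _ hu _ (hu2.trans hu1))
      h.lt.le
  obtain ⟨q, hq, hqu, _, hqF, hqg, _⟩ := step hc.trUnb u2.2.1 hγ2 (F := ∅) (by rw [hf2]) hFo
    (fun Q _ _ _ => Or.inr fun x hx => absurd hx (Finset.notMem_empty _))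
  let q' : Po c := u2.mk' q hq hqu
  have hq2 : q' ≤ u2 := hqu
  have hq1 : q' ≤ u := hq2.trans (hu2.trans hu1)
  have hqΦ : q' ∈ Φ (fib q'.1 γ) := by
    rw [h.nm] at hqF
    exact (h.reg _).1 _ (nm_in (u := q'.ct γ (h.z0.trans h.lt)) (fun F => (h.reg F).1) hqF) _
      (le_ct q' _)
  obtain ⟨w, hw, x, hwx⟩ := hne q' hq1 _ hqΦ
  obtain ⟨z, hz1, hz2, hz3⟩ := h.ext hc hw ((Pr_le.1 hqu).1 hγ2) (Finset.subset_insert _ _) hwx hqg
  exact ⟨z, hz1.trans hq1, ⟨x, hz3 (Finset.mem_insert_self _ _)⟩⟩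

/-- Existence of coordinates. -/
theorem exists_co (hc : BigCtx c) {β : K} (hz : c.z0 < β) (hβ : Tr β)
    {Φ : Finset Om1 → Set (Po c)} (hreg : ∀ F, Reg (Φ F)) (hbn : ∀ F, BN β (Φ F))
    (hcand : ∀ γ, Tr γ → β < γ → Cand c (PS c γ) (nmOf β Φ) γ) (k : K) :
    ∃ γ, k < γ ∧ IsCo c β γ Φ := by
  obtain ⟨γ, h1, h2, h3⟩ := hc.bk (nmOf β Φ) ⟨β, fun F s hs => hs.1⟩ (fun F s hs => hs.2.choose.2)
    (max k β)
  refine ⟨γ, (le_max_left _ _).trans_lt h1, h2, hβ, (le_max_right _ _).trans_lt h1, hz, hreg, hbn,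
    ?_⟩
  rw [NM_eq, h3, if_pos (hcand γ h2 ((le_max_right _ _).trans_lt h1))]

end Pool.Agent.H633.W
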