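import Pool.Agent.H633.W.Poset

/-!
# Decomposing sequences of finite sequences into countably many chains
-/

set_option autoImplicit false
set_option linter.unusedSectionVars false
set_option linter.unusedVariables false

namespace Pool.Agent.H633.W

open Cardinal Set Pool.Agent.Helper669.Forcing Pool.Agent.H915

/-- entries of a list -/
noncomputable def gt (l : List Om1) (n : ℕ) : Om1 := l.getD n (Classical.arbitrary Om1)

theorem gt_mem {l : List Om1} {n : ℕ} (h : n < l.length) : gt l n ∈ l := by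
  unfold gt
  rw [List.getD_eq_getElem l _ h]
  exact List.getElem_mem h

theorem exists_ix (A v : List Om1) (h : ∀ y ∈ v, y ∈ A) :
    ∃ ix : List ℕ, (∀ s ∈ ix, s < A.length) ∧ ix.map (gt A) = v := by
  induction v with
  | nil => exact ⟨[], by simp, rfl⟩
  | cons y v ih =>
    obtain ⟨ix, h1, h2⟩ := ih fun z hz => h z (List.mem_cons_of_mem _ hz)
    obtain ⟨n, hn, hy⟩ := List.getElem_of_mem (h y List.mem_cons_self)
    refine ⟨n :: ix, ?_, ?_⟩
    · intro s hs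
      rcases List.mem_cons.1 hs with rfl | hs
      · exact hn
      · exact h1 s hs
    · rw [List.map_cons, h2]
      congr 1
      unfold gt
      rw [List.getD_eq_getElem A _ hn, hy]

theorem f2_map {R : Om1 → Om1 → Prop} {A B : List Om1} (h : List.Forall₂ R A B) {ix : List ℕ}
    (hix : ∀ s ∈ ix, s < B.length) : List.Forall₂ R (ix.map (gt A)) (ix.map (gt B)) := by
  induction ix with
  | nil => exact List.Forall₂.nil
  | cons n ix ih =>
    refine List.Forall₂.cons ?_ (ih fun s hs => hix s (List.mem_cons_of_mem _ hs))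
    have hn := hix n List.mem_cons_self
    have hn' : n < A.length := by rw [h.length_eq]; exact hn
    unfold gt
    rw [List.getD_eq_getElem A _ hn', List.getD_eq_getElem B _ hn]
    exact (List.forall₂_iff_get.1 h).2 n hn' hn

theorem f2_imp {R S : ℕ → ℕ → Prop} {M : ℕ} {l l' : List ℕ} (h : List.Forall₂ R l l')
    (hl : ∀ s ∈ l, s < M) (hl' : ∀ s ∈ l', s < M) (hRS : ∀ s < M, ∀ t < M, R s t → S s t) :
    List.Forall₂ S l l' := by
  induction h with
  | nil => exact List.Forall₂.nil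
  | cons h1 h2 ih =>
    exact List.Forall₂.cons (hRS _ (hl _ List.mem_cons_self) _ (hl' _ List.mem_cons_self) h1)
      (ih (fun s hs => hl s (List.mem_cons_of_mem _ hs))
        fun s hs => hl' s (List.mem_cons_of_mem _ hs))

theorem f2_mapmap {R : Om1 → Om1 → Prop} {A B : List Om1} {l l' : List ℕ} :
    List.Forall₂ R (l.map (gt A)) (l'.map (gt B)) ↔
      List.Forall₂ (fun s t => R (gt A s) (gt B t)) l l' := by
  rw [List.forall₂_map_left_iff, List.forall₂_map_right_iff]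

theorem exists_code : Nonempty (Om1 × Om1 × ℕ ≃ Om1) := by
  rw [← Cardinal.eq]
  have h : #Om1 = ℵ₁ := Cardinal.mk_ord_toType _
  simp only [Cardinal.mk_prod, Cardinal.lift_id, h, Cardinal.mk_nat]
  have h1 : (ℵ₁ : Cardinal.{0}) * ℵ₀ = ℵ₁ :=
    Cardinal.mul_aleph0_eq (Cardinal.aleph0_le_aleph 1)
  rw [h1, Cardinal.mul_eq_self (Cardinal.aleph0_le_aleph 1)]

/-- the code of `(δ, z, n)` -/
noncomputable def cde : Om1 × Om1 × ℕ ≃ Om1 := Classical.choice exists_code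

/-- comparable finite sequences -/
def Cmpb (G : Finset Om1) (a b : List Om1) : Prop :=
  List.Forall₂ (Dl G) a b ∨ List.Forall₂ (Dl G) b a

theorem Cmpb.mono {G G' : Finset Om1} (h : G ⊆ G') {a b : List Om1} (hc : Cmpb G a b) :
    Cmpb G' a b := by
  rcases hc with h1 | h1
  · exact Or.inl (f2_dl h h1)
  · exact Or.inr (f2_dl h h1)

variable {K : Type} [LinearOrder K] [WellFoundedLT K] [Cod K] {c : Ctx K}

section

variable (V : Om1 → Om1 → List Om1 → Set (Po c))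

/-- names of the sequence, at the element with code `x` -/
def Vx (x : Om1) (a : List Om1) : Set (Po c) := V (cde.symm x).1 (cde.symm x).2.1 a

/-- the finite sets of colored indices such that indices with the same color have comparable
values -/
def OKF (F : Finset Om1) : Set (Po c) :=
  {u | (∀ x ∈ F, (cde.symm x).2.1 < (cde.symm x).1 ∧ ∃ a, u ∈ Vx V x a) ∧
    ∀ x ∈ F, ∀ y ∈ F, (cde.symm x).2.2 = (cde.symm y).2.2 → x ≠ y → ∀ a b, u ∈ Vx V x a →
      u ∈ Vx V y b → Cmpb u.re a b}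

/-- `V` names a function defined on pairs -/
structure IsSeq : Prop where
  reg : ∀ δ z a, Reg (V δ z a)
  single : ∀ δ z a b u, u ∈ V δ z a → u ∈ V δ z b → a = b
  ge : ∀ δ z a u, u ∈ V δ z a → ∀ x ∈ a, δ ≤ x

variable {V}

theorem OKF_down (hV : IsSeq V) (F : Finset Om1) : Down (OKF V F) := by
  rintro u ⟨h1, h2⟩ v hv
  refine ⟨fun x hx => ⟨(h1 x hx).1, ?_⟩, ?_⟩
  · obtain ⟨a, ha⟩ := (h1 x hx).2
    exact ⟨a, (hV.reg _ _ _).1 _ ha v hv⟩
  · intro x hx y hy hxy hne a b ha hb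
    obtain ⟨a', ha'⟩ := (h1 x hx).2
    obtain ⟨b', hb'⟩ := (h1 y hy).2
    have e1 := hV.single _ _ _ _ _ ha ((hV.reg _ _ _).1 _ ha' v hv)
    have e2 := hV.single _ _ _ _ _ hb ((hV.reg _ _ _).1 _ hb' v hv)
    rw [e1, e2]
    exact (h2 x hx y hy hxy hne a' b' ha' hb').mono (re_mono hv)

theorem OKF_mono {F F' : Finset Om1} (h : F ⊆ F') : OKF V F' ⊆ OKF V F :=
  fun u hu => ⟨fun x hx => hu.1 x (h hx), fun x hx y hy => hu.2 x (h hx) y (h hy)⟩

/-- the family for the reflection argument -/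
def EE (V : Om1 → Om1 → List Om1 → Set (Po c)) (γ k : K) (Fi : Finset Om1)
    (θ : ℕ × List (ℕ × List ℕ) × List (ℕ × ℕ × ℚ)) (l : List Om1) : Set (Pr K) :=
  {e | e ∈ PS c γ ∧ ∃ h : e ∈ PT c ∧ (fib e c.z0).Nonempty, ∃ e0 ∈ c.en k (l.take θ.1), e ≤ e0.1 ∧
    ∃ L : List Om1, (∀ x ∈ e0.2, x ∈ Fi ∨ x ∈ L) ∧
      List.Forall₂ (fun x s => (cde.symm x).2.2 = s.1 ∧
        (⟨e, h⟩ : Po c) ∈ Vx V x (s.2.map (gt l))) L θ.2.1 ∧
      (⟨e, h⟩ : Po c) ∈ OKF V (Fi ∪ L.toFinset) ∧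
      ∀ t ∈ θ.2.2, Ub (fib e c.z0) (gt l t.1) t.2.2 ∧ Lb (fib e c.z0) (gt l t.2.1) t.2.2}

/-- The family of finite sets `meets (OKF V F)` can be used at each coordinate above `β`. -/
theorem sigmaCand (hc : BigCtx c) (hV : IsSeq V) {β : K} (hz : c.z0 < β) (hβ : Tr β)
    (hbV : ∀ δ z a, BN β (V δ z a)) (hbF : ∀ F, BN β (meets (OKF V F))) (γ : K) (hγ : Tr γ)
    (hβγ : β < γ) : Cand c (PS c γ) (nmOf β fun F => meets (OKF V F)) γ := by
  classical
  obtain ⟨hn1, hn2⟩ := nx_spec hc.trUnb γ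
  have hzγ : c.z0 < γ := hz.trans hβγ
  set nm := nmOf β fun F => meets (OKF V F) with hnm
  have hreg : ∀ F, Reg (meets (OKF V F)) := fun F => reg_meets _
  refine cand_of hc.toGoodCtx hγ _ ?_
  have cA : CClub fun N : Set K => ∀ k ∈ N, ∀ Fi, FIn N Fi → ∀ θ, (γ ∈ N → ∀ p ∈ PS c γ,
      N ∩ Iio γ ∈ p.base.Nd → ∀ a, Out N a → ∀ e0 ∈ EE V γ k Fi θ a, p ≤ e0 →
        ∃ b, b.length = a.length ∧ Ins N b ∧ ∃ e ∈ EE V γ k Fi θ b, InX N e ∧
          ∃ u ∈ PS c γ, u ≤ p ∧ u ≤ e ∧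
            ((fib p c.z0).Nonempty → List.Forall₂ (Dl (fib u c.z0)) b a)) :=
    cc_diag fun k => cc_fin fun Fi => cc_ctb fun θ =>
      genS hc.toGoodCtx hγ (EE V γ k Fi θ) fun a e he => (mem_PS.1 he.1).1
  have cB : CClub fun N : Set K => ∀ k ∈ N, ∀ Fi, FIn N Fi → ∀ θ, ∀ l, Ins N l → ∀ e, InX N e →
      e ∈ EE V γ k Fi θ l → ∃ h : e ∈ PT c ∧ (fib e c.z0).Nonempty,
        ∃ e0 ∈ c.en k (l.take θ.1), InX N e0.1 ∧
        FIn N e0.2 ∧ e ≤ e0.1 ∧ ∃ L : List Om1, Ins N L ∧ (∀ x ∈ e0.2, x ∈ Fi ∨ x ∈ L) ∧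
      List.Forall₂ (fun x s => (cde.symm x).2.2 = s.1 ∧
        (⟨e, h⟩ : Po c) ∈ Vx V x (s.2.map (gt l))) L θ.2.1 ∧
      (⟨e, h⟩ : Po c) ∈ OKF V (Fi ∪ L.toFinset) ∧
      ∀ t ∈ θ.2.2, Ub (fib e c.z0) (gt l t.1) t.2.2 ∧ Lb (fib e c.z0) (gt l t.2.1) t.2.2 := by
    refine cc_diag fun k => cc_fin fun Fi => cc_ctb fun θ => cc_list fun l => cc_pr fun e => ?_
    by_cases hE : e ∈ EE V γ k Fi θ l
    · obtain ⟨_, h, e0, h1, h2, L, h3, h4, h5, h6⟩ := hE
      refine cc_mono (cc_and (cc_inX e0.1) (cc_and (cc_fIn e0.2) (cc_fIn L.toFinset)))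
        fun N _ hN _ => ⟨h, e0, h1, hN.1, hN.2.1, h2, L, ?_, h3, h4, h5, h6⟩
      exact fun x hx => hN.2.2 x (List.mem_toFinset.2 hx)
    · exact cc_true fun N h' => absurd h' hE
  have cC : CClub fun N : Set K => ∀ δ : Om1, (om δ : K) ∈ N → ∀ z : Om1, (om z : K) ∈ N →
      ∀ n : ℕ, (om (cde (δ, z, n)) : K) ∈ N :=
    cc_om fun δ => cc_om fun z => cc_nat fun n => cc_mem _
  refine cc_mono (cc_and (cc_and cc_node cc_ini) (cc_and cA (cc_and cB cC))) ?_
  rintro N - ⟨⟨hNN, hNI⟩, dA, dB, dC⟩ hγN p hp hNp F _ hFo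
  refine ⟨p, hp, le_refl _, F, Finset.Subset.refl _, hFo, ?_⟩
  rintro k ⟨hkN, hkσ⟩ p' hp' hple F' hFF hFo' a ha ⟨e0, F0⟩ he0 hpe0 hF0
  rw [inter_inter_of_le hn1.le] at hNp
  simp only at hpe0 hF0
  have haN : Out N a := fun x hx h => ha x hx ⟨h, hn2.1 x⟩
  -- decide the values
  have hp'T : p' ∈ PT c ∧ (fib p' c.z0).Nonempty := ⟨PS_sub hp', nm_z0 hFo'⟩
  have h1 : (⟨p', hp'T⟩ : Po c) ∈ meets (OKF V F') := nm_in (fun F => (hreg F).1) hFo'
  obtain ⟨w0, hw0, s0, hs0, hws0⟩ := h1 ⟨p', hp'T⟩ (le_refl _)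
  have hw0F := OKF_down hV F' s0 hs0 w0 hws0
  have hval0 : ∀ x ∈ F', ∃ a, w0 ∈ Vx V x a := fun x hx => (hw0F.1 x hx).2
  choose! val hval0 using hval0
  -- the part inside `N` and the part outside `N`
  let Fi := F'.filter fun x => (om x : K) ∈ N
  let L := (F'.filter fun x => ¬ (om x : K) ∈ N).toList
  have hL : ∀ x, x ∈ L ↔ x ∈ F' ∧ (om x : K) ∉ N := fun x => by
    simp only [L, Finset.mem_toList, Finset.mem_filter]
  let A : List Om1 := a ++ L.flatMap val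
  obtain ⟨w1, hw1, hβ1, _⟩ := addTrP hc.toGoodCtx w0 hβ
  have hw1F := OKF_down hV F' w0 hw0F w1 hw1
  -- the condition below `γ`
  have hP2 : cut γ w1.1 ∈ PS c γ := cut_mem w1.2.1 γ
  set p2 : Po c := w1.ct γ hzγ with hp2
  have hp2e : p2.1 = cut γ w1.1 := rfl
  have hre2 : p2.re = w1.re := fib_cut _ hzγ
  have hVcut : ∀ x a, w1 ∈ Vx V x a → p2 ∈ Vx V x a := by
    intro x a h
    have h2 := (hV.reg _ _ _).2 _ (hbV _ _ _ w1 hβ1 (meets_of_mem h) (w1.ct β hz) (le_refl _))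
    refine (hV.reg _ _ _).1 _ h2 _ ?_
    have := le_cut β (cut γ w1.1)
    rw [cut_cut _ hβγ.le] at this
    exact this
  have hval : ∀ x ∈ F', p2 ∈ Vx V x (val x) := fun x hx =>
    hVcut x _ ((hV.reg _ _ _).1 _ (hval0 x hx) _ hw1)
  have hOK2 : p2 ∈ OKF V F' := by
    refine ⟨fun x hx => ⟨(hw1F.1 x hx).1, _, hval x hx⟩, ?_⟩
    intro x hx y hy hxy hne a' b' ha' hb'
    obtain ⟨a1, ha1⟩ := (hw1F.1 x hx).2
    obtain ⟨b1, hb1⟩ := (hw1F.1 y hy).2
    rw [hV.single _ _ _ _ _ ha' (hVcut x a1 ha1), hV.single _ _ _ _ _ hb' (hVcut y b1 hb1), hre2]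
    exact hw1F.2 x hx y hy hxy hne a1 b1 ha1 hb1
  have hcutle : cut γ w1.1 ≤ p' :=
    cut_le_of_below (mem_PS.1 hp').1 ((show w1 ≤ ⟨p', hp'T⟩ from hw1.trans hw0))
  have hFiL : Fi ∪ L.toFinset = F' := by
    ext x
    simp only [Fi, Finset.mem_union, List.mem_toFinset, hL, Finset.mem_filter]
    tauto
  have hLD : ∀ x ∈ L, ∀ y ∈ val x, (om y : K) ∉ N := by
    intro x hx y hy hyN
    obtain ⟨h2, h3⟩ := (hL x).1 hx
    have h4 := hV.ge _ _ _ _ (hval x h2) y hy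
    have hδ : (om (cde.symm x).1 : K) ∈ N := by
      rcases eq_or_lt_of_le h4 with h5 | h5
      · rw [h5]; exact hyN
      · exact hNI y hyN _ h5
    have hz' : (om (cde.symm x).2.1 : K) ∈ N := hNI _ hδ _ (hOK2.1 x h2).1
    have := dC _ hδ _ hz' (cde.symm x).2.2
    rw [show ((cde.symm x).1, (cde.symm x).2.1, (cde.symm x).2.2) = cde.symm x from rfl,
      Equiv.apply_symm_apply] at this
    exact h3 this
  have hAout : Out N A := by
    intro x hx
    rcases List.mem_append.1 hx with h2 | h2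
    · exact haN x h2
    · obtain ⟨y, h3, h4⟩ := List.mem_flatMap.1 h2
      exact hLD y h3 x h4
  have hix : ∀ x, ∃ ix : List ℕ, x ∈ L → (∀ s ∈ ix, s < A.length) ∧ ix.map (gt A) = val x := by
    intro x
    by_cases hx : x ∈ L
    · obtain ⟨ix, h2, h3⟩ := exists_ix A (val x) fun y hy =>
        List.mem_append.2 (Or.inr (List.mem_flatMap.2 ⟨x, hx, hy⟩))
      exact ⟨ix, fun _ => ⟨h2, h3⟩⟩
    · exact ⟨[], fun h => absurd h hx⟩
  choose ix hix using hix
  -- the constraints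
  have hq : ∀ s t : ℕ, ∃ q : ℚ, Dl p2.re (gt A s) (gt A t) → Ub p2.re (gt A s) q ∧
      Lb p2.re (gt A t) q := by
    intro s t
    by_cases h2 : Dl p2.re (gt A s) (gt A t)
    · obtain ⟨q, h3, h4⟩ := h2
      exact ⟨q, fun _ => ⟨h3, h4⟩⟩
    · exact ⟨0, fun h => absurd h h2⟩
  choose qq hqq using hq
  let cons : List (ℕ × ℕ × ℚ) := (((Finset.range A.length) ×ˢ (Finset.range A.length)).filter
    fun s => Dl p2.re (gt A s.1) (gt A s.2)).toList.map fun s => (s.1, s.2, qq s.1 s.2)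
  have hcons : ∀ t ∈ cons, Ub p2.re (gt A t.1) t.2.2 ∧ Lb p2.re (gt A t.2.1) t.2.2 := by
    intro t ht
    obtain ⟨s, h2, rfl⟩ := List.mem_map.1 ht
    rw [Finset.mem_toList, Finset.mem_filter] at h2
    exact hqq _ _ h2.2
  have hcons2 : ∀ s < A.length, ∀ t < A.length, Dl p2.re (gt A s) (gt A t) →
      (s, t, qq s t) ∈ cons := by
    intro s hs t ht hst
    refine List.mem_map.2 ⟨(s, t), ?_, rfl⟩
    rw [Finset.mem_toList, Finset.mem_filter, Finset.mem_product]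
    exact ⟨⟨Finset.mem_range.2 hs, Finset.mem_range.2 ht⟩, hst⟩
  let sh : List (ℕ × List ℕ) := L.map fun x => ((cde.symm x).2.2, ix x)
  have hmemE : p2.1 ∈ EE V γ k Fi (a.length, sh, cons) A := by
    refine ⟨hP2, p2.2, (e0, F0), ?_, hcutle.trans hpe0, L, ?_, ?_, ?_, hcons⟩
    · simp only [A, List.take_left']
      exact he0
    · intro x hx
      have := hF0 hx
      by_cases hxN : (om x : K) ∈ N
      · exact Or.inl (Finset.mem_filter.2 ⟨this, hxN⟩)
      · exact Or.inr ((hL x).2 ⟨this, hxN⟩)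
    · simp only [sh]
      rw [List.forall₂_map_right_iff, List.forall₂_same]
      intro x hx
      refine ⟨rfl, ?_⟩
      dsimp only
      rw [(hix x hx).2]
      exact hval x ((hL x).1 hx).1
    · rw [hFiL]; exact hOK2
  have hNp2 : N ∩ Iio γ ∈ p2.1.base.Nd := (Pr_le.1 (hcutle.trans hple)).2.1 hNp
  obtain ⟨B, hBlen, hBN, e, he, heN, u, hu, hup, hue, hBA'⟩ := dA k hkN Fi
    (fun x hx => (Finset.mem_filter.1 hx).2) (a.length, sh, cons) hγN p2.1 hP2 hNp2 A hAout p2.1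
    hmemE (le_refl _)
  have hBA := hBA' p2.2.2
  obtain ⟨heT, ⟨f0, G0⟩, g1, g2, g3, g4, L', g5, g6, g7, g8, g9⟩ := dB k hkN Fi
    (fun x hx => (Finset.mem_filter.1 hx).2) (a.length, sh, cons) B hBN e heN he
  simp only at g1 g2 g3 g4 g6 g7 g9
  have hlen : B.length = A.length := hBA.length_eq
  -- the common extension
  let uP : Po c := p2.mk' u (PS_sub hu) hup
  have huP2 : uP ≤ p2 := hup
  have huPe : uP ≤ (⟨e, heT⟩ : Po c) := hue
  have hu1 : uP ∈ OKF V F' := OKF_down hV F' p2 hOK2 _ hup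
  have hu2 : uP ∈ OKF V (Fi ∪ L'.toFinset) := OKF_down hV _ _ g8 _ hue
  have hreu : p2.re ⊆ uP.re := re_mono huP2
  have hree : fib e c.z0 ⊆ uP.re := re_mono huPe
  -- comparisons of the reals with indices in `A`
  have hcross : ∀ s < A.length, ∀ t < A.length, Dl p2.re (gt A s) (gt A t) →
      Dl uP.re (gt A s) (gt B t) := by
    intro s hs t ht hst
    exact ⟨_, (hcons _ (hcons2 s hs t ht hst)).1.mono hreu,
      (g9 _ (hcons2 s hs t ht hst)).2.mono hree⟩
  have hcross' : ∀ s < A.length, ∀ t < A.length, Dl p2.re (gt A s) (gt A t) →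
      Dl uP.re (gt B s) (gt A t) := by
    intro s hs t ht hst
    exact ⟨_, (g9 _ (hcons2 s hs t ht hst)).1.mono hree,
      (hcons _ (hcons2 s hs t ht hst)).2.mono hreu⟩
  have hmix : ∀ x ∈ F', (om x : K) ∉ N → ∀ y ∈ L', (cde.symm x).2.2 = (cde.symm y).2.2 →
      ∀ v w, uP ∈ Vx V x v → uP ∈ Vx V y w → Cmpb uP.re v w := by
    intro x hx hxN y hy hxy v w hv hw
    have hxL : x ∈ L := (hL x).2 ⟨hx, hxN⟩
    obtain ⟨n, hn, hyn⟩ := List.getElem_of_mem hy
    have hlenL : L'.length = L.length := by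
      have := g7.length_eq
      simpa [sh] using this
    have hn' : n < L.length := by rw [← hlenL]; exact hn
    have hnsh : n < sh.length := by simpa [sh] using hn'
    have h3 := (List.forall₂_iff_get.1 g7).2 n hn hnsh
    simp only [List.get_eq_getElem] at h3
    have hshn : sh[n] = ((cde.symm L[n]).2.2, ix L[n]) := by simp [sh]
    rw [hshn, hyn] at h3
    obtain ⟨h4, h5⟩ := h3
    simp only at h4 h5
    have hLn : L[n] ∈ L := List.getElem_mem hn'
    have hLnF := ((hL _).1 hLn).1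
    -- the values
    have ev : v = val x := hV.single _ _ _ _ _ hv ((hV.reg _ _ _).1 _ (hval x hx) _ huP2)
    have ew : w = (ix L[n]).map (gt B) := hV.single _ _ _ _ _ hw ((hV.reg _ _ _).1 _ h5 _ huPe)
    rw [ev, ew]
    by_cases hxn : L[n] = x
    · right
      rw [hxn, ← (hix x hxL).2]
      exact f2_map hBA (hix x hxL).1
    · have h6 := hOK2.2 x hx L[n] hLnF (hxy.trans h4) (Ne.symm hxn) _ _ (hval x hx)
        (hval _ hLnF)
      rw [← (hix x hxL).2, ← (hix _ hLn).2] at h6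
      rw [← (hix x hxL).2]
      rcases h6 with h6 | h6
      · left
        rw [f2_mapmap] at h6 ⊢
        exact f2_imp h6 (hix x hxL).1 (hix _ hLn).1 fun s hs t ht hst => hcross s hs t ht hst
      · right
        rw [f2_mapmap] at h6 ⊢
        exact f2_imp h6 (hix _ hLn).1 (hix x hxL).1 fun s hs t ht hst => hcross' s hs t ht hst
  have hu3 : uP ∈ OKF V (F' ∪ G0) := by
    have hcov : ∀ x ∈ F' ∪ G0, x ∈ F' ∨ x ∈ Fi ∪ L'.toFinset := by
      intro x hx
      rcases Finset.mem_union.1 hx with h2 | h2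
      · exact Or.inl h2
      · rcases g6 x h2 with h3 | h3
        · exact Or.inr (Finset.mem_union_left _ h3)
        · exact Or.inr (Finset.mem_union_right _ (List.mem_toFinset.2 h3))
    have hin : ∀ x ∈ F', (om x : K) ∈ N → x ∈ Fi ∪ L'.toFinset := fun x hx hxN =>
      Finset.mem_union_left _ (Finset.mem_filter.2 ⟨hx, hxN⟩)
    have hmix' : ∀ x ∈ F', ∀ y ∈ Fi ∪ L'.toFinset, (cde.symm x).2.2 = (cde.symm y).2.2 →
      x ≠ y → ∀ v w, uP ∈ Vx V x v → uP ∈ Vx V y w → Cmpb uP.re v w := by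
      intro x hx y hy hxy hne v w hv hw
      by_cases hxN : (om x : K) ∈ N
      · exact hu2.2 x (hin x hx hxN) y hy hxy hne v w hv hw
      · rcases Finset.mem_union.1 hy with h2 | h2
        · exact hu1.2 x hx y (Finset.mem_filter.1 h2).1 hxy hne v w hv hw
        · exact hmix x hx hxN y (List.mem_toFinset.1 h2) hxy v w hv hw
    refine ⟨fun x hx => ?_, fun x hx y hy hxy hne v w hv hw => ?_⟩
    · rcases hcov x hx with h2 | h2
      · exact hu1.1 x h2
      · exact hu2.1 x h2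
    · rcases hcov x hx with h2 | h2
      · rcases hcov y hy with h3 | h3
        · exact hu1.2 x h2 y h3 hxy hne v w hv hw
        · exact hmix' x h2 y h3 hxy hne v w hv hw
      · rcases hcov y hy with h3 | h3
        · rcases hmix' y h3 x h2 hxy.symm hne.symm w v hw hv with h4 | h4
          · exact Or.inr h4
          · exact Or.inl h4
        · exact hu2.2 x h2 y h3 hxy hne v w hv hw
  obtain ⟨w2, hw2, hβ2, _⟩ := addTrP hc.toGoodCtx uP hβ
  have hFo2 : Fo nm (cut γ w2.1) (F' ∪ G0) :=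
    nm_out hreg (hbF _) hz hβ2 (meets_of_mem (OKF_down hV _ _ hu3 w2 hw2)) hβγ.le
  have huB := (mem_PS.1 hu).1
  have hle2 : cut γ w2.1 ≤ u := cut_le_of_below huB hw2
  have hf0B : Below γ f0 := huB.of_le (hue.trans g4)
  refine ⟨B.take a.length, ?_, (f0, G0), g1, ?_, ?_, cut γ w2.1, cut_mem w2.2.1 γ,
    hle2.trans (hup.trans hcutle), hle2.trans (hue.trans g4), F' ∪ G0, Finset.subset_union_left,
    Finset.subset_union_right, hFo2, ?_⟩
  · intro x hx
    exact ⟨hBN x (List.mem_of_mem_take hx), hn2.1 x⟩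
  · refine ⟨fun τ hτ => ⟨g2.1 hτ, lt_trans (hf0B.1 hτ) hn1⟩, fun Q hQ => ⟨g2.2.1 Q hQ, ?_⟩,
      fun b hb => ⟨⟨(g2.2.2 b hb).1, lt_trans (hf0B.2.2 b hb) hn1⟩, (g2.2.2 b hb).2, hn2.1 _⟩⟩
    exact lt_trans ((hγ.2 Q (f0.base.nd Q hQ).ctbl).1 (hf0B.2.1 Q hQ)) hn1
  · exact fun x hx => ⟨g3 x hx, hn2.1 x⟩
  · have h2 := List.forall₂_take a.length hBA
    have h3 : List.Forall₂ (Dl (fib u c.z0)) (B.take a.length) a := by
      simpa only [A, List.take_left'] using h2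
    unfold info
    rw [if_neg hzγ.ne']
    exact f2_dl (fib_mono hle2 c.z0) h3

end

end Pool.Agent.H633.W
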