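import Pool.Agent.H633.W.Sigma

/-!
# The decomposition in the extension
-/

set_option autoImplicit false
set_option linter.unusedSectionVars false
set_option linter.unusedVariables false

namespace Pool.Agent.H633.W

open Cardinal Set Pool.Agent.Helper669.Forcing Pool.Agent.H915

variable {K : Type} [LinearOrder K] [WellFoundedLT K] [Cod K] {c : Ctx K}

theorem mk_om1 : #Om1 = ℵ₁ := Cardinal.mk_ord_toType _

instance infOm1 : Infinite Om1 := by
  rw [Cardinal.infinite_iff, mk_om1]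
  exact Cardinal.aleph0_le_aleph 1

theorem mk_list_om1 : #(List Om1) = ℵ₁ := by rw [Cardinal.mk_list_eq_mk, mk_om1]

theorem mk_fin_om1 : #(Finset Om1) = ℵ₁ := by rw [Cardinal.mk_finset_of_infinite, mk_om1]

theorem a1_mul_self : (ℵ₁ : Cardinal.{0}) * ℵ₁ = ℵ₁ :=
  Cardinal.mul_eq_self (Cardinal.aleph0_le_aleph 1)

theorem a1_add_self : (ℵ₁ : Cardinal.{0}) + ℵ₁ = ℵ₁ :=
  Cardinal.add_eq_self (Cardinal.aleph0_le_aleph 1)

theorem fib_bd {p : Pr K} (hc : BigCtx c) {γ : K} (h : bd p < γ) : fib p γ = ∅ := by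
  apply fib_empty
  rintro ⟨x, hx⟩
  exact absurd ((below_bd hc p).2.2 _ (mem_fib.1 hx)) (not_lt.2 h.le)

variable {V : Om1 → Om1 → List Om1 → Set (Po c)}

theorem OKF_insert (hV : IsSeq V) {F : Finset Om1} {w : Po c} (hw : w ∈ OKF V F) {δ z : Om1}
    {a : List Om1} (hz : z < δ) (ha : w ∈ V δ z a) {n : ℕ}
    (hn : ∀ x ∈ F, (cde.symm x).2.2 ≠ n) : w ∈ OKF V (insert (cde (δ, z, n)) F) := by
  classical
  refine ⟨fun x hx => ?_, fun x hx y hy hxy hne v v' hv hv' => ?_⟩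
  · rcases Finset.mem_insert.1 hx with rfl | h
    · rw [Equiv.symm_apply_apply]
      refine ⟨hz, a, ?_⟩
      unfold Vx
      rw [Equiv.symm_apply_apply]
      exact ha
    · exact hw.1 x h
  · rcases Finset.mem_insert.1 hx with h1 | h1 <;> rcases Finset.mem_insert.1 hy with h2 | h2
    · exact absurd (h1.trans h2.symm) hne
    · exfalso
      apply hn y h2
      rw [← hxy, h1, Equiv.symm_apply_apply]
    · exfalso
      apply hn x h1
      rw [hxy, h2, Equiv.symm_apply_apply]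
    · exact hw.2 x h1 y h2 hxy hne v v' hv hv'

theorem exists_fresh (F : Finset Om1) : ∃ n : ℕ, ∀ x ∈ F, (cde.symm x).2.2 ≠ n := by
  classical
  obtain ⟨n, hn⟩ := Infinite.exists_notMem_finset (F.image fun x => (cde.symm x).2.2)
  exact ⟨n, fun x hx h => hn (Finset.mem_image.2 ⟨x, hx, h⟩)⟩

theorem sigma (hc : BigCtx c) (hV : IsSeq V) (p0 : Po c) :
    ∃ u0 ≤ p0, ∃ h : Om1 → Om1 → ℕ → Set (Po c), (∀ δ z n, Down (h δ z n)) ∧
      (∀ u ≤ u0, ∀ δ z, z < δ → ∀ a, u ∈ V δ z a → ∃ w ≤ u, ∃ n, w ∈ h δ z n) ∧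
      ∀ u n δ z δ' z' a a', (δ, z) ≠ (δ', z') → u ∈ h δ z n → u ∈ h δ' z' n → u ∈ V δ z a →
        u ∈ V δ' z' a' → ∃ w ≤ u, Cmpb w.re a a' := by
  classical
  by_cases hex : ∃ u ≤ p0, ∃ δ z a, z < δ ∧ u ∈ V δ z a
  swap
  · refine ⟨p0, le_refl _, fun _ _ _ => ∅, fun _ _ _ _ h => absurd h (notMem_empty _), ?_, ?_⟩
    · intro u hu δ z hz a ha
      exact absurd ⟨u, hu, δ, z, a, hz, ha⟩ hex
    · intro u n δ z δ' z' a a' _ h
      exact absurd h (notMem_empty _)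
  obtain ⟨u1, hu1, δ1, z1, a1, hz1, ha1⟩ := hex
  -- the bound for the names
  have hI : #((Om1 × Om1 × List Om1) ⊕ Finset Om1) ≤ ℵ₁ := by
    rw [Cardinal.mk_sum, Cardinal.mk_prod, Cardinal.mk_prod]
    simp only [Cardinal.lift_id, mk_list_om1, mk_fin_om1, mk_om1, a1_mul_self, a1_add_self, le_refl]
  obtain ⟨β, -, hz, hβ, hb⟩ := exists_BN hc hI (Sum.elim (fun i => V i.1 i.2.1 i.2.2)
    fun F => meets (OKF V F)) (bd u1.1)
  have hbV : ∀ δ z a, BN β (V δ z a) := fun δ z a => hb (Sum.inl (δ, z, a))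
  have hbF : ∀ F, BN β (meets (OKF V F)) := fun F => hb (Sum.inr F)
  obtain ⟨γ, hγ, hco⟩ := exists_co hc hz hβ (Φ := fun F => meets (OKF V F))
    (fun F => reg_meets _) hbF (fun γ h1 h2 => sigmaCand hc hV hz hβ hbV hbF γ h1 h2) (bd u1.1)
  have hf0 : fib u1.1 γ = ∅ := fib_bd hc hγ
  obtain ⟨z0, hz0, hne⟩ := hco.start hc.toGoodCtx (u := u1) (by
      rw [hf0]
      refine meets_of_mem ⟨fun x hx => absurd hx (Finset.notMem_empty _),
        fun x hx => absurd hx (Finset.notMem_empty _)⟩) (by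
      intro v hv F hF
      obtain ⟨w, hw, s, hs, hws⟩ := hF v (le_refl _)
      obtain ⟨n, hn⟩ := exists_fresh F
      exact ⟨w, hw, cde (δ1, z1, n), meets_of_mem (OKF_insert hV (OKF_down hV F s hs w hws) hz1
        ((hV.reg _ _ _).1 _ ha1 _ (hw.trans hv)) hn)⟩)
  refine ⟨z0, hz0.trans hu1, fun δ z n => {u | cde (δ, z, n) ∈ fib u.1 γ}, ?_, ?_, ?_⟩
  · intro δ z n u hu v hv
    exact fib_mono hv γ hu
  · intro u hu δ z hz a ha
    have hne' : (fib u.1 γ).Nonempty := hne.mono (fib_mono hu γ)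
    obtain ⟨w, hw, s, hs, hws⟩ := hco.fibMem hne' u (le_refl _)
    obtain ⟨n, hn⟩ := exists_fresh (fib u.1 γ)
    obtain ⟨z', h1, _, h3⟩ := hco.ext' hc.toGoodCtx hw hne' (Finset.subset_insert _ _)
      (meets_of_mem (OKF_insert hV (OKF_down hV _ s hs w hws) hz ((hV.reg _ _ _).1 _ ha _ hw) hn))
    exact ⟨z', h1, n, h3 (Finset.mem_insert_self _ _)⟩
  · intro u n δ z δ' z' a a' hne' h1 h2 h3 h4
    have h1' : cde (δ, z, n) ∈ fib u.1 γ := h1
    have h2' : cde (δ', z', n) ∈ fib u.1 γ := h2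
    have key : ∀ w ≤ u, w ∈ OKF V (fib u.1 γ) → Cmpb w.re a a' := by
      intro w hw hwO
      refine hwO.2 _ h1' _ h2' ?_ ?_ a a' ?_ ?_
      · rw [Equiv.symm_apply_apply, Equiv.symm_apply_apply]
      · intro h
        have := cde.injective h
        rw [Prod.mk.injEq, Prod.mk.injEq] at this
        exact hne' (by rw [this.1, this.2.1])
      · unfold Vx
        rw [Equiv.symm_apply_apply]
        exact (hV.reg _ _ _).1 _ h3 _ hw
      · unfold Vx
        rw [Equiv.symm_apply_apply]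
        exact (hV.reg _ _ _).1 _ h4 _ hw
    obtain ⟨w, hw, s, hs, hws⟩ := hco.fibMem ⟨_, h1'⟩ u (le_refl _)
    exact ⟨w, hw, key w hw (OKF_down hV _ s hs w hws)⟩

end Pool.Agent.H633.W
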