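import Pool.Agent.H633.W.Good2

/-!
# Preorders on `ω₁` which preserve stationary sets can be used at the coordinates
-/

set_option autoImplicit false
set_option linter.unusedSectionVars false
set_option linter.unusedVariables false

namespace Pool.Agent.H633.W

open Cardinal Set Pool.Agent.Helper669.Forcing Pool.Agent.H915
open Pool.Agent.W684.FM (IsPreN IsDenseN IsFilterN)

variable {K : Type} [LinearOrder K] [WellFoundedLT K] [Cod K] {c : Ctx K}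

theorem cc_not {Ω : Type} {φ ψ : Set Ω → Prop} (hφ : ¬ CClub φ) (hψ : CClub ψ) :
    ∃ N : Set Ω, N.Countable ∧ ψ N ∧ ¬ φ N := by
  by_contra hcon
  push Not at hcon
  exact hφ (cc_mono hψ fun N h1 h2 => hcon N h1 h2)

theorem lt_dl {N : Set K} (hN : Node N) (hI : Ini N) {x : Om1} (hx : (om x : K) ∈ N) :
    x < dl N := by
  by_contra hcon
  rcases eq_or_lt_of_le (not_lt.1 hcon) with h | h
  · exact (b_dl hN).1 (h ▸ hx)
  · exact (b_dl hN).1 (hI x hx _ h)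

theorem subX (hT : TrUnb K) (p : C0 K) {γ : K} {Q R : Set K} (hQ : Q ∈ p.Nd) (hR : R ∈ p.Nd)
    (h1 : γ ∈ Q) (h2 : γ ∈ R) (hle : dl Q ≤ dl R) : Q ∩ Iio (nx γ) ⊆ R ∩ Iio (nx γ) := by
  obtain ⟨hn1, hn2⟩ := nx_spec hT γ
  have hQn := b_nodeRestr (p.nd Q hQ) hn2
  have hRn := b_nodeRestr (p.nd R hR) hn2
  rcases chainX p hn2 hn1 (fun τ hτ hlt => nx_le hT hlt (p.tr τ hτ)) hQ hR h1 h2 with h | h | h
  · rw [h]
  · exact b_sub hQn hRn h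
  · have := b_dl_lt hRn hQn h
    rw [b_dl_restr (p.nd Q hQ) hn2, b_dl_restr (p.nd R hR) hn2] at this
    exact absurd hle (not_le.2 this)

/-- conditions with a node containing `k` and `γ` -/
def EK (c : Ctx K) (γ k : K) : Set (Po c) := {e | ∃ Q ∈ e.1.base.Nd, k ∈ Q ∧ γ ∈ Q}

/-- sufficiently closed nodes -/
def CG (c : Ctx K) (γ : K) (N : Set K) : Prop :=
  Ini N ∧ ∀ k ∈ N, ∀ p : Po c, N ∈ p.1.base.Nd → ∀ e0 ∈ EK c γ k, p ≤ e0 →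
    ∃ e ∈ EK c γ k, InX N e.1 ∧ ∃ u : Po c, u ≤ p ∧ u ≤ e

theorem cc_CG (hc : GoodCtx c) (γ : K) : CClub fun N : Set K => CG c γ N :=
  cc_and cc_ini (cc_diag fun k => genP0 hc (EK c γ k))

/-- `p` and `F` witness that there is no generic extension over `X` -/
def BadW (c : Ctx K) (γ : K) (nm : Finset Om1 → Set (Pr K)) (X : Set K) (p : Pr K)
    (F : Finset Om1) : Prop :=
  X ∩ Iio γ ∈ p.base.Nd ∧ FIn X F ∧ Fo nm p F ∧ ∀ p' ∈ PS c γ, p' ≤ p → ∀ F', F ⊆ F' →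
    Fo nm p' F' → ¬ Gnr c γ (PS c γ) nm X p' F'

/-- the heights of the bad nodes in the generic filter -/
def TF (c : Ctx K) (γ : K) (nm : Finset Om1 → Set (Pr K)) (F : Finset Om1) (δ : Om1) :
    Set (Po c) :=
  {u | ∃ Q ∈ u.1.base.Nd, CG c γ Q ∧ γ ∈ Q ∧ dl Q = δ ∧ ∃ p ∈ PS c γ, u.1 ≤ p ∧
    BadW c γ nm (Q ∩ Iio (nx γ)) p F}

theorem TF_down (γ : K) (nm : Finset Om1 → Set (Pr K)) (F : Finset Om1) (δ : Om1) :
    Down (TF c γ nm F δ) := by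
  rintro u ⟨Q, h1, h2, h3, h4, p, h5, h6, h7⟩ v hv
  exact ⟨Q, (Pr_le.1 hv).2.1 h1, h2, h3, h4, p, h5, le_trans (show v.1 ≤ u.1 from hv) h6, h7⟩

/-- the conclusion in the definition of stationarity -/
def Concl {P : Type} [Preorder P] (T : Om1 → Set P) (f : Om1 → Om1 → Set P) : Set P :=
  fex fun δ => fand (fground (∃ x, x < δ)) (fand (meets (T δ))
      (fall fun α => fimp (fground (α < δ)) (fex fun β => fand (fground (β < δ))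
        (meets (f α β)))))

/-- If there are stationarily many bad nodes then some condition forces that their heights form a
stationary set. -/
theorem exists_stat (hc : BigCtx c) {p1 : Po c} {β γ : K} (hγ : Tr γ)
    {Φ : Finset Om1 → Set (Po c)} (hreg : ∀ F, Reg (Φ F)) (hle : ∀ F, Φ F ⊆ meets {p1})
    (hno : ¬ CClub fun N : Set K => γ ∈ N →
      Gext c (PS c γ) (nmOf β Φ) γ (N ∩ Iio (nx γ))) :
    ∃ F, ∃ u0 ≤ p1, u0 ∈ Φ F ∧ u0 ∈ StatN (TF c γ (nmOf β Φ) F) := by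
  classical
  obtain ⟨hn1, hn2⟩ := nx_spec hc.trUnb γ
  by_contra hst
  push Not at hst
  set T := TF c γ (nmOf β Φ) with hT
  let Tot : (Om1 → Om1 → Set (Po c)) → Set (Po c) := fun f =>
    fall fun α => fex fun β => meets (f α β)
  let NS : Finset Om1 → Po c → Prop := fun F q =>
    ∃ f : Om1 → Om1 → Set (Po c), q ∈ Tot f ∧ ∀ r ≤ q, r ∉ Concl (T F) f
  have hNS : ∀ F, ∀ u ≤ p1, u ∈ Φ F → ∃ q ≤ u, NS F q := by
    intro F u hu huF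
    by_contra hcon
    push Not at hcon
    refine hst F u hu huF fun f => ?_
    rw [mem_fimp]
    intro q hq hqf
    by_contra hcc
    push Not at hcc
    exact hcon q hq ⟨f, hqf, fun r hr => hcc r hr⟩
  have hf : ∀ (F : Finset Om1) (q : Pr K), ∃ f : Om1 → Om1 → Set (Po c),
      ∀ hq : q ∈ PT c ∧ (fib q c.z0).Nonempty,
      NS F ⟨q, hq⟩ → (⟨q, hq⟩ : Po c) ∈ Tot f ∧ ∀ r ≤ (⟨q, hq⟩ : Po c), r ∉ Concl (T F) f := by
    intro F q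
    by_cases hex : ∃ hq : q ∈ PT c ∧ (fib q c.z0).Nonempty, NS F ⟨q, hq⟩
    · obtain ⟨hq, f, h1, h2⟩ := hex
      exact ⟨f, fun _ _ => ⟨h1, h2⟩⟩
    · exact ⟨fun _ _ => ∅, fun hq h => absurd ⟨hq, h⟩ hex⟩
  choose f hf using hf
  have c1 : CClub fun N : Set K => ∀ F, FIn N F → ∀ p : Po c, N ∈ p.1.base.Nd →
      ∀ e0 ∈ {q | NS F q}, p ≤ e0 → ∃ e ∈ {q | NS F q}, InX N e.1 ∧ ∃ u : Po c, u ≤ p ∧ u ≤ e :=
    cc_fin fun F => genP0 hc.toGoodCtx _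
  let E2 : Finset Om1 → Pr K → Om1 → Set (Po c) := fun F q α => {v | ∃ β, v ∈ meets (f F q α β)}
  have c2 : CClub fun N : Set K => ∀ F, FIn N F → ∀ q, InX N q → ∀ α : Om1, (om α : K) ∈ N →
      ∀ p : Po c, N ∈ p.1.base.Nd → ∀ e0 ∈ E2 F q α, p ≤ e0 → ∃ e ∈ E2 F q α, InX N e.1 ∧
        ∃ u : Po c, u ≤ p ∧ u ≤ e :=
    cc_fin fun F => cc_pr fun q => cc_om fun α => genP0 hc.toGoodCtx _
  have c3 : CClub fun N : Set K => ∀ F, FIn N F → ∀ q, InX N q → ∀ α : Om1, (om α : K) ∈ N →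
      ∀ v, InX N v → ∀ hv : v ∈ PT c ∧ (fib v c.z0).Nonempty, (⟨v, hv⟩ : Po c) ∈ E2 F q α →
        ∃ β : Om1, (om β : K) ∈ N ∧ (⟨v, hv⟩ : Po c) ∈ meets (f F q α β) := by
    refine cc_fin fun F => cc_pr fun q => cc_om fun α => cc_pr fun v => ?_
    by_cases hex : ∃ hv : v ∈ PT c ∧ (fib v c.z0).Nonempty, ∃ β,
      (⟨v, hv⟩ : Po c) ∈ meets (f F q α β)
    · obtain ⟨hv, β, hβ⟩ := hex
      exact cc_mono (cc_mem (om β : K)) fun N _ hN _ _ => ⟨β, hN, hβ⟩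
    · exact cc_true fun N hv h => absurd ⟨hv, h⟩ hex
  obtain ⟨N, -, ⟨⟨⟨hNN, hNI⟩, hNC⟩, ⟨d1, d2⟩, d3, d4⟩, hbad⟩ := cc_not hno
    (cc_and (cc_and (cc_and cc_node cc_ini) (cc_CG hc.toGoodCtx γ)) (cc_and (cc_and c1 c2)
      (cc_and c3 (cc_mem (om (Classical.arbitrary Om1) : K)))))
  have hbad' : ∃ hγN : γ ∈ N, ¬ Gext c (PS c γ) (nmOf β Φ) γ (N ∩ Iio (nx γ)) := by
    by_contra hcon
    push Not at hcon
    exact hbad hcon
  obtain ⟨hγN, hG⟩ := hbad'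
  unfold Gext at hG
  push Not at hG
  obtain ⟨p, hp, hNp, F, hFN, hFo, hall⟩ := hG
  have hBad : BadW c γ (nmOf β Φ) (N ∩ Iio (nx γ)) p F := ⟨hNp, hFN, hFo, hall⟩
  have hNp' := hNp
  rw [inter_inter_of_le hn1.le] at hNp'
  have hFN' : FIn N F := fun x hx => (hFN x hx).1
  obtain ⟨q, hq0, hqp, hNq, hγq⟩ := liftNode (c := c) hc.trUnb hNN hγ hγN hp hNp'
  have hq : q ∈ PT c ∧ (fib q c.z0).Nonempty :=
    ⟨hq0, (nm_z0 hFo).mono (fib_mono hqp c.z0)⟩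
  have hqΦ : (⟨q, hq⟩ : Po c) ∈ Φ F := nm_in (fun F => (hreg F).1) (hFo.mono hqp)
  have hqT : (⟨q, hq⟩ : Po c) ∈ T F (dl N) := ⟨N, hNq, hNC, hγN, rfl, p, hp, hqp, hBad⟩
  obtain ⟨q', hq', s, hs, hqs⟩ := hle F hqΦ ⟨q, hq⟩ (le_refl _)
  rw [mem_singleton_iff] at hs
  rw [hs] at hqs
  obtain ⟨q1, hq1, hNS1⟩ := hNS F q' hqs ((hreg F).1 _ hqΦ _ hq')
  have hq1q : q1 ≤ (⟨q, hq⟩ : Po c) := hq1.trans hq'
  obtain ⟨e, he, heN, u, huq, hue⟩ := d1 F hFN' q1 ((Pr_le.1 hq1q).2.1 hNq) q1 hNS1 (le_refl _)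
  obtain ⟨k1, k2⟩ := hf F e.1 e.2 he
  have huq' : u ≤ (⟨q, hq⟩ : Po c) := huq.trans hq1q
  refine k2 u hue (mem_fex_of_mem (dl N) ?_ ⟨?_, ?_, ?_⟩)
  · exact down_fand (down_fground _) (down_fand (down_meets _) (down_fall fun _ => down_fimp _ _))
  · exact ⟨_, lt_dl hNN hNI d4⟩
  · exact meets_of_le hqT huq'
  · intro α
    rw [mem_fimp]
    intro v hv hα
    refine ⟨v, le_refl _, mem_fex.2 fun v' hv' => ?_⟩
    obtain ⟨w, hw, β', hβ'⟩ := mem_fex.1 (k1 α) v' (hv'.trans (hv.trans hue))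
    have hαN : (om α : K) ∈ N := (b_dl hNN).2 α hα
    have hNw : N ∈ w.1.base.Nd :=
      (Pr_le.1 (show w ≤ ⟨q, hq⟩ from hw.trans (hv'.trans (hv.trans huq')))).2.1 hNq
    obtain ⟨e2, he2, he2N, u2, hu2, hu2e⟩ := d2 F hFN' e.1 heN α hαN w hNw w ⟨β', hβ'⟩ (le_refl _)
    obtain ⟨β'', h1, h2⟩ := d3 F hFN' e.1 heN α hαN e2.1 he2N e2.2 he2
    exact ⟨u2, hu2.trans hw, β'', lt_dl hNN hNI h1, down_meets _ _ h2 _ hu2e⟩

/-- `z` is a lower bound of `F` -/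
def LB (R : Om1 → Om1 → Set (Po c)) (F : Finset Om1) (z : Om1) : Set (Po c) :=
  {u | ∀ x ∈ F, u ∈ meets (R z x)}

/-- the finite sets with a lower bound -/
def Fam (R : Om1 → Om1 → Set (Po c)) (p1 : Po c) (F : Finset Om1) : Set (Po c) :=
  fand (meets {p1}) (fex fun z => LB R F z)

theorem LB_down (R : Om1 → Om1 → Set (Po c)) (F : Finset Om1) (z : Om1) : Down (LB R F z) :=
  fun u hu v hv x hx => down_meets _ _ (hu x hx) _ hv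

theorem Fam_reg (R : Om1 → Om1 → Set (Po c)) (p1 : Po c) (F : Finset Om1) : Reg (Fam R p1 F) := by
  refine ⟨down_fand (down_meets _) (down_fex _), fun p hp => ⟨?_, ?_⟩⟩
  · refine meets_of_dense fun q hq => ?_
    obtain ⟨r, hr, s, hs, hrs⟩ := hp q hq
    exact ⟨r, hr, down_meets _ _ hs.1 _ hrs⟩
  · rw [mem_fex]
    intro q hq
    obtain ⟨r, hr, s, hs, hrs⟩ := hp q hq
    obtain ⟨t, ht, z, hz⟩ := mem_fex.1 hs.2 r hrs
    exact ⟨t, ht.trans hr, z, hz⟩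

/-- a node can be added above a given countable set -/
theorem two_add (hc : GoodCtx c) {p1 : Po c} {R : Om1 → Om1 → Set (Po c)} {h : p1 ∈ IsPreN R}
    (y : Two R p1 h) {s : Set K} (hs : s.Countable) :
    ∃ y' ≤ y, y'.snd = y.snd ∧ ∃ N ∈ y'.fst.1.base.Nd, Node N ∧ Ini N ∧ s ⊆ N := by
  obtain ⟨N, h1, _, h2, h3, _, q, hq, hN⟩ := addNodeP hc (φ := fun _ => True)
    (cc_true fun _ => trivial) hs y.fst
  exact ⟨y.str q hq, y.str_le q hq, rfl, N, hN, h1, h2, h3⟩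

theorem sspCand (hc : BigCtx c) {p1 : Po c}
    {R : Om1 → Om1 → Set (Po c)} (h : p1 ∈ IsPreN R) (hs : p1 ∈ SSPN R) {β : K} (hz : c.z0 < β)
    (hβ : Tr β) (hb : ∀ F, BN β (Fam R p1 F)) (γ : K) (hγ : Tr γ) (hβγ : β < γ) :
    Cand c (PS c γ) (nmOf β (Fam R p1)) γ := by
  classical
  obtain ⟨hn1, hn2⟩ := nx_spec hc.trUnb γ
  have hzγ : c.z0 < γ := hz.trans hβγ
  set σ := nx γ with hσ
  refine cand_of hc.toGoodCtx hγ _ ?_
  by_contra hno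
  set nm := nmOf β (Fam R p1) with hnm
  obtain ⟨F, u0, hu0, huF, hstat⟩ := exists_stat hc hγ (Fam_reg R p1)
    (fun F u hu => hu.1) hno
  obtain ⟨u1, hu1, z1, hz1⟩ := mem_fex.1 huF.2 u0 (le_refl _)
  let x0 : Two R p1 h := ⟨u1, z1, hu1.trans hu0⟩
  have hSP : SP (fun δ => {x : Two R p1 h | x.fst ∈ TF c γ nm F δ}) x0 :=
    sp_of_ssp h hs (TF_down γ nm F) hstat x0 hu1
  let A : K → List Om1 → Set (Two R p1 h) := fun k b =>
    {y | ∃ e ∈ c.en k b, Below γ e.1 ∧ y.fst.1 ≤ e.1 ∧ ∀ t ∈ e.2, y.fst ∈ meets (R y.snd t)}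
  have hA : ∀ k b, Down (A k b) := by
    rintro k b y ⟨e, h1, h2, h3, h4⟩ y' hy'
    exact ⟨e, h1, h2, le_trans (show y'.fst.1 ≤ y.fst.1 from hy'.1) h3, fun t ht =>
      pre_trans h y'.le1 hy'.2 (down_meets _ _ (h4 t ht) _ hy'.1)⟩
  let GK : K → Om1 → Set (Two R p1 h) := fun k ν =>
    {y | ∀ a : List Om1, (∀ t ∈ a, ν ≤ t) → ∀ y' ≤ y, y' ∈ A k a →
      ∃ y'' ≤ y', ∃ b, (∀ t ∈ b, t < ν) ∧ List.Forall₂ (Dl y''.fst.re) b a ∧ y'' ∈ A k b}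
  let Wt : K → List Om1 → Om1 → Set (Two R p1 h) := fun k b ν =>
    {y | (∀ y' ≤ y, y' ∉ A k b) ∨ ∃ e ∈ c.en k b, Below γ e.1 ∧ y.fst.1 ≤ e.1 ∧
      (∀ t ∈ e.2, y.fst ∈ meets (R y.snd t) ∧ t < ν) ∧
        ∃ Q ∈ y.fst.1.base.Nd, γ ∈ Q ∧ dl Q ≤ ν ∧ InX Q e.1}
  have hGKd : ∀ k ν, Down (GK k ν) := fun k ν y hy y' hy' a ha y'' hy'' =>
    hy a ha y'' (hy''.trans hy')
  have hGKm : ∀ k ν ν', ν ≤ ν' → GK k ν ⊆ GK k ν' := by
    intro k ν ν' hle y hy a ha y' hy' hyA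
    obtain ⟨y'', h1, b, h2, h3⟩ := hy a (fun t ht => hle.trans (ha t ht)) y' hy' hyA
    exact ⟨y'', h1, b, fun t ht => (h2 t ht).trans_le hle, h3⟩
  have hWd : ∀ k b ν, Down (Wt k b ν) := by
    rintro k b ν y (h1 | ⟨e, h1, h2, h3, h4, Q, h5, h6, h7, h8⟩) y' hy'
    · exact Or.inl fun y'' hy'' => h1 y'' (hy''.trans hy')
    · exact Or.inr ⟨e, h1, h2, le_trans (show y'.fst.1 ≤ y.fst.1 from hy'.1) h3,
        fun t ht => ⟨pre_trans h y'.le1 hy'.2 (down_meets _ _ (h4 t ht).1 _ hy'.1), (h4 t ht).2⟩,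
        Q, (Pr_le.1 hy'.1).2.1 h5, h6, h7, h8⟩
  have hWm : ∀ k b ν ν', ν ≤ ν' → Wt k b ν ⊆ Wt k b ν' := by
    rintro k b ν ν' hle y (h1 | ⟨e, h1, h2, h3, h4, Q, h5, h6, h7, h8⟩)
    · exact Or.inl h1
    · exact Or.inr ⟨e, h1, h2, h3, fun t ht => ⟨(h4 t ht).1, (h4 t ht).2.trans_le hle⟩,
        Q, h5, h6, h7.trans hle, h8⟩
  have hWt : ∀ k b, ∀ y ≤ x0, ∃ y' ≤ y, ∃ ν, y' ∈ Wt k b ν := by
    intro k b y hy
    by_cases hex : ∃ y' ≤ y, y' ∈ A k b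
    · obtain ⟨y', hy', e, h1, h2, h3, h4⟩ := hex
      obtain ⟨y'', hy'', hsnd, N, hN, hNN, hNI, hsN⟩ := two_add hc.toGoodCtx y'
        (s := insert γ {x | x ∈ prSupp e.1}) ((List.finite_toSet _).insert _).countable
      obtain ⟨ν, hν⟩ := exists_bd_om (s := insert (dl N) {t | t ∈ e.2})
        ((Finset.finite_toSet e.2).insert _).countable
      refine ⟨y'', hy''.trans hy', ν, Or.inr ⟨e, h1, h2,
        le_trans (show y''.fst.1 ≤ y'.fst.1 from hy''.1) h3, fun t ht => ⟨?_, hν t (Or.inr ht)⟩,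
        N, hN, hsN (Or.inl rfl), (hν _ (Or.inl rfl)).le,
        (prSupp_iff e.1 N).1 fun x hx => hsN (Or.inr hx)⟩⟩
      rw [hsnd]
      exact down_meets _ _ (h4 t ht) _ hy''.1
    · push Not at hex
      exact ⟨y, le_refl _, Classical.arbitrary _, Or.inl hex⟩
  let Clo : Om1 → Om1 → Set (Two R p1 h) := fun α ν =>
    {y | α < ν ∧ ∃ Q ∈ y.fst.1.base.Nd, γ ∈ Q ∧ α ≤ dl Q ∧ dl Q ≤ ν ∧ ∀ k ∈ Q ∩ Iio σ,
      (∀ y' ≤ y, ∃ y'' ≤ y', y'' ∈ GK k ν) ∧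
        ∀ b : List Om1, (∀ t ∈ b, t < α) → ∀ y' ≤ y, ∃ y'' ≤ y', y'' ∈ Wt k b ν}
  obtain ⟨x, hx, δ, hδ0, hxT, hclo⟩ := hSP x0 (le_refl _) Clo (by
    rintro α ν y ⟨h0, Q, h1, h2, h3, h4, h5⟩ y' hy'
    refine ⟨h0, Q, (Pr_le.1 hy'.1).2.1 h1, h2, h3, h4, fun k hk => ⟨fun y'' hy'' =>
      (h5 k hk).1 y'' (hy''.trans hy'), fun b hb y'' hy'' => (h5 k hk).2 b hb y''
        (hy''.trans hy')⟩⟩) (by
    intro α y hy
    obtain ⟨y1, hy1, _, N, hN, hNN, hNI, hsN⟩ := two_add hc.toGoodCtx y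
      (s := insert γ {(om α : K)}) ((countable_singleton _).insert _)
    have hNc : Countable {k // k ∈ N ∩ Iio σ} := (hNN.ctbl.mono inter_subset_left).to_subtype
    obtain ⟨y2, hy2, ν1, hν1⟩ := bl (hSP.mono (hy1.trans hy)) (I := {k // k ∈ N ∩ Iio σ})
      (fun k ν => GK k.1 ν) (fun k ν => hGKd k.1 ν) (fun k ν ν' => hGKm k.1 ν ν') (by
        intro k y' hy'
        exact good2 hc h (hSP.mono (hy'.trans (hy1.trans hy))) (A k.1) (hA k.1))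
    have hbc : Countable {b : List Om1 // ∀ t ∈ b, t < α} := by
      have : Countable {t : Om1 // t < α} := (ctb_Iio α).to_subtype
      let g : {b : List Om1 // ∀ t ∈ b, t < α} → List {t : Om1 // t < α} := fun b =>
        b.1.attach.map fun t => ⟨t.1, b.2 t.1 t.2⟩
      refine Function.Injective.countable (f := g) fun b b' hbb => Subtype.ext ?_
      have h1 : ∀ b : {b : List Om1 // ∀ t ∈ b, t < α}, (g b).map Subtype.val = b.1 := by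
        intro b
        simp [g]
      rw [← h1 b, ← h1 b', hbb]
    obtain ⟨y3, hy3, ν2, hν2⟩ := bl (hSP.mono (hy2.trans (hy1.trans hy)))
      (I := {k // k ∈ N ∩ Iio σ} × {b : List Om1 // ∀ t ∈ b, t < α})
      (fun i ν => Wt i.1.1 i.2.1 ν) (fun i ν => hWd _ _ ν) (fun i ν ν' => hWm _ _ ν ν') (by
        intro i y' hy'
        exact hWt _ _ y' (hy'.trans (hy2.trans (hy1.trans hy))))
    obtain ⟨ν, hν⟩ := exists_bd_om (s := {ν1, ν2, α, dl N}) (Set.toFinite _).countable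
    refine ⟨y3, hy3.trans (hy2.trans hy1), ν, hν _ (by simp), N,
      (Pr_le.1 (hy3.trans hy2).1).2.1 hN, hsN (Or.inl rfl),
      (lt_dl hNN hNI (hsN (Or.inr rfl))).le, (hν _ (by simp)).le, fun k hk => ⟨?_, ?_⟩⟩
    · intro y' hy'
      obtain ⟨y'', h1, h2⟩ := hν1 ⟨k, hk⟩ y' (hy'.trans hy3)
      exact ⟨y'', h1, hGKm k _ _ (hν ν1 (by simp)).le h2⟩
    · intro b hb y' hy'
      obtain ⟨y'', h1, h2⟩ := hν2 (⟨k, hk⟩, ⟨b, hb⟩) y' hy'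
      exact ⟨y'', h1, hWm k b _ _ (hν ν2 (by simp)).le h2⟩)
  obtain ⟨Q, hQ, hQC, hγQ, hQδ, p, hp, hxp, hBad⟩ := hxT
  have hQN : Node Q := x.fst.1.base.nd Q hQ
  -- the key
  have key : ∀ k ∈ Q ∩ Iio σ, ∀ a, Out (Q ∩ Iio σ) a → ∀ y ≤ x, y ∈ A k a →
      ∃ y' ≤ y, ∃ b, List.Forall₂ (Dl y'.fst.re) b a ∧ (∀ t ∈ b, t < δ) ∧
        ∃ e ∈ c.en k b, Below γ e.1 ∧
        y'.fst.1 ≤ e.1 ∧ (∀ t ∈ e.2, y'.fst ∈ meets (R y'.snd t) ∧ t < δ) ∧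
          InX (Q ∩ Iio σ) e.1 := by
    intro k hk a ha y hy hyA
    have ha' : ∀ t ∈ a, δ ≤ t := by
      intro t ht
      by_contra hcon
      have h1 : (om t : K) ∈ Q := (b_dl hQN).2 t (by rw [hQδ]; exact not_le.1 hcon)
      exact ha t ht ⟨h1, hn2.1 t⟩
    have hQy : Q ∈ y.fst.1.base.Nd := (Pr_le.1 hy.1).2.1 hQ
    obtain ⟨e, ⟨Q', hQ', hkQ', hγQ'⟩, heQ, u, huy, hue⟩ := hQC.2 k hk.1 y.fst hQy y.fst
      ⟨Q, hQy, hk.1, hγQ⟩ (le_refl _)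
    have hdl : dl Q' < δ := by
      rw [← hQδ]
      exact b_dl_lt (e.1.base.nd Q' hQ') hQN (heQ.2.1 Q' hQ')
    let y1 := y.str u huy
    have hy1 : y1 ≤ y := y.str_le u huy
    have hQ'1 : Q' ∈ y1.fst.1.base.Nd := (Pr_le.1 hue).2.1 hQ'
    -- any node of height at least `dl Q'` contains `k`
    have hkall : ∀ y' ≤ y1, ∀ Q2 ∈ y'.fst.1.base.Nd, γ ∈ Q2 → dl Q' ≤ dl Q2 →
        k ∈ Q2 ∩ Iio σ := by
      intro y' hy' Q2 hQ2 hγQ2 hle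
      exact subX hc.trUnb y'.fst.1.base ((Pr_le.1 hy'.1).2.1 hQ'1) hQ2 hγQ' hγQ2 hle ⟨hkQ', hk.2⟩
    obtain ⟨y2, hy2, ν1, hν1, h0, Q2, hQ2, hγQ2, h1, h2, h3⟩ := hclo (dl Q') hdl y1
      (hy1.trans hy)
    obtain ⟨y3, hy3, h4⟩ := (h3 k (hkall y2 hy2 Q2 hQ2 hγQ2 h1)).1 y2 (le_refl _)
    obtain ⟨y4, hy4, b, hbν, hba, hyb⟩ := h4 a (fun t ht => hν1.le.trans (ha' t ht)) y3
      (le_refl _) (hA k a _ hyA _ (hy3.trans (hy2.trans hy1)))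
    have hy41 : y4 ≤ y1 := hy4.trans (hy3.trans hy2)
    obtain ⟨y5, hy5, ν2, hν2, h0', Q3, hQ3, hγQ3, h1', h2', h3'⟩ := hclo (max (dl Q') ν1)
      (max_lt hdl hν1) y4 (hy41.trans (hy1.trans hy))
    obtain ⟨y6, hy6, h5⟩ := (h3' k (hkall y5 (hy5.trans hy41) Q3 hQ3 hγQ3
      ((le_max_left _ _).trans h1'))).2 b (fun t ht => (hbν t ht).trans_le (le_max_right _ _)) y5
        (le_refl _)
    rcases h5 with h5 | ⟨e', g1, g2, g3, g4, Q4, g5, g6, g7, g8⟩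
    · exact absurd (hA k b _ hyb _ (hy6.trans hy5)) (h5 y6 (le_refl _))
    have hy6y : y6 ≤ y := hy6.trans (hy5.trans (hy41.trans hy1))
    have hsub : Q4 ∩ Iio σ ⊆ Q ∩ Iio σ := by
      refine subX hc.trUnb y6.fst.1.base g5 ((Pr_le.1 hy6y.1).2.1 hQy) g6 hγQ ?_
      rw [hQδ]
      exact (g7.trans_lt hν2).le
    refine ⟨y6, hy6y, b, f2_dl (re_mono (hy6.trans hy5).1) hba,
      fun t ht => (hbν t ht).trans hν1, e', g1, g2, g3,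
      fun t ht => ⟨(g4 t ht).1, (g4 t ht).2.trans hν2⟩, ?_⟩
    refine ⟨fun τ hτ => hsub ⟨g8.1 hτ, lt_trans (g2.1 hτ) hn1⟩, fun Q5 hQ5 =>
      hsub ⟨g8.2.1 Q5 hQ5, lt_trans ((hγ.2 Q5 (e'.1.base.nd Q5 hQ5).ctbl).1 (g2.2.1 Q5 hQ5)) hn1⟩,
      fun b' hb' => ⟨hsub ⟨(g8.2.2 b' hb').1, lt_trans (g2.2.2 b' hb') hn1⟩,
        hsub ⟨(g8.2.2 b' hb').2, hn2.1 _⟩⟩⟩
  -- the contradiction
  obtain ⟨w0, hw0, hβ0, _⟩ := addTrP hc.toGoodCtx x.fst hβ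
  let x' := x.str w0 hw0
  have hx' : x' ≤ x := x.str_le w0 hw0
  obtain ⟨w1, hw1, hγ1, _⟩ := addTrP hc.toGoodCtx w0 hγ
  let x2 := x'.str w1 hw1
  have hx2 : x2 ≤ x := (x'.str_le w1 hw1).trans hx'
  have hβ1 : β ∈ w1.1.base.A := (Pr_le.1 hw1).1 hβ0
  have hx20 := hx2.trans hx
  have hfamIn : ∀ (w : Po c) (z : Om1) (G : Finset Om1), w ≤ p1 → w ∈ LB R G z →
      w ∈ Fam R p1 G := fun w z G hw hz =>
    ⟨meets_of_le (mem_singleton p1) hw, mem_fex_of_mem z (LB_down R G z) hz⟩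
  have hFo1 : Fo nm (cut γ w1.1) (insert x.snd F) := by
    refine nm_out (Fam_reg R p1) (hb _) hz hβ1 (hfamIn w1 x.snd _ x2.le1 ?_) hβγ.le
    intro t ht
    rcases Finset.mem_insert.1 ht with h1 | h1
    · rw [h1]; exact pre_refl h x2.le1 _
    · exact pre_trans h x2.le1 hx20.2 (down_meets _ _ (hz1 t h1) _ hx20.1)
  have hcutp : cut γ w1.1 ≤ p := cut_le_of_below (mem_PS.1 hp).1
    (le_trans (show w1.1 ≤ x.fst.1 from hx2.1) hxp)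
  refine hBad.2.2.2 (cut γ w1.1) (cut_mem w1.2.1 γ) hcutp (insert x.snd F)
    (Finset.subset_insert _ _) hFo1 ?_
  intro k hk p' hp' hp'w F' hFF' hFo' a ha e0 he0 hpe0 he0F
  obtain ⟨v, hvw, hvp, _⟩ := liftP hc.toGoodCtx w1 hγ1 hp' hp'w
  have hvΦ : v ∈ Fam R p1 F' :=
    nm_in (fun F => (Fam_reg R p1 F).1) (hFo'.mono hvp)
  obtain ⟨v1, hv1, z', hz'⟩ := mem_fex.1 hvΦ.2 v (le_refl _)
  have hv1w : v1 ≤ w1 := hv1.trans hvw
  have hv1p : v1 ≤ p1 := hv1w.trans x2.le1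
  let y : Two R p1 h := ⟨v1, z', hv1p⟩
  have hyx2 : y ≤ x2 := ⟨hv1w, hz' _ (hFF' (Finset.mem_insert_self _ _))⟩
  have hp'B := (mem_PS.1 hp').1
  have hv1p' : v1.1 ≤ p' := le_trans (show v1.1 ≤ v.1 from hv1) hvp
  have hyA : y ∈ A k a := ⟨e0, he0, hp'B.of_le hpe0, le_trans hv1p' hpe0,
    fun t ht => hz' t (he0F ht)⟩
  obtain ⟨y', hy', b, hba, hbδ, e, he, heB, hye, heF, heX⟩ := key k hk a ha y (hyx2.trans hx2) hyA
  obtain ⟨w2, hw2, hβ2, _⟩ := addTrP hc.toGoodCtx y'.fst hβ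
  have hw2p : cut γ w2.1 ≤ p' := cut_le_of_below hp'B
    (le_trans (show w2.1 ≤ y'.fst.1 from hw2) (le_trans (show y'.fst.1 ≤ v1.1 from hy'.1) hv1p'))
  refine ⟨b, fun t ht => ⟨(b_dl hQN).2 t (by rw [hQδ]; exact hbδ t ht), hn2.1 t⟩, e, he, heX,
    fun t ht => ⟨(b_dl hQN).2 t (by rw [hQδ]; exact (heF t ht).2), hn2.1 t⟩, cut γ w2.1,
    cut_mem w2.2.1 γ, hw2p, cut_le_of_below heB (le_trans (show w2.1 ≤ y'.fst.1 from hw2) hye),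
    F' ∪ e.2, Finset.subset_union_left, Finset.subset_union_right, ?_, ?_⟩
  · refine nm_out (Fam_reg R p1) (hb _) hz hβ2 (hfamIn w2 y'.snd _ (hw2.trans y'.le1) ?_) hβγ.le
    intro t ht
    rcases Finset.mem_union.1 ht with h1 | h1
    · exact down_meets _ _ (pre_trans h y'.le1 hy'.2 (down_meets _ _ (hz' t h1) _ hy'.1)) _ hw2
    · exact down_meets _ _ (heF t h1).1 _ hw2
  · unfold info
    rw [if_neg hzγ.ne', fib_cut _ hzγ]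
    exact f2_dl (re_mono hw2) hba

end Pool.Agent.H633.W
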