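import Pool.Agent.H633.W.Sigma2
import Pool.Agent.H633.Sent

/-!
# Two-step iterations
-/

set_option autoImplicit false
set_option linter.unusedSectionVars false
set_option linter.unusedVariables false

namespace Pool.Agent.H633.W

open Cardinal Set Pool.Agent.Helper669.Forcing Pool.Agent.H915
open Pool.Agent.W684.FM (IsPreN IsDenseN IsFilterN)

/-! ### Preorders named in the extension -/

section Pre

variable {P : Type} [Preorder P] {R : Om1 → Om1 → Set P} {p1 : P}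

theorem pre_refl (h : p1 ∈ IsPreN R) {u : P} (hu : u ≤ p1) (x : Om1) : u ∈ meets (R x x) :=
  down_meets _ _ (h.1 x) _ hu

theorem meets_of_dense {A : Set P} {u : P} (h : ∀ q ≤ u, ∃ r ≤ q, r ∈ meets A) : u ∈ meets A := by
  intro q hq
  obtain ⟨r, hr, h1⟩ := h q hq
  obtain ⟨r', hr', s, hs, h2⟩ := h1 r (le_refl _)
  exact ⟨r', hr'.trans hr, s, hs, h2⟩

theorem pre_trans (h : p1 ∈ IsPreN R) {u : P} (hu : u ≤ p1) {x y z : Om1}
    (h1 : u ∈ meets (R x y)) (h2 : u ∈ meets (R y z)) : u ∈ meets (R x z) := by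
  refine meets_of_dense fun q hq => ?_
  obtain ⟨r, hr, h3⟩ := mem_fimp.1 (h.2 x y z) q (hq.trans hu)
    ⟨down_meets _ _ h1 _ hq, down_meets _ _ h2 _ hq⟩
  exact ⟨r, hr, h3⟩

/-- the two-step iteration below `p1` -/
structure Two (R : Om1 → Om1 → Set P) (p1 : P) (_h : p1 ∈ IsPreN R) : Type where
  fst : P
  snd : Om1
  le1 : fst ≤ p1

instance (h : p1 ∈ IsPreN R) : Preorder (Two R p1 h) where
  le x y := x.fst ≤ y.fst ∧ x.fst ∈ meets (R x.snd y.snd)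
  le_refl x := ⟨le_refl _, pre_refl h x.le1 _⟩
  le_trans x y z h1 h2 := ⟨h1.1.trans h2.1,
    pre_trans h x.le1 h1.2 (down_meets _ _ h2.2 _ h1.1)⟩

variable {h : p1 ∈ IsPreN R}

theorem Two.le_def {x y : Two R p1 h} : x ≤ y ↔ x.fst ≤ y.fst ∧ x.fst ∈ meets (R x.snd y.snd) :=
  Iff.rfl

/-- strengthening the first coordinate -/
def Two.str (x : Two R p1 h) (w : P) (hw : w ≤ x.fst) : Two R p1 h := ⟨w, x.snd, hw.trans x.le1⟩

theorem Two.str_le (x : Two R p1 h) (w : P) (hw : w ≤ x.fst) : x.str w hw ≤ x :=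
  ⟨hw, pre_refl h (hw.trans x.le1) _⟩

end Pre

/-! ### Stationarity and boundedness -/

/-- `T2` is stationary in the extension, below `x0` -/
def SP {Q : Type} [Preorder Q] (T2 : Om1 → Set Q) (x0 : Q) : Prop :=
  ∀ x1 ≤ x0, ∀ f : Om1 → Om1 → Set Q, (∀ α β, Down (f α β)) →
    (∀ α, ∀ x ≤ x1, ∃ x' ≤ x, ∃ β, x' ∈ f α β) →
    ∃ x ≤ x1, ∃ δ, (∃ y, y < δ) ∧ x ∈ T2 δ ∧ ∀ α < δ, ∀ x' ≤ x, ∃ x'' ≤ x', ∃ β < δ, x'' ∈ f α β

theorem SP.mono {Q : Type} [Preorder Q] {T2 : Om1 → Set Q} {x0 x1 : Q} (h : SP T2 x0)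
    (hle : x1 ≤ x0) : SP T2 x1 := fun x2 h2 => h x2 (h2.trans hle)

theorem exists_gt_om (x : Om1) : ∃ y, x < y := by
  have h1 : Order.IsSuccLimit (ℵ₁ : Cardinal.{0}).ord :=
    Cardinal.isSuccLimit_ord (Cardinal.aleph0_le_aleph 1)
  by_contra hcon
  push Not at hcon
  have h2 : ({y | y < x} ∪ {x} : Set Om1) = Set.univ := by
    refine Set.eq_univ_of_forall fun y => ?_
    rcases lt_or_eq_of_le (hcon y) with h | h
    · exact Or.inl h
    · exact Or.inr h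
  have h3 : (Set.univ : Set Om1).Countable := by
    rw [← h2]
    exact (ctb_Iio x).union (countable_singleton x)
  have h4 : #Om1 ≤ ℵ₀ := by
    rw [← Cardinal.mk_univ]
    exact h3.le_aleph0
  rw [mk_om1] at h4
  exact absurd h4 (not_le.2 Cardinal.aleph0_lt_aleph_one)

theorem exists_bd_om {s : Set Om1} (hs : s.Countable) : ∃ β, ∀ x ∈ s, x < β := by
  by_contra hcon
  push Not at hcon
  have h2 : (⋃ x ∈ s, ({y | y < x} ∪ {x}) : Set Om1) = Set.univ := by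
    refine Set.eq_univ_of_forall fun y => ?_
    obtain ⟨x, hx, hle⟩ := hcon y
    refine mem_biUnion hx ?_
    rcases lt_or_eq_of_le hle with h | h
    · exact Or.inl h
    · exact Or.inr h
  have h3 : (Set.univ : Set Om1).Countable := by
    rw [← h2]
    exact hs.biUnion fun x _ => (ctb_Iio x).union (countable_singleton x)
  have h4 : #Om1 ≤ ℵ₀ := by
    rw [← Cardinal.mk_univ]
    exact h3.le_aleph0
  rw [mk_om1] at h4
  exact absurd h4 (not_le.2 Cardinal.aleph0_lt_aleph_one)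

/-- the first elements of `ω₁` -/
theorem exists_em : ∃ em : ℕ → Om1, Function.Injective em ∧ ∀ δ : Om1, (∃ y, y < δ) →
    (∀ α < δ, ∃ β < δ, α < β) → ∀ n, em n < δ := by
  have hmin : ∀ S : Set Om1, S.Nonempty → ∃ m ∈ S, ∀ x ∈ S, m ≤ x := fun S hS => by
    obtain ⟨m, h1, h2⟩ := WellFounded.has_min (wellFounded_lt (α := Om1)) S hS
    exact ⟨m, h1, fun x hx => not_lt.1 (h2 x hx)⟩
  obtain ⟨b, -, hb⟩ := hmin Set.univ ⟨Classical.arbitrary Om1, mem_univ _⟩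
  have hs : ∀ x : Om1, ∃ y, x < y ∧ ∀ z, x < z → y ≤ z := fun x => by
    obtain ⟨y, h1, h2⟩ := hmin {y | x < y} (exists_gt_om x)
    exact ⟨y, h1, h2⟩
  choose s hs1 hs2 using hs
  let em : ℕ → Om1 := fun n => Nat.rec b (fun _ x => s x) n
  have he : ∀ n, em (n + 1) = s (em n) := fun n => rfl
  refine ⟨em, (strictMono_nat_of_lt_succ fun n => by rw [he]; exact hs1 _).injective, ?_⟩
  rintro δ ⟨y, hy⟩ hδ n
  induction n with
  | zero => exact lt_of_le_of_lt (hb y (mem_univ _)) hy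
  | succ n ih =>
    obtain ⟨β, h1, h2⟩ := hδ _ ih
    rw [he]
    exact lt_of_le_of_lt (hs2 _ _ h2) h1

/-- Boundedness of countable families. -/
theorem bl {Q : Type} [Preorder Q] {T2 : Om1 → Set Q} {x0 : Q} (hSP : SP T2 x0) {I : Type}
    [Countable I] (Ψ : I → Om1 → Set Q) (hd : ∀ i β, Down (Ψ i β))
    (hm : ∀ i β β', β ≤ β' → Ψ i β ⊆ Ψ i β')
    (ht : ∀ i, ∀ x ≤ x0, ∃ x' ≤ x, ∃ β, x' ∈ Ψ i β) :
    ∃ x ≤ x0, ∃ β, ∀ i, ∀ x' ≤ x, ∃ x'' ≤ x', x'' ∈ Ψ i β := by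
  by_cases hI : Nonempty I
  swap
  · exact ⟨x0, le_refl _, Classical.arbitrary _, fun i => absurd ⟨i⟩ hI⟩
  obtain ⟨g, hg⟩ := exists_surjective_nat I
  obtain ⟨em, he1, he2⟩ := exists_em
  obtain ⟨x, hx, δ, hδ0, _, hδ⟩ := hSP x0 (le_refl _)
    (fun α β => {x | α < β ∧ ∀ n, em n = α → x ∈ Ψ (g n) β}) (by
      rintro α β x ⟨h1, h2⟩ x' hx'
      exact ⟨h1, fun n hn => hd _ _ _ (h2 n hn) _ hx'⟩) (by
      intro α x hx
      by_cases hα : ∃ n, em n = α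
      · obtain ⟨n, hn⟩ := hα
        obtain ⟨x', hx', β, hβ⟩ := ht (g n) x hx
        obtain ⟨β', h1⟩ := exists_gt_om α
        refine ⟨x', hx', max β β', lt_of_lt_of_le h1 (le_max_right _ _), fun m hm' => ?_⟩
        rw [he1 (hm'.trans hn.symm)]
        exact hm _ _ _ (le_max_left _ _) hβ
      · obtain ⟨β', h1⟩ := exists_gt_om α
        exact ⟨x, le_refl _, β', h1, fun n hn => absurd ⟨n, hn⟩ hα⟩)
  have hlim : ∀ α < δ, ∃ β < δ, α < β := by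
    intro α hα
    obtain ⟨_, _, β, h1, h2⟩ := hδ α hα x (le_refl _)
    exact ⟨β, h1, h2.1⟩
  refine ⟨x, hx, δ, fun i x' hx' => ?_⟩
  obtain ⟨n, rfl⟩ := hg i
  obtain ⟨x'', h1, β, h2, h3⟩ := hδ (em n) (he2 δ hδ0 hlim n) x' hx'
  exact ⟨x'', h1, hm _ _ _ h2.le (h3.2 n rfl)⟩

/-- From the sentence to the two-step iteration. -/
theorem sp_of_ssp {P : Type} [Preorder P] {R : Om1 → Om1 → Set P} {p1 : P} (h : p1 ∈ IsPreN R)
    (hs : p1 ∈ SSPN R) {T : Om1 → Set P} (hT : ∀ δ, Down (T δ)) {u0 : P} (hu0 : u0 ∈ StatN T)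
    (x0 : Two R p1 h) (hx0 : x0.fst ≤ u0) : SP (fun δ => {x : Two R p1 h | x.fst ∈ T δ}) x0 := by
  intro x1 hx1 f hf htot
  have hdst : Down (StatN T) := down_fall fun f => down_fimp _ _
  have hx1u : x1.fst ≤ u0 := hx1.1.trans hx0
  obtain ⟨v, hv, hv2⟩ := mem_fimp.1 (hs T) x1.fst x1.le1 (hdst _ hu0 _ hx1u)
  -- the name
  let C : Om1 → Om1 → Om1 → Set P := fun α β s => {u | ∃ hu : u ≤ p1,
    (⟨u, s, hu⟩ : Two R p1 h) ∈ f α β}
  have hC : ∀ α β s, Down (C α β s) := by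
    rintro α β s u ⟨hu, hf1⟩ w hw
    exact ⟨hw.trans hu, hf α β _ hf1 _ ⟨hw, pre_refl h (hw.trans hu) _⟩⟩
  have hprem : v ∈ (fall fun α => fall fun r => fimp (meets (R r x1.snd)) (fex fun r' =>
        fand (meets (R r' r)) (fex fun β => fex fun s => fand (meets (R r' s))
          (meets (C α β s)))) : Set P) := by
    intro α r
    rw [mem_fimp]
    intro w hw hwr
    refine ⟨w, le_refl _, mem_fex.2 fun w' hw' => ?_⟩
    have hw1 : w' ≤ p1 := hw'.trans (hw.trans (hv.trans x1.le1))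
    obtain ⟨x', hx', β, hβ⟩ := htot α ⟨w', r, hw1⟩
      ⟨hw'.trans (hw.trans hv), down_meets _ _ hwr _ hw'⟩
    refine ⟨x'.fst, hx'.1, x'.snd, hx'.2, ?_⟩
    refine mem_fex_of_mem β (down_fex _) (mem_fex_of_mem x'.snd
      (down_fand (down_meets _) (down_meets _)) ⟨pre_refl h x'.le1 _, meets_of_mem ⟨x'.le1, hβ⟩⟩)
  obtain ⟨w, hw, hw2⟩ := mem_fimp.1 (hv2 C x1.snd) v (le_refl _) hprem
  obtain ⟨w1, hw1, r, hr, hr2⟩ := mem_fex.1 hw2 w (le_refl _)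
  obtain ⟨w2, hw2', δ, hδ0, hδT, hδ⟩ := mem_fex.1 hr2 w1 (le_refl _)
  obtain ⟨w3, hw3, h3⟩ := exists_of_meets (hT δ) hδT
  have hw3p : w3 ≤ p1 := hw3.trans (hw2'.trans (hw1.trans (hw.trans (hv.trans x1.le1))))
  refine ⟨⟨w3, r, hw3p⟩, ⟨hw3.trans (hw2'.trans (hw1.trans (hw.trans hv))),
    down_meets _ _ hr _ (hw3.trans hw2')⟩, δ, hδ0, h3, ?_⟩
  intro α hα x' hx'
  obtain ⟨v2, hv2', h4⟩ := mem_fimp.1 (hδ α) x'.fst (hx'.1.trans hw3) hα
  obtain ⟨v3, hv3, h5⟩ := mem_fimp.1 (h4 x'.snd) v2 (le_refl _) (down_meets _ _ hx'.2 _ hv2')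
  obtain ⟨v4, hv4, r'', h6, h7⟩ := mem_fex.1 h5 v3 (le_refl _)
  obtain ⟨v5, hv5, β, hβ, h8⟩ := mem_fex.1 h7 v4 (le_refl _)
  obtain ⟨v6, hv6, s, h9, h10⟩ := mem_fex.1 h8 v5 (le_refl _)
  obtain ⟨v7, hv7, hs7, h11⟩ := exists_of_meets (hC α β s) h10
  have hv7' : v7 ≤ x'.fst := hv7.trans (hv6.trans (hv5.trans (hv4.trans (hv3.trans hv2'))))
  refine ⟨⟨v7, r'', hv7'.trans x'.le1⟩, ⟨hv7', down_meets _ _ h6 _
    (hv7.trans (hv6.trans hv5))⟩, β, hβ, ?_⟩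
  exact hf α β _ h11 _ ⟨le_refl _, down_meets _ _ h9 _ hv7⟩

end Pool.Agent.H633.W
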